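import Pool.Agent.KNF.Defs

/-!
# KNF/BeA: the coordinates `be`

PROOFS (everything from `KNF/Sph.lean`: `bs_smooth, bs_inj, bsi_bs, bs_bsi, bsIm_open, bsi_smoothAt, bs_axis_iff, bs_one,
bs_neg_one, bs_real, sr_bs`).
* `be = bs ∘ A`, `A (x, ξ) = (⟨1 - 2 x, ξ.im⟩, ξ.re)` an affine isomorphism (smooth, injective).
* `be_J`: `J = A⁻¹ ∘ bsi`, `A⁻¹ (z, s) = ((1 - z.re) / 2, ⟨s, z.im⟩)`.
* `be_imm`: differentiate `J (be q) = q` (chain rule): `fderiv J (be q) (fderiv be q v) = v`.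
* `be_surj`: both spaces have real dimension 3, `be_imm` (`LinearMap.injective_iff_surjective_of_finrank_eq_finrank`).
-/

open scoped ContDiff Topology
open Set Filter
open Complex (I)
open Pool.Agent.CSG (stp)
open Pool.Agent.RSG (ex)
open Pool.Agent.KNT

namespace Pool.Agent.KNF

theorem BeA_mk {E : Type*} [NormedAddCommGroup E] [NormedSpace ℝ E] {f g : E → ℝ} {n : WithTop ℕ∞}
    (hf : ContDiff ℝ n f) (hg : ContDiff ℝ n g) : ContDiff ℝ n (fun x => (⟨f x, g x⟩ : ℂ)) := by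
  have e : (fun x => (⟨f x, g x⟩ : ℂ)) = fun x => (f x : ℂ) + (g x : ℂ) * I := by
    funext x
    exact Complex.mk_eq_add_mul_I _ _
  rw [e]
  exact (Complex.ofRealCLM.contDiff.comp hf).add ((Complex.ofRealCLM.contDiff.comp hg).mul contDiff_const)

/-- the affine map -/
noncomputable def BeA_A (q : ℝ × ℂ) : ℂ × ℝ := (⟨1 - 2 * q.1, q.2.im⟩, q.2.re)

/-- its inverse -/
noncomputable def BeA_B (p : ℂ × ℝ) : ℝ × ℂ := ((1 - p.1.re) / 2, ⟨p.2, p.1.im⟩)

theorem BeA_A_smooth : ContDiff ℝ ∞ BeA_A := by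
  unfold BeA_A
  exact (BeA_mk (contDiff_const.sub (contDiff_const.mul contDiff_fst))
    (Complex.imCLM.contDiff.comp contDiff_snd)).prodMk (Complex.reCLM.contDiff.comp contDiff_snd)

theorem BeA_B_smooth : ContDiff ℝ ∞ BeA_B := by
  unfold BeA_B
  exact ((contDiff_const.sub (Complex.reCLM.contDiff.comp contDiff_fst)).div_const _).prodMk
    (BeA_mk contDiff_snd (Complex.imCLM.contDiff.comp contDiff_fst))

theorem BeA_BA (q : ℝ × ℂ) : BeA_B (BeA_A q) = q := by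
  unfold BeA_B BeA_A
  refine Prod.ext ?_ ?_
  · change (1 - (1 - 2 * q.1)) / 2 = q.1
    ring
  · rfl

theorem be_smooth : ContDiff ℝ ∞ be := bs_smooth.comp BeA_A_smooth

theorem be_inj : Function.Injective be := by
  intro q q' h
  have h1 : BeA_A q = BeA_A q' := bs_inj h
  rw [← BeA_BA q, h1, BeA_BA]

theorem be_sr (q : ℝ × ℂ) : sr (be q) = Real.exp q.2.re := sr_bs _

theorem be_axis (q : ℝ × ℂ) : (be q).1 = 0 ↔ (q.1 = 0 ∨ q.1 = 1) ∧ q.2.im = 0 := by
  unfold be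
  rw [bs_axis_iff]
  simp only [Complex.ext_iff, Complex.one_re, Complex.one_im, Complex.neg_re, Complex.neg_im]
  constructor
  · rintro (⟨h1, h2⟩ | ⟨h1, h2⟩)
    · exact ⟨Or.inl (by linarith), h2⟩
    · exact ⟨Or.inr (by linarith), by linarith⟩
  · rintro ⟨h1 | h1, h2⟩
    · left; rw [h1]; exact ⟨by norm_num, h2⟩
    · right; rw [h1]; exact ⟨by norm_num, by rw [h2]; norm_num⟩

theorem be_zero (ξ : ℂ) (h : ξ.im = 0) : be (0, ξ) = (0, -Real.exp ξ.re) := by
  rw [← bs_one]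
  unfold be
  congr 1
  refine Prod.ext ?_ rfl
  apply Complex.ext
  · simp
  · simp [h]

theorem be_one (ξ : ℂ) (h : ξ.im = 0) : be (1, ξ) = (0, Real.exp ξ.re) := by
  rw [← bs_neg_one]
  unfold be
  congr 1
  refine Prod.ext ?_ rfl
  apply Complex.ext
  · norm_num
  · simp [h]

theorem g0_eq (x : ℝ) : g0 x = gsph 0 1 0 x := by
  have e0 : ex 0 = 1 := by unfold ex; simp
  unfold g0 be bs gsph cor qs ps
  simp only [Complex.zero_im, Complex.zero_re, Real.exp_zero, e0, abs_one, one_mul, mul_one, zero_add]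
  refine Prod.ext ?_ ?_
  · apply Complex.ext
    · rw [Complex.ofReal_re]
      simp only
      congr 1 <;> ring
    · rw [Complex.ofReal_im]
      simp
  · simp only
    congr 1 <;> ring

theorem g0_smooth : ContDiff ℝ ∞ g0 := be_smooth.comp (contDiff_id.prodMk contDiff_const)

theorem be_J : ∃ J : ℂ × ℝ → ℝ × ℂ, (∀ q, ∀ᶠ p in 𝓝 (be q), ContDiffAt ℝ ∞ J p) ∧ ∀ q, J (be q) = q := by
  refine ⟨BeA_B ∘ bsi, ?_, ?_⟩
  · intro q
    filter_upwards [bsIm_open.mem_nhds (bs_mem (BeA_A q))] with p hp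
    exact BeA_B_smooth.contDiffAt.comp p (bsi_smoothAt hp)
  · intro q
    change BeA_B (bsi (bs (BeA_A q))) = q
    rw [bsi_bs, BeA_BA]

theorem be_imm (q : ℝ × ℂ) : Function.Injective (fderiv ℝ be q) := by
  obtain ⟨J, h1, h2⟩ := be_J
  have hJ : DifferentiableAt ℝ J (be q) := (h1 q).self_of_nhds.differentiableAt (by simp)
  have hb : DifferentiableAt ℝ be q := be_smooth.contDiffAt.differentiableAt (by simp)
  have h3 : HasFDerivAt (J ∘ be) ((fderiv ℝ J (be q)).comp (fderiv ℝ be q)) q :=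
    hJ.hasFDerivAt.comp q hb.hasFDerivAt
  have h4 : J ∘ be = id := funext h2
  rw [h4] at h3
  have h5 := h3.unique (hasFDerivAt_id q)
  intro v w h
  have h6 : ((fderiv ℝ J (be q)).comp (fderiv ℝ be q)) v = ((fderiv ℝ J (be q)).comp (fderiv ℝ be q)) w := by
    change fderiv ℝ J (be q) (fderiv ℝ be q v) = fderiv ℝ J (be q) (fderiv ℝ be q w)
    rw [h]
  rw [h5] at h6
  exact h6

theorem be_surj (q : ℝ × ℂ) : Function.Surjective (fderiv ℝ be q) := by
  have hf : Module.finrank ℝ (ℝ × ℂ) = Module.finrank ℝ (ℂ × ℝ) := by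
    rw [Module.finrank_prod, Module.finrank_prod, add_comm]
  exact (LinearMap.injective_iff_surjective_of_finrank_eq_finrank
    (f := (fderiv ℝ be q : ℝ × ℂ →ₗ[ℝ] ℂ × ℝ)) hf).mp (be_imm q)

theorem g0_deriv (x : ℝ) : deriv g0 x = fderiv ℝ be (x, 0) (1, 0) := by
  have hb : DifferentiableAt ℝ be (x, 0) := be_smooth.contDiffAt.differentiableAt (by simp)
  have h1 : HasDerivAt (fun x : ℝ => ((x, 0) : ℝ × ℂ)) (1, 0) x :=
    (hasDerivAt_id x).prodMk (hasDerivAt_const x (0 : ℂ))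
  exact (hb.hasFDerivAt.comp_hasDerivAt x h1).deriv

end Pool.Agent.KNF
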