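import Pool.Agent.KNF.AffA
import Pool.Agent.KNF.BeA
import Pool.Agent.RSG.ExM

/-!
# KNF/Aff: affine invariance

PROOFS.
* `kn_map`: `A` is injective and `A '' U = U`; `Bs (mp A L) = A '' Bs L`, `Fg (mp A L) = A '' Fg L`.
* `conf_map`: `(A q).1 = α * q.1` with `α ≠ 0`; so `(A (Φ q)).1 = 0 ↔ (Φ q).1 = 0` and
  `(A ∘ Φ).1 = α * Φ.1` (for `trv`).
* `hg_map`: apply the hypothesis to `A ∘ Φ` and `mp A L`, then `leq_map` for `A⁻¹`.
* `hg_gsph`: `A (w, h) = (|R|⁻¹ ex (-θ) w, (h - c) / R)`, `A ∘ gsph c R θ = gsph 0 1 0` (`ex 0 = 1`,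
  `ex (-θ) * ex θ = 1`).
-/

open scoped ContDiff Topology
open Set Filter
open Complex (I)
open Pool.Agent.CSG (stp)
open Pool.Agent.RSG (ex)
open Pool.Agent.KNT

namespace Pool.Agent.KNF

theorem Aff_iUnion (A : Equiv.Perm (ℂ × ℝ)) (L : SL) (f : ℝ × (ℝ × ℝ → ℂ × ℝ) → Set (ℂ × ℝ))
    (hf : ∀ p, f (p.1, A ∘ p.2) = A '' f p) : (⋃ p ∈ mp A L, f p) = A '' ⋃ p ∈ L, f p := by
  rw [image_iUnion₂]
  ext x
  simp only [mem_iUnion]
  constructor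
  · rintro ⟨p, hp, hx⟩
    obtain ⟨q, hq, rfl⟩ := List.mem_map.1 hp
    exact ⟨q, hq, by rwa [hf] at hx⟩
  · rintro ⟨q, hq, hx⟩
    refine ⟨(q.1, A ∘ q.2), List.mem_map.2 ⟨q, hq, rfl⟩, ?_⟩
    rw [hf]
    exact hx

theorem kn_map {A : Equiv.Perm (ℂ × ℝ)} (hU : A '' U = U) (L : SL) : Kn (mp A L) = A '' Kn L := by
  have h1 : Bs (mp A L) = A '' Bs L :=
    Aff_iUnion A L (fun p => bas p.2) fun p => by
      show (fun y : ℝ => (A ∘ p.2) (0, y)) '' Ioo (-1) 1 = A '' ((fun y : ℝ => p.2 (0, y)) '' Ioo (-1) 1)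
      rw [← image_comp]
      rfl
  have h2 : Fg (mp A L) = A '' Fg L :=
    Aff_iUnion A L (fun p => gr p.2 (prf p.1)) fun p => by
      show (fun y : ℝ => (A ∘ p.2) (prf p.1 y, y)) '' Icc (-1) 1 =
        A '' ((fun y : ℝ => p.2 (prf p.1 y, y)) '' Icc (-1) 1)
      rw [← image_comp]
      rfl
  unfold Kn
  rw [h1, h2, image_union, image_sdiff A.injective, hU]

theorem Aff_imm {A : Equiv.Perm (ℂ × ℝ)} (hA : ContDiff ℝ ∞ A) (hA' : ContDiff ℝ ∞ A.symm)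
    (q : ℂ × ℝ) : Function.Injective (fderiv ℝ A q) := by
  have d1 : Differentiable ℝ A := hA.differentiable (by simp)
  have d2 : Differentiable ℝ A.symm := hA'.differentiable (by simp)
  have h1 : A.symm ∘ A = (id : ℂ × ℝ → ℂ × ℝ) := funext fun x => A.symm_apply_apply x
  have h2 : fderiv ℝ (A.symm ∘ A) q = (fderiv ℝ A.symm (A q)).comp (fderiv ℝ A q) :=
    fderiv_comp q (d2 _) (d1 _)
  rw [h1, fderiv_id] at h2
  intro v w hvw
  have h3 : (ContinuousLinearMap.id ℝ (ℂ × ℝ)) v = (ContinuousLinearMap.id ℝ (ℂ × ℝ)) w := by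
    rw [h2]
    show fderiv ℝ A.symm (A q) (fderiv ℝ A q v) = fderiv ℝ A.symm (A q) (fderiv ℝ A q w)
    rw [hvw]
  exact h3

theorem Aff_strip {A : Equiv.Perm (ℂ × ℝ)} (hA : ContDiff ℝ ∞ A) (hA' : ContDiff ℝ ∞ A.symm) {α : ℂ}
    (hα : α ≠ 0) (hw : ∀ q, (A q).1 = α * q.1) {t : ℝ} {Φ : ℝ × ℝ → ℂ × ℝ} (h : Strip t Φ) :
    Strip t (A ∘ Φ) := by
  have d1 : Differentiable ℝ A := hA.differentiable (by simp)
  have d2 : Differentiable ℝ Φ := h.smooth.differentiable (by simp)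
  refine ⟨h.pos, hA.comp h.smooth, ?_, ?_, ?_, ?_, ?_, ?_⟩
  · intro q hq q' hq' he
    exact h.inj hq hq' (A.injective he)
  · intro q hq
    have h1 : fderiv ℝ (A ∘ Φ) q = (fderiv ℝ A (Φ q)).comp (fderiv ℝ Φ q) :=
      fderiv_comp q (d1 _) (d2 _)
    rw [h1]
    intro v w hvw
    exact h.imm q hq (Aff_imm hA hA' _ hvw)
  · intro y hy
    show (A (Φ (0, y))).1 = 0
    rw [hw, h.foot y hy, mul_zero]
  · show (A (Φ (1, 0))).1 = 0
    rw [hw, h.tip, mul_zero]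
  · intro q hq he
    apply h.off q hq
    have h1 : (A (Φ q)).1 = 0 := he
    rw [hw, mul_eq_zero] at h1
    exact h1.resolve_left hα
  · have h1 : (fun q : ℝ × ℝ => ((A ∘ Φ) q).1) = fun q : ℝ × ℝ => α * (Φ q).1 :=
      funext fun q => hw (Φ q)
    rw [h1]
    have d3 : DifferentiableAt ℝ (fun q : ℝ × ℝ => (Φ q).1) (1, 0) :=
      (differentiableAt_fst.comp (1, 0) (d2 (1, 0)))
    have h2 : fderiv ℝ (fun q : ℝ × ℝ => α * (Φ q).1) (1, 0) =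
        α • fderiv ℝ (fun q : ℝ × ℝ => (Φ q).1) (1, 0) := fderiv_const_mul d3 α
    rw [h2]
    intro v w hvw
    apply h.trv
    have h3 : α • fderiv ℝ (fun q : ℝ × ℝ => (Φ q).1) (1, 0) v =
        α • fderiv ℝ (fun q : ℝ × ℝ => (Φ q).1) (1, 0) w := hvw
    exact smul_right_injective ℂ hα h3

theorem conf_map {A : Equiv.Perm (ℂ × ℝ)} (hA : ContDiff ℝ ∞ A) (hA' : ContDiff ℝ ∞ A.symm) {α : ℂ}
    (hα : α ≠ 0) (hw : ∀ q, (A q).1 = α * q.1) {L : SL} (h : Conf L) : Conf (mp A L) := by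
  refine ⟨?_, ?_⟩
  · intro p hp
    obtain ⟨q, hq, rfl⟩ := List.mem_map.1 hp
    exact Aff_strip hA hA' hα hw (h.1 q hq)
  · unfold mp
    rw [List.pairwise_map]
    refine h.2.imp ?_
    intro p q hpq
    show Disjoint ((A ∘ p.2) '' Rec p.1) ((A ∘ q.2) '' Rec q.1)
    rw [image_comp, image_comp, disjoint_image_iff A.injective]
    exact hpq

theorem Aff_U {A : Equiv.Perm (ℂ × ℝ)} {α : ℂ} (hα : α ≠ 0) (hw : ∀ q, (A q).1 = α * q.1) :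
    A '' U = U := by
  ext x
  constructor
  · rintro ⟨q, hq, rfl⟩
    have h1 : q.1 = 0 := hq
    show (A q).1 = 0
    rw [hw, h1, mul_zero]
  · intro hx
    have h1 : x.1 = 0 := hx
    refine ⟨A.symm x, ?_, A.apply_symm_apply x⟩
    have h2 := hw (A.symm x)
    rw [A.apply_symm_apply, h1] at h2
    exact (mul_eq_zero.1 h2.symm).resolve_left hα

theorem hg_map {A : Equiv.Perm (ℂ × ℝ)} (hA : ContDiff ℝ ∞ A) (hA' : ContDiff ℝ ∞ A.symm) {α : ℂ}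
    (hα : α ≠ 0) (hw : ∀ q, (A q).1 = α * q.1) {u : ℕ} {t : ℝ} {g : ℝ → ℂ × ℝ}
    (h : HG u t (A ∘ g)) : HG u t g := by
  intro Φ L hL hc hg
  have hU := Aff_U hα hw
  have h1 : mp A ((t, Φ) :: L) = (t, A ∘ Φ) :: mp A L := rfl
  have h2 := h (A ∘ Φ) (mp A L) (by rw [mp, List.length_map, hL]) (by
    rw [← h1]
    exact conf_map hA hA' hα hw hc) (fun x hx => by
    show A (Φ (x, 0)) = A (g x)
    rw [hg x hx])
  rw [← h1, kn_map hU] at h2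
  have h3 := leq_map (A := A.symm) hA' hA h2
  have h4 : ∀ S : Set (ℂ × ℝ), A.symm '' (A '' S) = S := by
    intro S
    rw [← image_comp]
    have h5 : A.symm ∘ A = (id : ℂ × ℝ → ℂ × ℝ) := funext fun x => A.symm_apply_apply x
    rw [h5, image_id]
  have h6 : A.symm '' U = U := by
    conv_lhs => rw [← hU]
    exact h4 U
  rw [h4, h6] at h3
  exact h3

/-- the affine map -/
noncomputable def Aff_A (c R θ : ℝ) (hR : R ≠ 0) : Equiv.Perm (ℂ × ℝ) where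
  toFun q := (((|R|⁻¹ : ℝ) : ℂ) * ex (-θ) * q.1, (q.2 - c) / R)
  invFun q := (((|R| : ℝ) : ℂ) * ex θ * q.1, R * q.2 + c)
  left_inv q := by
    have h1 : |R| ≠ 0 := abs_ne_zero.2 hR
    refine Prod.ext ?_ ?_
    · show ((|R| : ℝ) : ℂ) * ex θ * (((|R|⁻¹ : ℝ) : ℂ) * ex (-θ) * q.1) = q.1
      have h2 : ((|R| : ℝ) : ℂ) * ((|R|⁻¹ : ℝ) : ℂ) = 1 := by
        rw [← Complex.ofReal_mul, mul_inv_cancel₀ h1, Complex.ofReal_one]
      have h3 : ex θ * ex (-θ) = 1 := by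
        rw [← RSG.ex_add, add_neg_cancel, RSG.ex_zero]
      calc ((|R| : ℝ) : ℂ) * ex θ * (((|R|⁻¹ : ℝ) : ℂ) * ex (-θ) * q.1)
          = (((|R| : ℝ) : ℂ) * ((|R|⁻¹ : ℝ) : ℂ)) * (ex θ * ex (-θ)) * q.1 := by ring
        _ = q.1 := by rw [h2, h3, one_mul, one_mul]
    · show R * ((q.2 - c) / R) + c = q.2
      rw [mul_div_cancel₀ _ hR]
      ring
  right_inv q := by
    have h1 : |R| ≠ 0 := abs_ne_zero.2 hR
    refine Prod.ext ?_ ?_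
    · show ((|R|⁻¹ : ℝ) : ℂ) * ex (-θ) * (((|R| : ℝ) : ℂ) * ex θ * q.1) = q.1
      have h2 : ((|R| : ℝ) : ℂ) * ((|R|⁻¹ : ℝ) : ℂ) = 1 := by
        rw [← Complex.ofReal_mul, mul_inv_cancel₀ h1, Complex.ofReal_one]
      have h3 : ex θ * ex (-θ) = 1 := by
        rw [← RSG.ex_add, add_neg_cancel, RSG.ex_zero]
      calc ((|R|⁻¹ : ℝ) : ℂ) * ex (-θ) * (((|R| : ℝ) : ℂ) * ex θ * q.1)
          = (((|R| : ℝ) : ℂ) * ((|R|⁻¹ : ℝ) : ℂ)) * (ex θ * ex (-θ)) * q.1 := by ring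
        _ = q.1 := by rw [h2, h3, one_mul, one_mul]
    · show (R * q.2 + c - c) / R = q.2
      rw [add_sub_cancel_right, mul_div_cancel_left₀ _ hR]

theorem hg_gsph {u : ℕ} {c R t θ : ℝ} (hR : R ≠ 0) (h : HG u t (gsph 0 1 0)) : HG u t (gsph c R θ) := by
  have h1 : |R| ≠ 0 := abs_ne_zero.2 hR
  have hα : ((|R|⁻¹ : ℝ) : ℂ) * ex (-θ) ≠ 0 := by
    refine mul_ne_zero ?_ (RSG.ex_ne _)
    rw [Complex.ofReal_ne_zero]
    exact inv_ne_zero h1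
  refine hg_map (A := Aff_A c R θ hR) ?_ ?_ hα (fun q => rfl) ?_
  · show ContDiff ℝ ∞ fun q : ℂ × ℝ => (((|R|⁻¹ : ℝ) : ℂ) * ex (-θ) * q.1, (q.2 - c) / R)
    fun_prop
  · show ContDiff ℝ ∞ fun q : ℂ × ℝ => (((|R| : ℝ) : ℂ) * ex θ * q.1, R * q.2 + c)
    fun_prop
  · have h2 : (Aff_A c R θ hR) ∘ gsph c R θ = gsph 0 1 0 := by
      funext x
      refine Prod.ext ?_ ?_
      · show ((|R|⁻¹ : ℝ) : ℂ) * ex (-θ) * (((|R| * qs x : ℝ) : ℂ) * ex θ) =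
          ((|(1 : ℝ)| * qs x : ℝ) : ℂ) * ex 0
        rw [RSG.ex_zero, abs_one, one_mul, mul_one, Complex.ofReal_mul]
        have h2 : ((|R| : ℝ) : ℂ) * ((|R|⁻¹ : ℝ) : ℂ) = 1 := by
          rw [← Complex.ofReal_mul, mul_inv_cancel₀ h1, Complex.ofReal_one]
        have h3 : ex θ * ex (-θ) = 1 := by
          rw [← RSG.ex_add, add_neg_cancel, RSG.ex_zero]
        calc ((|R|⁻¹ : ℝ) : ℂ) * ex (-θ) * (((|R| : ℝ) : ℂ) * (qs x : ℂ) * ex θ)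
            = (((|R| : ℝ) : ℂ) * ((|R|⁻¹ : ℝ) : ℂ)) * (ex θ * ex (-θ)) * (qs x : ℂ) := by ring
          _ = (qs x : ℂ) := by rw [h2, h3, one_mul, one_mul]
      · show (c + R * ps x - c) / R = 0 + 1 * ps x
        rw [add_sub_cancel_left, mul_div_cancel_left₀ _ hR]
        ring
    rw [h2]
    exact h

end Pool.Agent.KNF
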