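import Pool.Agent.KNF.Defs

/-!
# KNF/AffA: affine invariance

PROOFS.
* `leq_map`: induction on `LEq`. `diff`: `A '' (F '' K) = F' '' (A '' K)` with `F' = A⁻¹.trans (F.trans A)` (as functions
  `A ∘ F ∘ A⁻¹`), `CD univ F'` (support `A '' C`). `four`: `A ∘ b` is a `BalC` (chain rule; `fderiv A` is injective because `A`
  has a differentiable inverse), `A '' (Z ∪ b '' Str) = A '' Z ∪ (A ∘ b) '' Str`. `rib`: `fun l => A ∘ b l` is `Tubes` (all
  fields are checked in the same way).
-/

open scoped ContDiff Topology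
open Set Filter
open Complex (I)
open Pool.Agent.CSG (stp)
open Pool.Agent.RSG (ex)
open Pool.Agent.KNT

namespace Pool.Agent.KNF

theorem AffA_fd {A : Equiv.Perm (ℂ × ℝ)} (hA : ContDiff ℝ ∞ A) (hA' : ContDiff ℝ ∞ A.symm) (x : ℂ × ℝ) :
    Function.Injective (fderiv ℝ A x) := by
  have h1 : HasFDerivAt A (fderiv ℝ A x) x := (hA.differentiable (by simp) x).hasFDerivAt
  have h2 : HasFDerivAt A.symm (fderiv ℝ A.symm (A x)) (A x) := (hA'.differentiable (by simp) (A x)).hasFDerivAt
  have h3 := h2.comp x h1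
  have h4 : (A.symm ∘ A : ℂ × ℝ → ℂ × ℝ) = id := by
    funext y
    simp
  rw [h4] at h3
  have h5 := h3.unique (hasFDerivAt_id x)
  intro v w hvw
  have h6 : (fderiv ℝ A.symm (A x)) ((fderiv ℝ A x) v) = (fderiv ℝ A.symm (A x)) ((fderiv ℝ A x) w) := by
    rw [hvw]
  have h7 : ∀ v, (fderiv ℝ A.symm (A x)) ((fderiv ℝ A x) v) = v := fun v =>
    congrArg (fun L : (ℂ × ℝ) →L[ℝ] (ℂ × ℝ) => L v) h5
  rwa [h7, h7] at h6

theorem AffA_imm {A : Equiv.Perm (ℂ × ℝ)} (hA : ContDiff ℝ ∞ A) (hA' : ContDiff ℝ ∞ A.symm)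
    {b : ℂ × ℝ → ℂ × ℝ} {q : ℂ × ℝ} (hb : ContDiffAt ℝ ∞ b q) (hi : Function.Injective (fderiv ℝ b q)) :
    Function.Injective (fderiv ℝ (A ∘ b) q) := by
  have h1 : HasFDerivAt b (fderiv ℝ b q) q := (hb.differentiableAt (by simp)).hasFDerivAt
  have h2 : HasFDerivAt A (fderiv ℝ A (b q)) (b q) := (hA.differentiable (by simp) (b q)).hasFDerivAt
  rw [(h2.comp q h1).fderiv]
  exact (AffA_fd hA hA' (b q)).comp hi

theorem leq_map {A : Equiv.Perm (ℂ × ℝ)} (hA : ContDiff ℝ ∞ A) (hA' : ContDiff ℝ ∞ A.symm)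
    {K K' : Set (ℂ × ℝ)} (h : LEq K K') : LEq (A '' K) (A '' K') := by
  induction h with
  | refl K => exact LEq.refl _
  | symm _ ih => exact ih.symm
  | trans _ _ ih1 ih2 => exact ih1.trans ih2
  | diff K hF =>
    rename_i F
    have hCD : CD univ (A.symm.trans (F.trans A)) := by
      obtain ⟨C, hC, -, hC'⟩ := hF.supp
      refine ⟨?_, ?_, A '' C, hC.image hA.continuous, subset_univ _, ?_⟩
      · have := hA.comp (hF.smooth.comp hA')
        exact this
      · have := hA.comp (hF.smooth_symm.comp hA')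
        exact this
      · intro x hx
        have h1 : A.symm x ∉ C := fun hc => hx ⟨A.symm x, hc, by simp⟩
        show A (F (A.symm x)) = x
        rw [hC' _ h1]
        simp
    have h1 := LEq.diff (A '' K) hCD
    have h2 : (A.symm.trans (F.trans A)) '' (A '' K) = A '' (F '' K) := by
      rw [← image_comp, ← image_comp]
      congr 1
      funext x
      simp
    rwa [h2] at h1
  | four hb hd =>
    rename_i Z b
    have hB : BalC (A ∘ b) := by
      refine ⟨fun q hq => hA.contDiffAt.comp q (hb.smooth q hq), fun q hq => AffA_imm hA hA' (hb.smooth q hq) (hb.imm q hq),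
        fun x hx y hy hxy => hb.inj hx hy (A.injective hxy)⟩
    have hD : Disjoint (A '' Z) ((A ∘ b) '' Dom) := by
      rw [image_comp]
      exact (disjoint_image_iff A.injective).2 hd
    have h1 := LEq.four hB hD
    rw [image_union, image_union, ← image_comp, ← image_comp]
    exact h1
  | rib hb hd =>
    rename_i Z b
    have hB : Tubes (fun l => A ∘ b l) := by
      refine ⟨fun l hl q hq => ?_, fun l hl q hq => ?_, fun l hl q hq h2 => ?_, fun x hx y hy hxy => hb.inj0 hx hy (A.injective hxy),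
        fun x hx y hy hxy => hb.inj1 hx hy (A.injective hxy),
        fun l hl q hq hs q' hq' hs' he => hb.sep l hl q hq hs q' hq' hs' (A.injective he)⟩
      · exact hA.contDiffAt.comp (l, q) (hb.smooth l hl q hq)
      · have hs : ContDiffAt ℝ ∞ (b l) q := by
          have h1 := hb.smooth l hl q hq
          have h2 : ContDiffAt ℝ ∞ (fun q : ℂ × ℝ => ((l, q) : ℝ × (ℂ × ℝ))) q :=
            contDiffAt_const.prodMk contDiffAt_id
          exact ContDiffAt.comp (g := fun p : ℝ × (ℂ × ℝ) => b p.1 p.2) q h1 h2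
        exact AffA_imm hA hA' hs (hb.imm l hl q hq)
      · show A (b l q) = A (b 0 q)
        rw [hb.ends l hl q hq h2]
    have hD : ∀ l ∈ Icc (0 : ℝ) 1, Disjoint (A '' Z) ((fun l => A ∘ b l) l '' Dom) := by
      intro l hl
      show Disjoint (A '' Z) ((A ∘ b l) '' Dom)
      rw [image_comp]
      exact (disjoint_image_iff A.injective).2 (hd l hl)
    have h1 := LEq.rib hB hD
    rw [image_union, image_union, ← image_comp, ← image_comp]
    exact h1

end Pool.Agent.KNF
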