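import Pool.Agent.KNF.Fam

/-!
# KNF/Ang: directions with a logarithm

PROOFS.
* `gd_ang`: `gd_kk` with `w l x = exp ((1 - l) * lm x + l * (lm' x + (lm 0 - lm' 0)))`. It is smooth and `≠ 0`; at `x = 0`
  it is `exp (lm 0)`, real; at `x = 1` the imaginary part of the exponent is `(1 - l) (lm 1).im + l (lm' 1).im`, in
  `(π m, π (m + 1))` (convexity), so the imaginary part of `w l 1`, which is `exp (Re) * sin (Im)`, is not `0`. `w 1` is
  `exp (lm 0 - lm' 0) • exp (lm' x)`, a positive real multiple (both numbers are real): `gd_smul` and linearity of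
  `kk w` in `w`.
* `om_exp`: `lm x = (π m Sa x) I + log (1 + σ (Sb x) I)` (principal logarithm, `1 + ...` has real part `1`, in
  `Complex.slitPlane`; smooth: `ContDiffAt.clog` or `Complex.contDiffAt_log`, restrict scalars). `Sa 0 = Sb 0 = 0`,
  `Sa 1 = Sb 1 = 1`; `arg (1 + I) = π / 4`, `arg (1 - I) = -π / 4`.
* `om_om`: `1 + σ Sb I ≠ 0` (real part 1); `om m σ 0 = 1`; `om m σ 1 = e^{iπ m} (1 + σ I)`, `e^{iπ m} = ±1`.
* `gd_om`, `gd_om'`: `gd_ang` and `om_exp`: `π m - π / 4` and `π (m - 1) + π / 4` are in `(π (m - 1), π m)`.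
-/

open scoped ContDiff Topology
open Set Filter
open Complex (I)
open Pool.Agent.CSG (stp)
open Pool.Agent.RSG (ex)
open Pool.Agent.KNT

namespace Pool.Agent.KNF

theorem Ang_sin_ne {m : ℤ} {a : ℝ} (h : a ∈ Ioo (Real.pi * m) (Real.pi * (m + 1))) : Real.sin a ≠ 0 := by
  rw [Real.sin_ne_zero_iff]
  intro n hn
  rw [← hn] at h
  obtain ⟨h1, h2⟩ := h
  have hpi := Real.pi_pos
  have h3 : (m : ℝ) < n := by nlinarith
  have h4 : (n : ℝ) < m + 1 := by nlinarith
  have h5 : m < n := by exact_mod_cast h3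
  have h6 : n < m + 1 := by exact_mod_cast h4
  omega

theorem gd_ang {L : SL} {t : ℝ} {lm lm' : ℝ → ℂ} (ht : 0 < t) (hs : ContDiff ℝ ∞ lm) (hs' : ContDiff ℝ ∞ lm')
    (h0 : (lm 0).im = 0) (h0' : (lm' 0).im = 0) {m : ℤ}
    (h1 : (lm 1).im ∈ Ioo (Real.pi * m) (Real.pi * (m + 1)))
    (h1' : (lm' 1).im ∈ Ioo (Real.pi * m) (Real.pi * (m + 1)))
    (ha : ∀ x ∈ Icc 0 (1 + t), g0 x ∉ Sp L)
    (H : Gd L t g0 (kk fun x => Complex.exp (lm' x))) : Gd L t g0 (kk fun x => Complex.exp (lm x)) := by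
  obtain ⟨w, hw⟩ : ∃ w : ℝ → ℝ → ℂ, w = fun (l : ℝ) x =>
      Complex.exp ((1 - (l : ℂ)) * lm x + (l : ℂ) * (lm' x + (lm 0 - lm' 0))) := ⟨_, rfl⟩
  have hw0 : w 0 = fun x => Complex.exp (lm x) := by
    rw [hw]
    funext x
    simp
  have hw00 : ∀ l, w l 0 = Complex.exp (lm 0) := by
    intro l
    rw [hw]
    change Complex.exp ((1 - (l : ℂ)) * lm 0 + (l : ℂ) * (lm' 0 + (lm 0 - lm' 0))) = _
    congr 1
    ring
  have hc : Complex.exp (lm 0 - lm' 0) = ((Real.exp ((lm 0).re - (lm' 0).re) : ℝ) : ℂ) := by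
    rw [Complex.ofReal_exp]
    congr 1
    apply Complex.ext
    · simp
    · simp [h0, h0']
  have hw1 : kk (w 1) = fun x => Real.exp ((lm 0).re - (lm' 0).re) • kk (fun x => Complex.exp (lm' x)) x := by
    funext x
    unfold kk
    have e : ((0 : ℝ), w 1 x) =
        Real.exp ((lm 0).re - (lm' 0).re) • ((0 : ℝ), Complex.exp (lm' x)) := by
      rw [Prod.smul_mk, smul_zero]
      congr 1
      rw [hw]
      change Complex.exp ((1 - ((1 : ℝ) : ℂ)) * lm x + ((1 : ℝ) : ℂ) * (lm' x + (lm 0 - lm' 0))) = _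
      rw [Complex.real_smul, ← hc, ← Complex.exp_add]
      congr 1
      push_cast
      ring
    rw [e, map_smul]
  rw [← hw0]
  apply gd_kk ht (w := w)
  · rw [hw]
    have hl : ContDiff ℝ ∞ fun p : ℝ × ℝ => ((p.1 : ℝ) : ℂ) := Complex.ofRealCLM.contDiff.comp contDiff_fst
    have e1 : ContDiff ℝ ∞ fun p : ℝ × ℝ => lm p.2 := hs.comp contDiff_snd
    have e2 : ContDiff ℝ ∞ fun p : ℝ × ℝ => lm' p.2 := hs'.comp contDiff_snd
    exact (((contDiff_const.sub hl).mul e1).add (hl.mul (e2.add contDiff_const))).cexp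
  · intro l hl
    refine ⟨?_, ?_, ?_, ?_⟩
    · rw [hw]
      exact ((contDiff_const.mul hs).add (contDiff_const.mul (hs'.add contDiff_const))).cexp
    · intro x _
      rw [hw]
      exact Complex.exp_ne_zero _
    · rw [hw00, Complex.exp_im, h0, Real.sin_zero, mul_zero]
    · rw [hw]
      change (Complex.exp ((1 - (l : ℂ)) * lm 1 + (l : ℂ) * (lm' 1 + (lm 0 - lm' 0)))).im ≠ 0
      rw [Complex.exp_im]
      apply mul_ne_zero (Real.exp_pos _).ne'
      apply Ang_sin_ne (m := m)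
      have e : ((1 - (l : ℂ)) * lm 1 + (l : ℂ) * (lm' 1 + (lm 0 - lm' 0))).im =
          (1 - l) * (lm 1).im + l * (lm' 1).im := by
        simp [h0, h0']
      rw [e]
      obtain ⟨a1, a2⟩ := h1
      obtain ⟨b1, b2⟩ := h1'
      obtain ⟨c1, c2⟩ := hl
      constructor
      · rcases eq_or_lt_of_le c1 with h | h
        · rw [← h]
          linarith
        · nlinarith
      · rcases eq_or_lt_of_le c1 with h | h
        · rw [← h]
          linarith
        · nlinarith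
  · intro l _
    rw [hw00, hw00]
  · exact ha
  · rw [hw1]
    exact gd_smul (Real.exp_pos _) H

theorem Ang_Sa_zero : Sa 0 = 0 := Pool.Agent.CSG.stp_zero (by norm_num) (by norm_num)
theorem Ang_Sa_one : Sa 1 = 1 := Pool.Agent.CSG.stp_one (by norm_num) (by norm_num)
theorem Ang_Sb_zero : Sb 0 = 0 := Pool.Agent.CSG.stp_zero (by norm_num) (by norm_num)
theorem Ang_Sb_one : Sb 1 = 1 := Pool.Agent.CSG.stp_one (by norm_num) (by norm_num)
theorem Ang_Sa_smooth : ContDiff ℝ ∞ Sa := Pool.Agent.CSG.stp_smooth _ _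
theorem Ang_Sb_smooth : ContDiff ℝ ∞ Sb := Pool.Agent.CSG.stp_smooth _ _

theorem Ang_re (a : ℝ) : (1 + (a : ℂ) * I).re = 1 := by simp

theorem Ang_arg {σ : ℝ} (hσ : σ = 1 ∨ σ = -1) : Complex.arg (1 + (σ : ℂ) * I) = σ * (Real.pi / 4) := by
  have hpi := Real.pi_pos
  have h2 : (0 : ℝ) < √2 := by positivity
  have h3 : √2 * √2 = (2 : ℝ) := Real.mul_self_sqrt (by norm_num)
  have e : (1 + (σ : ℂ) * I) = ((√2 : ℝ) : ℂ) *
      (Complex.cos ((σ * (Real.pi / 4) : ℝ) : ℂ) + Complex.sin ((σ * (Real.pi / 4) : ℝ) : ℂ) * I) := by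
    rw [← Complex.ofReal_cos, ← Complex.ofReal_sin]
    rcases hσ with rfl | rfl
    · rw [one_mul, Real.cos_pi_div_four, Real.sin_pi_div_four]
      apply Complex.ext
      · simp
        linarith
      · simp
        linarith
    · rw [neg_one_mul, Real.cos_neg, Real.sin_neg, Real.cos_pi_div_four, Real.sin_pi_div_four]
      apply Complex.ext
      · simp
        linarith
      · simp
        linarith
  rw [e]
  apply Complex.arg_mul_cos_add_sin_mul_I h2
  rcases hσ with rfl | rfl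
  · constructor <;> linarith
  · constructor <;> linarith

theorem om_exp (m : ℤ) {σ : ℝ} (hσ : σ = 1 ∨ σ = -1) : ∃ lm : ℝ → ℂ, ContDiff ℝ ∞ lm ∧
    (∀ x, om m σ x = Complex.exp (lm x)) ∧ lm 0 = 0 ∧ (lm 1).im = Real.pi * m + σ * (Real.pi / 4) := by
  refine ⟨fun x => ((Real.pi * m * Sa x : ℝ) : ℂ) * I + Complex.log (1 + ((σ * Sb x : ℝ) : ℂ) * I),
    ?_, ?_, ?_, ?_⟩
  · apply ContDiff.add
    · exact (Complex.ofRealCLM.contDiff.comp (contDiff_const.mul Ang_Sa_smooth)).mul contDiff_const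
    · rw [contDiff_iff_contDiffAt]
      intro x
      have e1 : ContDiffAt ℝ ∞ (fun x : ℝ => (1 + ((σ * Sb x : ℝ) : ℂ) * I)) x :=
        (contDiff_const.add ((Complex.ofRealCLM.contDiff.comp
          (contDiff_const.mul Ang_Sb_smooth)).mul contDiff_const)).contDiffAt
      have hm : (1 + ((σ * Sb x : ℝ) : ℂ) * I) ∈ Complex.slitPlane := by
        left
        rw [Ang_re]
        norm_num
      exact ((Complex.contDiffAt_log (n := ∞) hm).restrict_scalars ℝ).comp x e1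
  · intro x
    rw [Complex.exp_add, Complex.exp_log]
    · rfl
    · intro h
      have h1 := congrArg Complex.re h
      rw [Ang_re, Complex.zero_re] at h1
      norm_num at h1
  · simp [Ang_Sa_zero, Ang_Sb_zero]
  · change (((Real.pi * m * Sa 1 : ℝ) : ℂ) * I + Complex.log (1 + ((σ * Sb 1 : ℝ) : ℂ) * I)).im = _
    rw [Complex.add_im, Complex.log_im, Ang_Sa_one, Ang_Sb_one, mul_one, mul_one, Ang_arg hσ]
    congr 1
    simp

theorem om_om (m : ℤ) {σ : ℝ} (hσ : σ = 1 ∨ σ = -1) (t : ℝ) : Om t (om m σ) := by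
  obtain ⟨lm, h1, h2, h3, h4⟩ := om_exp m hσ
  have e : om m σ = fun x => Complex.exp (lm x) := funext h2
  rw [e]
  refine ⟨h1.cexp, fun x _ => Complex.exp_ne_zero _, ?_, ?_⟩
  · rw [h3]
    simp
  · rw [Complex.exp_im, h4]
    apply mul_ne_zero (Real.exp_pos _).ne'
    have hpi := Real.pi_pos
    rcases hσ with rfl | rfl
    · apply Ang_sin_ne (m := m)
      constructor <;> nlinarith
    · apply Ang_sin_ne (m := m - 1)
      push_cast
      constructor <;> nlinarith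

theorem gd_om {L : SL} {t : ℝ} (ht : 0 < t) (ha : ∀ x ∈ Icc 0 (1 + t), g0 x ∉ Sp L) (m : ℤ)
    (H : Gd L t g0 (kk (om (m - 1) 1))) : Gd L t g0 (kk (om m (-1))) := by
  obtain ⟨lm, h1, h2, h3, h4⟩ := om_exp m (Or.inr rfl : (-1 : ℝ) = 1 ∨ (-1 : ℝ) = -1)
  obtain ⟨lm', h1', h2', h3', h4'⟩ := om_exp (m - 1) (Or.inl rfl : (1 : ℝ) = 1 ∨ (1 : ℝ) = -1)
  have e : om m (-1) = fun x => Complex.exp (lm x) := funext h2
  have e' : om (m - 1) 1 = fun x => Complex.exp (lm' x) := funext h2'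
  have hpi := Real.pi_pos
  rw [e]
  rw [e'] at H
  apply gd_ang ht h1 h1' (by rw [h3, Complex.zero_im]) (by rw [h3', Complex.zero_im]) (m := m - 1) _ _ ha H
  · rw [h4]
    push_cast
    constructor <;> nlinarith
  · rw [h4']
    push_cast
    constructor <;> nlinarith

theorem gd_om' {L : SL} {t : ℝ} (ht : 0 < t) (ha : ∀ x ∈ Icc 0 (1 + t), g0 x ∉ Sp L) (m : ℤ)
    (H : Gd L t g0 (kk (om m (-1)))) : Gd L t g0 (kk (om (m - 1) 1)) := by
  obtain ⟨lm', h1', h2', h3', h4'⟩ := om_exp m (Or.inr rfl : (-1 : ℝ) = 1 ∨ (-1 : ℝ) = -1)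
  obtain ⟨lm, h1, h2, h3, h4⟩ := om_exp (m - 1) (Or.inl rfl : (1 : ℝ) = 1 ∨ (1 : ℝ) = -1)
  have e' : om m (-1) = fun x => Complex.exp (lm' x) := funext h2'
  have e : om (m - 1) 1 = fun x => Complex.exp (lm x) := funext h2
  have hpi := Real.pi_pos
  rw [e]
  rw [e'] at H
  apply gd_ang ht h1 h1' (by rw [h3, Complex.zero_im]) (by rw [h3', Complex.zero_im]) (m := m - 1) _ _ ha H
  · rw [h4]
    push_cast
    constructor <;> nlinarith
  · rw [h4']
    push_cast
    constructor <;> nlinarith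

end Pool.Agent.KNF
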