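import Pool.Agent.KNF.BeA

/-!
# KNF/Be: derivative of `be` at the ends, decomposition of vectors along the core

PROOFS.
* `be_fd_zero`, `be_fd_one`: first components of the partial derivatives; `(be (x, ξ)).1 = e^s (1 - z₁² - v² - 2 i v) /
  (1 + z₁² + v²)`, `z₁ = 1 - 2 x`, `ξ = s + i v`; at `(0, 0)`: `2 a - i ξ.im`, at `(1, 0)`: `-2 a - i ξ.im`. (E.g. the
  curve `τ ↦ (be (τ a, τ ξ)).1` has an explicit derivative at `0`.)
* `be_dec`: `(α x, w x) = fderiv ℝ J (be (x, 0)) (k x)`, smooth in `x` (`ContDiffAt.fderiv`, `J` smooth near `be (x, 0)`: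
  `bsIm_open`); `fderiv be (x, 0) ∘ fderiv J (be (x, 0)) = id` because the other composition is the identity and
  `fderiv be` is surjective.
-/

open scoped ContDiff Topology
open Set Filter
open Complex (I)
open Pool.Agent.CSG (stp)
open Pool.Agent.RSG (ex)
open Pool.Agent.KNT

namespace Pool.Agent.KNF

/-- the derivative of the first component along a line, at a point of the axis -/
theorem Be_line {x₀ c : ℝ} (hc : 1 - 2 * x₀ = c) (hc1 : c ^ 2 = 1) (a : ℝ) (ξ : ℂ) :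
    HasDerivAt (fun τ : ℝ => (be (x₀ + τ * a, ((τ : ℝ) : ℂ) * ξ)).1) ⟨2 * c * a, -ξ.im⟩ 0 := by
  have hτ : HasDerivAt (fun τ : ℝ => τ) 1 0 := hasDerivAt_id 0
  have hz : HasDerivAt (fun τ : ℝ => 1 - 2 * (x₀ + τ * a)) (-(2 * (1 * a))) 0 :=
    (((hτ.mul_const a).const_add x₀).const_mul 2).const_sub 1
  have hv : HasDerivAt (fun τ : ℝ => τ * ξ.im) (1 * ξ.im) 0 := hτ.mul_const _
  have hs : HasDerivAt (fun τ : ℝ => Real.exp (τ * ξ.re)) (Real.exp (0 * ξ.re) * (1 * ξ.re)) 0 :=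
    (hτ.mul_const ξ.re).exp
  have hN : HasDerivAt (fun τ : ℝ => (1 - 2 * (x₀ + τ * a)) ^ 2 + (τ * ξ.im) ^ 2)
      (((2 : ℕ) : ℝ) * (1 - 2 * (x₀ + 0 * a)) ^ (2 - 1) * (-(2 * (1 * a))) +
        ((2 : ℕ) : ℝ) * (0 * ξ.im) ^ (2 - 1) * (1 * ξ.im)) 0 := (hz.pow 2).add (hv.pow 2)
  have hden : (1 : ℝ) + ((1 - 2 * (x₀ + 0 * a)) ^ 2 + (0 * ξ.im) ^ 2) ≠ 0 := by positivity
  have h1 := hs.mul ((hN.const_sub 1).div (hN.const_add 1) hden)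
  have h2 := hs.mul ((hv.const_mul (-2)).div (hN.const_add 1) hden)
  have h3 : HasDerivAt (fun τ : ℝ => (⟨Real.exp (τ * ξ.re) *
      ((1 - ((1 - 2 * (x₀ + τ * a)) ^ 2 + (τ * ξ.im) ^ 2)) / (1 + ((1 - 2 * (x₀ + τ * a)) ^ 2 + (τ * ξ.im) ^ 2))),
      Real.exp (τ * ξ.re) * (-2 * (τ * ξ.im) / (1 + ((1 - 2 * (x₀ + τ * a)) ^ 2 + (τ * ξ.im) ^ 2)))⟩ : ℂ))
      (Complex.equivRealProdCLM.symm (_, _)) 0 :=
    Complex.equivRealProdCLM.symm.hasFDerivAt.comp_hasDerivAt (0 : ℝ) (h1.prodMk h2)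
  refine (h3.congr_deriv ?_).congr_of_eventuallyEq ?_
  · have e0 : 1 - 2 * (x₀ + 0 * a) = c := by rw [zero_mul, add_zero, hc]
    rw [e0]
    apply Complex.ext
    · show _ = 2 * c * a
      simp [hc1, hc]
      ring
    · show _ = -ξ.im
      simp [hc1, hc]
      ring
  · refine Filter.Eventually.of_forall fun τ => ?_
    apply Complex.ext
    · simp [be, bs]
    · simp [be, bs]

theorem Be_fd {x₀ c : ℝ} (hc : 1 - 2 * x₀ = c) (hc1 : c ^ 2 = 1) (a : ℝ) (ξ : ℂ) :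
    (fderiv ℝ be (x₀, 0) (a, ξ)).1 = ⟨2 * c * a, -ξ.im⟩ := by
  have h1 : HasFDerivAt be (fderiv ℝ be (x₀, 0)) ((x₀ : ℝ) + 0 * a, (((0 : ℝ)) : ℂ) * ξ) := by
    have e : ((x₀ : ℝ) + 0 * a, (((0 : ℝ)) : ℂ) * ξ) = (x₀, (0 : ℂ)) := by simp
    rw [e]
    exact ((be_smooth.differentiable (by simp)) (x₀, 0)).hasFDerivAt
  have hτ : HasDerivAt (fun τ : ℝ => τ) 1 0 := hasDerivAt_id 0
  have h2 : HasDerivAt (fun τ : ℝ => (x₀ + τ * a, ((τ : ℝ) : ℂ) * ξ)) (1 * a, ((1 : ℝ) : ℂ) * ξ) 0 :=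
    ((hτ.mul_const a).const_add x₀).prodMk (hτ.ofReal_comp.mul_const ξ)
  have h3 := h1.comp_hasDerivAt (0 : ℝ) h2
  have h4 := (hasFDerivAt_fst (𝕜 := ℝ) (p := be ((x₀ : ℝ) + 0 * a, (((0 : ℝ)) : ℂ) * ξ))).comp_hasDerivAt
    (0 : ℝ) h3
  have h5 := h4.unique (Be_line hc hc1 a ξ)
  simpa using h5

theorem be_fd_zero (a : ℝ) (ξ : ℂ) : (fderiv ℝ be (0, 0) (a, ξ)).1 = ⟨2 * a, -ξ.im⟩ := by
  rw [Be_fd (c := 1) (by norm_num) (by norm_num)]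
  congr 1
  ring

theorem be_fd_one (a : ℝ) (ξ : ℂ) : (fderiv ℝ be (1, 0) (a, ξ)).1 = ⟨-2 * a, -ξ.im⟩ := by
  rw [Be_fd (c := -1) (by norm_num) (by norm_num)]
  congr 1
  ring

theorem be_dec {k : ℝ → ℂ × ℝ} (hk : ContDiff ℝ ∞ k) : ∃ (α : ℝ → ℝ) (w : ℝ → ℂ),
    ContDiff ℝ ∞ α ∧ ContDiff ℝ ∞ w ∧ ∀ x, k x = fderiv ℝ be (x, 0) (α x, w x) := by
  obtain ⟨J, hJ, hJ'⟩ := be_J
  have hJs : ∀ q, ContDiffAt ℝ ∞ J (be q) := fun q => (hJ q).self_of_nhds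
  have hsm : ContDiff ℝ ∞ fun x : ℝ => fderiv ℝ J (be (x, 0)) (k x) := by
    rw [contDiff_iff_contDiffAt]
    intro x
    have h1 : ContDiffAt ℝ ∞ (fderiv ℝ J) (be (x, 0)) := (hJs (x, 0)).fderiv_right (by simp)
    have h2 : ContDiffAt ℝ ∞ (fun x : ℝ => be (x, 0)) x :=
      (be_smooth.comp (contDiff_id.prodMk contDiff_const)).contDiffAt
    have h3 : ContDiffAt ℝ ∞ (fun x : ℝ => fderiv ℝ J (be (x, 0))) x :=
      ContDiffAt.comp (g := fderiv ℝ J) (f := fun x : ℝ => be (x, 0)) x h1 h2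
    exact h3.clm_apply hk.contDiffAt
  refine ⟨fun x => (fderiv ℝ J (be (x, 0)) (k x)).1, fun x => (fderiv ℝ J (be (x, 0)) (k x)).2,
    contDiff_fst.comp hsm, contDiff_snd.comp hsm, ?_⟩
  intro x
  obtain ⟨u, hu⟩ := be_surj (x, 0) (k x)
  have h1 : HasFDerivAt be (fderiv ℝ be (x, 0)) (x, 0) :=
    ((be_smooth.differentiable (by simp)) (x, 0)).hasFDerivAt
  have h2 : HasFDerivAt J (fderiv ℝ J (be (x, 0))) (be (x, 0)) :=
    ((hJs (x, 0)).differentiableAt (by simp)).hasFDerivAt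
  have h3 := h2.comp (x, (0 : ℂ)) h1
  have h4 : J ∘ be = id := funext hJ'
  rw [h4] at h3
  have h5 := h3.unique (hasFDerivAt_id _)
  have h6 := DFunLike.congr_fun h5 u
  have h7 : fderiv ℝ J (be (x, 0)) (fderiv ℝ be (x, 0) u) = u := h6
  rw [hu] at h7
  show k x = fderiv ℝ be (x, 0) ((fderiv ℝ J (be (x, 0)) (k x)).1, (fderiv ℝ J (be (x, 0)) (k x)).2)
  rw [h7]
  exact hu.symm

end Pool.Agent.KNF
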