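import Mathlib
import Pool.Agent.CSG.FunBasic

/-!
# KNF/Clp: smooth clamp

PROOF.
* `exists_clamp`: there is `η > 0` with `[a - η, b + η] ⊆ W`. Let `S₁ = stp b (b + η)`, `S₂ = 1 - stp (a - η) a` (`stp` of
  `Pool.Agent.CSG`: `stp_smooth, stp_zero, stp_one, stp_nonneg, stp_le_one`) and `c x = x (1 - S₁ - S₂) + b S₁ + a S₂`.
-/

open scoped ContDiff Topology
open Set Filter
open Complex (I)
open Pool.Agent.CSG (stp)

namespace Pool.Agent.KNF

theorem exists_clamp {a b : ℝ} (hab : a ≤ b) {W : Set ℝ} (hW : IsOpen W) (h : Icc a b ⊆ W) :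
    ∃ c : ℝ → ℝ, ContDiff ℝ ∞ c ∧ (∀ x ∈ Icc a b, c x = x) ∧ ∀ x, c x ∈ W := by
  obtain ⟨η₁, h1, h1'⟩ := Metric.isOpen_iff.1 hW a (h ⟨le_rfl, hab⟩)
  obtain ⟨η₂, h2, h2'⟩ := Metric.isOpen_iff.1 hW b (h ⟨hab, le_rfl⟩)
  set η : ℝ := min η₁ η₂ / 2 with hη
  have hη0 : 0 < η := by
    have := lt_min h1 h2
    linarith
  have hη1 : η < η₁ := by
    have h3 := min_le_left η₁ η₂
    have h4 := lt_min h1 h2
    linarith
  have hη2 : η < η₂ := by
    have h3 := min_le_right η₁ η₂
    have h4 := lt_min h1 h2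
    linarith
  have hWa : ∀ x, a - η ≤ x → x ≤ a → x ∈ W := by
    intro x hx1 hx2
    apply h1'
    rw [Metric.mem_ball, Real.dist_eq, abs_lt]
    constructor <;> linarith
  have hWb : ∀ x, b ≤ x → x ≤ b + η → x ∈ W := by
    intro x hx1 hx2
    apply h2'
    rw [Metric.mem_ball, Real.dist_eq, abs_lt]
    constructor <;> linarith
  refine ⟨fun x => x * (1 - stp b (b + η) x - (1 - stp (a - η) a x)) + b * stp b (b + η) x +
    a * (1 - stp (a - η) a x), ?_, ?_, ?_⟩
  · have s1 : ContDiff ℝ ∞ (stp b (b + η)) := Pool.Agent.CSG.stp_smooth _ _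
    have s2 : ContDiff ℝ ∞ (stp (a - η) a) := Pool.Agent.CSG.stp_smooth _ _
    exact ((contDiff_id.mul ((contDiff_const.sub s1).sub (contDiff_const.sub s2))).add
      (contDiff_const.mul s1)).add (contDiff_const.mul (contDiff_const.sub s2))
  · intro x hx
    have e1 : stp b (b + η) x = 0 := Pool.Agent.CSG.stp_zero (by linarith) hx.2
    have e2 : stp (a - η) a x = 1 := Pool.Agent.CSG.stp_one (by linarith) hx.1
    show x * (1 - stp b (b + η) x - (1 - stp (a - η) a x)) + b * stp b (b + η) x +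
      a * (1 - stp (a - η) a x) = x
    rw [e1, e2]
    ring
  · intro x
    show x * (1 - stp b (b + η) x - (1 - stp (a - η) a x)) + b * stp b (b + η) x +
      a * (1 - stp (a - η) a x) ∈ W
    rcases le_total x a with hx | hx
    · have e1 : stp b (b + η) x = 0 := Pool.Agent.CSG.stp_zero (by linarith) (hx.trans hab)
      rw [e1]
      by_cases hx2 : x ≤ a - η
      · have e2 : stp (a - η) a x = 0 := Pool.Agent.CSG.stp_zero (by linarith) hx2
        rw [e2]
        have e3 : x * (1 - 0 - (1 - 0)) + b * 0 + a * (1 - 0) = a := by ring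
        rw [e3]
        exact h ⟨le_rfl, hab⟩
      · have g1 := Pool.Agent.CSG.stp_nonneg (a - η) a x
        have g2 := Pool.Agent.CSG.stp_le_one (a - η) a x
        apply hWa
        · nlinarith [not_le.1 hx2]
        · nlinarith [not_le.1 hx2]
    · rcases le_total x b with hx' | hx'
      · have e1 : stp b (b + η) x = 0 := Pool.Agent.CSG.stp_zero (by linarith) hx'
        have e2 : stp (a - η) a x = 1 := Pool.Agent.CSG.stp_one (by linarith) hx
        rw [e1, e2]
        have e3 : x * (1 - 0 - (1 - 1)) + b * 0 + a * (1 - 1) = x := by ring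
        rw [e3]
        exact h ⟨hx, hx'⟩
      · have e2 : stp (a - η) a x = 1 := Pool.Agent.CSG.stp_one (by linarith) (hab.trans hx')
        rw [e2]
        by_cases hx2 : b + η ≤ x
        · have e1 : stp b (b + η) x = 1 := Pool.Agent.CSG.stp_one (by linarith) hx2
          rw [e1]
          have e3 : x * (1 - 1 - (1 - 1)) + b * 1 + a * (1 - 1) = b := by ring
          rw [e3]
          exact h ⟨hab, le_rfl⟩
        · have g1 := Pool.Agent.CSG.stp_nonneg b (b + η) x
          have g2 := Pool.Agent.CSG.stp_le_one b (b + η) x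
          apply hWb
          · nlinarith [not_le.1 hx2]
          · nlinarith [not_le.1 hx2]

end Pool.Agent.KNF
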