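import Mathlib

/-!
# KNF/Lg: smooth logarithms of curves in `ℂ - 0`
-/

open scoped ContDiff Topology
open Set Filter

namespace Pool.Agent.KNF

/-- a smooth curve without zeros has a smooth logarithm -/
theorem exists_log {c : ℝ → ℂ} (hc : ContDiff ℝ ∞ c) (h0 : ∀ x, c x ≠ 0) (x₀ : ℝ) (l₀ : ℂ)
    (hl : Complex.exp l₀ = c x₀) :
    ∃ L : ℝ → ℂ, ContDiff ℝ ∞ L ∧ L x₀ = l₀ ∧ ∀ x, Complex.exp (L x) = c x := by
  have hd : ContDiff ℝ ∞ (deriv c) := (contDiff_infty_iff_deriv.1 hc).2
  have hf : ContDiff ℝ ∞ (fun x => deriv c x / c x) := by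
    have := hd.mul (hc.inv h0)
    simpa [div_eq_mul_inv] using this
  obtain ⟨L, hL⟩ : ∃ L : ℝ → ℂ, L = fun x => l₀ + ∫ t in x₀..x, deriv c t / c t := ⟨_, rfl⟩
  have hLd : ∀ x, HasDerivAt L (deriv c x / c x) x := by
    intro x
    have h1 := (intervalIntegral.integral_hasDerivAt_right (hf.continuous.intervalIntegrable x₀ x)
      (hf.continuous.stronglyMeasurableAtFilter _ _) hf.continuous.continuousAt).const_add l₀
    rw [hL]
    exact h1
  have hLs : ContDiff ℝ ∞ L := by
    rw [contDiff_infty_iff_deriv]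
    refine ⟨fun x => (hLd x).differentiableAt, ?_⟩
    have h2 : deriv L = fun x => deriv c x / c x := funext fun x => (hLd x).deriv
    rw [h2]
    exact hf
  have hL0 : L x₀ = l₀ := by
    rw [hL]
    simp
  refine ⟨L, hLs, hL0, ?_⟩
  have hg : ∀ x, HasDerivAt (fun x => c x * Complex.exp (-L x)) 0 x := by
    intro x
    have h3 : HasDerivAt c (deriv c x) x := (hc.differentiable (by simp) x).hasDerivAt
    have h4 : HasDerivAt (fun x => Complex.exp (-L x))
        (Complex.exp (-L x) * -(deriv c x / c x)) x := (hLd x).neg.cexp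
    have h5 := h3.mul h4
    have h6 : deriv c x * Complex.exp (-L x) +
        c x * (Complex.exp (-L x) * -(deriv c x / c x)) = 0 := by
      field_simp [h0 x]
      ring
    rw [h6] at h5
    exact h5
  have hconst : ∀ x, c x * Complex.exp (-L x) = 1 := by
    intro x
    have h7 := is_const_of_deriv_eq_zero (𝕜 := ℝ) (f := fun x => c x * Complex.exp (-L x))
      (fun x => (hg x).differentiableAt) (fun x => (hg x).deriv) x x₀
    have h7' : c x * Complex.exp (-L x) = c x₀ * Complex.exp (-L x₀) := h7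
    rw [h7', hL0, ← hl, ← Complex.exp_add]
    simp
  intro x
  have h8 := hconst x
  rw [Complex.exp_neg] at h8
  have h9 := Complex.exp_ne_zero (L x)
  field_simp at h8
  exact h8.symm

end Pool.Agent.KNF
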