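import Mathlib

/-!
# KNF/Sph: spherical coordinates of `E = ℂ × ℝ` around the half circle

`bs (z, s) = e^s σ (z)`, `σ (z) = (1 - |z|² - 2 i Im z, -2 Re z) / (1 + |z|²)` a point of the unit sphere.
`σ 1 = (0, -1)`, `σ (-1) = (0, 1)`; for real `z ∈ [-1, 1]` it is the half circle in the half plane `w ≥ 0`.
The inverse is `p = (w, h) ↦ (-(h + i Im w) / (r + Re w), log r)`, `r = |p|`.
-/

open scoped ContDiff Topology
open Set Filter

namespace Pool.Agent.KNF

/-- the euclidean norm -/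
noncomputable def sr (p : ℂ × ℝ) : ℝ := Real.sqrt (p.1.re ^ 2 + p.1.im ^ 2 + p.2 ^ 2)

/-- spherical coordinates -/
noncomputable def bs (q : ℂ × ℝ) : ℂ × ℝ :=
  (⟨Real.exp q.2 * ((1 - (q.1.re ^ 2 + q.1.im ^ 2)) / (1 + (q.1.re ^ 2 + q.1.im ^ 2))),
      Real.exp q.2 * (-2 * q.1.im / (1 + (q.1.re ^ 2 + q.1.im ^ 2)))⟩,
    Real.exp q.2 * (-2 * q.1.re / (1 + (q.1.re ^ 2 + q.1.im ^ 2))))

/-- the inverse -/
noncomputable def bsi (p : ℂ × ℝ) : ℂ × ℝ :=
  (⟨-p.2 / (sr p + p.1.re), -p.1.im / (sr p + p.1.re)⟩, Real.log (sr p))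

/-- the image of `bs` -/
def bsIm : Set (ℂ × ℝ) := {p | 0 < sr p + p.1.re}

theorem den_pos (z : ℂ) : 0 < 1 + (z.re ^ 2 + z.im ^ 2) := by positivity

theorem sr_bs (q : ℂ × ℝ) : sr (bs q) = Real.exp q.2 := by
  have h1 := den_pos q.1
  have h2 : (bs q).1.re ^ 2 + (bs q).1.im ^ 2 + (bs q).2 ^ 2 = Real.exp q.2 ^ 2 := by
    simp only [bs]
    field_simp
    ring
  rw [sr, h2, Real.sqrt_sq (Real.exp_pos _).le]

theorem bs_mem (q : ℂ × ℝ) : bs q ∈ bsIm := by
  have h1 := den_pos q.1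
  have h2 : sr (bs q) + (bs q).1.re = Real.exp q.2 * (2 / (1 + (q.1.re ^ 2 + q.1.im ^ 2))) := by
    rw [sr_bs]
    simp only [bs]
    field_simp
    ring
  change 0 < sr (bs q) + (bs q).1.re
  rw [h2]
  positivity

theorem bsi_bs (q : ℂ × ℝ) : bsi (bs q) = q := by
  have h1 := den_pos q.1
  have h2 : sr (bs q) + (bs q).1.re = Real.exp q.2 * (2 / (1 + (q.1.re ^ 2 + q.1.im ^ 2))) := by
    rw [sr_bs]
    simp only [bs]
    field_simp
    ring
  have h3 := Real.exp_pos q.2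
  refine Prod.ext (Complex.ext ?_ ?_) ?_
  · change -(bs q).2 / (sr (bs q) + (bs q).1.re) = _
    rw [h2]
    simp only [bs]
    field_simp
  · change -(bs q).1.im / (sr (bs q) + (bs q).1.re) = _
    rw [h2]
    simp only [bs]
    field_simp
  · change Real.log (sr (bs q)) = _
    rw [sr_bs, Real.log_exp]

theorem bs_inj : Function.Injective bs := fun q q' h => by rw [← bsi_bs q, h, bsi_bs]

theorem bs_bsi {p : ℂ × ℝ} (hp : p ∈ bsIm) : bs (bsi p) = p := by
  have hp' : 0 < sr p + p.1.re := hp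
  have h0 : 0 ≤ p.1.re ^ 2 + p.1.im ^ 2 + p.2 ^ 2 := by positivity
  have h1 : sr p ^ 2 = p.1.re ^ 2 + p.1.im ^ 2 + p.2 ^ 2 := Real.sq_sqrt h0
  have h2 : 0 ≤ sr p := Real.sqrt_nonneg _
  have h3 : 0 < sr p := by
    rcases h2.lt_or_eq with h | h
    · exact h
    · exfalso
      rw [← h] at h1 hp'
      nlinarith [sq_nonneg p.1.im, sq_nonneg p.2, sq_nonneg p.1.re]
  have h4 : (bsi p).1.re ^ 2 + (bsi p).1.im ^ 2 = (sr p - p.1.re) / (sr p + p.1.re) := by
    simp only [bsi]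
    field_simp
    nlinarith
  have h5 : Real.exp (bsi p).2 = sr p := by
    simp only [bsi]
    rw [Real.exp_log h3]
  have h6 : 1 + (sr p - p.1.re) / (sr p + p.1.re) = 2 * sr p / (sr p + p.1.re) := by
    field_simp
    ring
  have h7 : 1 - (sr p - p.1.re) / (sr p + p.1.re) = 2 * p.1.re / (sr p + p.1.re) := by
    field_simp
    ring
  refine Prod.ext (Complex.ext ?_ ?_) ?_
  · change Real.exp (bsi p).2 * ((1 - ((bsi p).1.re ^ 2 + (bsi p).1.im ^ 2)) /
      (1 + ((bsi p).1.re ^ 2 + (bsi p).1.im ^ 2))) = p.1.re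
    rw [h4, h5, h6, h7]
    field_simp
  · change Real.exp (bsi p).2 * (-2 * (bsi p).1.im /
      (1 + ((bsi p).1.re ^ 2 + (bsi p).1.im ^ 2))) = p.1.im
    rw [h4, h5, h6]
    simp only [bsi]
    field_simp
  · change Real.exp (bsi p).2 * (-2 * (bsi p).1.re /
      (1 + ((bsi p).1.re ^ 2 + (bsi p).1.im ^ 2))) = p.2
    rw [h4, h5, h6]
    simp only [bsi]
    field_simp

theorem mem_bsIm_iff (p : ℂ × ℝ) : p ∈ bsIm ↔ ∃ q, p = bs q := by
  constructor
  · intro h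
    exact ⟨bsi p, (bs_bsi h).symm⟩
  · rintro ⟨q, rfl⟩
    exact bs_mem q

theorem sr_continuous : Continuous sr := by
  unfold sr
  fun_prop

theorem bsIm_open : IsOpen bsIm := by
  have h1 : Continuous fun p : ℂ × ℝ => sr p + p.1.re :=
    sr_continuous.add (Complex.continuous_re.comp continuous_fst)
  exact isOpen_lt continuous_const h1

theorem bs_smooth : ContDiff ℝ ∞ bs := by
  have hre : ContDiff ℝ ∞ fun q : ℂ × ℝ => q.1.re := Complex.reCLM.contDiff.comp contDiff_fst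
  have him : ContDiff ℝ ∞ fun q : ℂ × ℝ => q.1.im := Complex.imCLM.contDiff.comp contDiff_fst
  have hex : ContDiff ℝ ∞ fun q : ℂ × ℝ => Real.exp q.2 := Real.contDiff_exp.comp contDiff_snd
  have hd : ContDiff ℝ ∞ fun q : ℂ × ℝ => q.1.re ^ 2 + q.1.im ^ 2 := (hre.pow 2).add (him.pow 2)
  have hd1 : ContDiff ℝ ∞ fun q : ℂ × ℝ => (1 + (q.1.re ^ 2 + q.1.im ^ 2))⁻¹ :=
    (contDiff_const.add hd).inv fun q => (den_pos q.1).ne'
  have e1 : ContDiff ℝ ∞ fun q : ℂ × ℝ => Real.exp q.2 *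
      ((1 - (q.1.re ^ 2 + q.1.im ^ 2)) / (1 + (q.1.re ^ 2 + q.1.im ^ 2))) := by
    simp only [div_eq_mul_inv]
    exact hex.mul ((contDiff_const.sub hd).mul hd1)
  have e2 : ContDiff ℝ ∞ fun q : ℂ × ℝ => Real.exp q.2 *
      (-2 * q.1.im / (1 + (q.1.re ^ 2 + q.1.im ^ 2))) := by
    simp only [div_eq_mul_inv]
    exact hex.mul ((contDiff_const.mul him).mul hd1)
  have e3 : ContDiff ℝ ∞ fun q : ℂ × ℝ => Real.exp q.2 *
      (-2 * q.1.re / (1 + (q.1.re ^ 2 + q.1.im ^ 2))) := by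
    simp only [div_eq_mul_inv]
    exact hex.mul ((contDiff_const.mul hre).mul hd1)
  have e4 : ContDiff ℝ ∞ fun q : ℂ × ℝ => (Complex.equivRealProdCLM.symm
      (Real.exp q.2 * ((1 - (q.1.re ^ 2 + q.1.im ^ 2)) / (1 + (q.1.re ^ 2 + q.1.im ^ 2))),
       Real.exp q.2 * (-2 * q.1.im / (1 + (q.1.re ^ 2 + q.1.im ^ 2))))) :=
    Complex.equivRealProdCLM.symm.contDiff.comp (e1.prodMk e2)
  refine ContDiff.prodMk ?_ e3
  convert! e4 using 1

theorem sr_smoothAt {p : ℂ × ℝ} (hp : 0 < sr p) : ContDiffAt ℝ ∞ sr p := by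
  have hre : ContDiff ℝ ∞ fun q : ℂ × ℝ => q.1.re := Complex.reCLM.contDiff.comp contDiff_fst
  have him : ContDiff ℝ ∞ fun q : ℂ × ℝ => q.1.im := Complex.imCLM.contDiff.comp contDiff_fst
  unfold sr
  refine ContDiffAt.sqrt (((hre.pow 2).add (him.pow 2)).add (contDiff_snd.pow 2)).contDiffAt ?_
  intro h
  rw [sr, h, Real.sqrt_zero] at hp
  exact lt_irrefl _ hp

theorem sr_pos_of_mem {p : ℂ × ℝ} (hp : p ∈ bsIm) : 0 < sr p := by
  obtain ⟨q, rfl⟩ := (mem_bsIm_iff p).1 hp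
  rw [sr_bs]
  exact Real.exp_pos _

theorem bsi_smoothAt {p : ℂ × ℝ} (hp : p ∈ bsIm) : ContDiffAt ℝ ∞ bsi p := by
  have hre : ContDiff ℝ ∞ fun q : ℂ × ℝ => q.1.re := Complex.reCLM.contDiff.comp contDiff_fst
  have him : ContDiff ℝ ∞ fun q : ℂ × ℝ => q.1.im := Complex.imCLM.contDiff.comp contDiff_fst
  have hs := sr_smoothAt (sr_pos_of_mem hp)
  have hd : ContDiffAt ℝ ∞ (fun p : ℂ × ℝ => (sr p + p.1.re)⁻¹) p :=
    (hs.add hre.contDiffAt).inv (ne_of_gt hp)
  have e1 : ContDiffAt ℝ ∞ (fun p : ℂ × ℝ => -p.2 / (sr p + p.1.re)) p := by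
    simp only [div_eq_mul_inv]
    exact contDiff_snd.contDiffAt.neg.mul hd
  have e2 : ContDiffAt ℝ ∞ (fun p : ℂ × ℝ => -p.1.im / (sr p + p.1.re)) p := by
    simp only [div_eq_mul_inv]
    exact him.contDiffAt.neg.mul hd
  have e4 : ContDiffAt ℝ ∞ (fun p : ℂ × ℝ => Complex.equivRealProdCLM.symm
      (-p.2 / (sr p + p.1.re), -p.1.im / (sr p + p.1.re))) p :=
    Complex.equivRealProdCLM.symm.contDiff.contDiffAt.comp p (e1.prodMk e2)
  have e5 : ContDiffAt ℝ ∞ (fun p : ℂ × ℝ => Real.log (sr p)) p := hs.log (sr_pos_of_mem hp).ne'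
  exact e4.prodMk e5

theorem bs_axis_iff (q : ℂ × ℝ) : (bs q).1 = 0 ↔ q.1 = 1 ∨ q.1 = -1 := by
  have h1 := den_pos q.1
  have h2 := Real.exp_pos q.2
  constructor
  · intro h
    have hr := congrArg Complex.re h
    have hi := congrArg Complex.im h
    simp only [bs, Complex.zero_re, Complex.zero_im, mul_eq_zero, div_eq_zero_iff, h2.ne', h1.ne',
      false_or, or_false] at hr hi
    have hi' : q.1.im = 0 := by
      rcases hi with h | h
      · norm_num at h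
      · exact h
    rw [hi'] at hr
    have h3 : (q.1.re - 1) * (q.1.re + 1) = 0 := by nlinarith
    rcases mul_eq_zero.1 h3 with h | h
    · left
      apply Complex.ext
      · simpa using sub_eq_zero.1 h
      · simpa using hi'
    · right
      apply Complex.ext
      · simpa using eq_neg_of_add_eq_zero_left h
      · simpa using hi'
  · rintro (h | h) <;> rw [bs, h] <;> apply Complex.ext <;> simp

theorem bs_one (s : ℝ) : bs (1, s) = (0, -Real.exp s) := by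
  refine Prod.ext (Complex.ext ?_ ?_) ?_
  · simp [bs]
  · simp [bs]
  · simp only [bs, Complex.one_re, Complex.one_im]
    norm_num

theorem bs_neg_one (s : ℝ) : bs (-1, s) = (0, Real.exp s) := by
  refine Prod.ext (Complex.ext ?_ ?_) ?_
  · simp [bs]
  · simp [bs]
  · simp only [bs, Complex.neg_re, Complex.neg_im, Complex.one_re, Complex.one_im]
    norm_num

theorem bs_real (u : ℝ) :
    bs ((u : ℂ), 0) = ((((1 - u ^ 2) / (1 + u ^ 2) : ℝ) : ℂ), -2 * u / (1 + u ^ 2)) := by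
  refine Prod.ext (Complex.ext ?_ ?_) ?_
  · rw [Complex.ofReal_re]
    simp only [bs, Complex.ofReal_re, Complex.ofReal_im, Real.exp_zero]
    norm_num
  · rw [Complex.ofReal_im]
    simp only [bs, Complex.ofReal_re, Complex.ofReal_im, Real.exp_zero]
    norm_num
  · simp only [bs, Complex.ofReal_re, Complex.ofReal_im, Real.exp_zero]
    norm_num

end Pool.Agent.KNF
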