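import Pool.Agent.KNT.EngI
import Pool.Agent.KNT.KnB
import Pool.Agent.KNF.Sph

/-!
# KNF/Defs: block F, definitions

`be (x, ξ)`: coordinates around the half circle `g0 x = be (x, 0)`, `g0 0 = (0, -1)`, `g0 1 = (0, 1)`;
`ξ = s + i v`, `s` radial, `v` in the direction of the rotation around the axis.
The axis `U` is `x = 0` or `x = 1`, `v = 0`.

`mo w e (x, y) = be (x, e y w (x))`: strip with core `g0` in the direction `w (x) ∈ ℂ - 0` (`w 0` real, `w 1` not real).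

`om m σ x = e^{iπ m Sa (x)} (1 + i σ Sb (x))`: the standard directions (`σ = 1` or `-1`).

`T d m e (z, s)`: thin chart around the half circle; `U` is `z = 1` and `z = -1`.
-/

open scoped ContDiff Topology
open Set Filter
open Complex (I)
open Pool.Agent.CSG (stp)
open Pool.Agent.RSG (ex)
open Pool.Agent.KNT

namespace Pool.Agent.KNF

/-- coordinates around the half circle -/
noncomputable def be (q : ℝ × ℂ) : ℂ × ℝ := bs (⟨1 - 2 * q.1, q.2.im⟩, q.2.re)

/-- the standard core -/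
noncomputable def g0 (x : ℝ) : ℂ × ℝ := be (x, 0)

/-- the transversal direction `w` -/
noncomputable def kk (w : ℝ → ℂ) (x : ℝ) : ℂ × ℝ := fderiv ℝ be (x, 0) (0, w x)

/-- the model strip -/
noncomputable def mo (w : ℝ → ℂ) (e : ℝ) (q : ℝ × ℝ) : ℂ × ℝ := be (q.1, ((e * q.2 : ℝ) : ℂ) * w q.1)

/-- admissible directions -/
structure Om (t : ℝ) (w : ℝ → ℂ) : Prop where
  smooth : ContDiff ℝ ∞ w
  ne : ∀ x ∈ Icc 0 (1 + t), w x ≠ 0
  foot : (w 0).im = 0
  tip : (w 1).im ≠ 0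

noncomputable def Sa (x : ℝ) : ℝ := stp (1 / 4) (1 / 2) x
noncomputable def Sb (x : ℝ) : ℝ := stp (1 / 2) (3 / 4) x

/-- the standard directions (`σ = 1` or `-1`) -/
noncomputable def om (m : ℤ) (σ : ℝ) (x : ℝ) : ℂ :=
  Complex.exp ((Real.pi * m * Sa x : ℝ) * I) * (1 + ((σ * Sb x : ℝ) : ℂ) * I)

/-- `x` as a function of the chart coordinate `a = Re z`; `xx d 1 = 0`, `xx d (-1) = 1` -/
noncomputable def xx (d a : ℝ) : ℝ := (1 - d * a / Real.sqrt (a ^ 2 + (d ^ 2 - 1))) / 2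

/-- the inverse function of `xx d`, for `|1 - 2 x| < d` -/
noncomputable def ka (d x : ℝ) : ℝ :=
  (1 - 2 * x) * Real.sqrt (d ^ 2 - 1) / Real.sqrt (d ^ 2 - (1 - 2 * x) ^ 2)

/-- the thin twisted chart -/
noncomputable def T (d : ℝ) (m : ℤ) (e : ℝ) (q : ℂ × ℝ) : ℂ × ℝ :=
  be (xx d q.1.re, (e : ℂ) * Complex.exp ((Real.pi * m * Sa (xx d q.1.re) : ℝ) * I) * ⟨q.2, q.1.im⟩)

/-- a chart where the axis is `z = 1` or `z = -1` -/
structure TCh (T : ℂ × ℝ → ℂ × ℝ) : Prop where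
  smooth : ContDiff ℝ ∞ T
  inj : Function.Injective T
  imm : ∀ q, Function.Injective (fderiv ℝ T q)
  axis : ∀ q, (T q).1 = 0 ↔ q.1 = 1 ∨ q.1 = -1

/-- `z + 1` for the finger in the chart `T` -/
noncomputable def ww (d t y : ℝ) : ℂ := ⟨1 + ka d (prf t y), Sb (prf t y) * y⟩

end Pool.Agent.KNF
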