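import Pool.Agent.KNF.Be

/-!
# KNF/Fam: families of directions

PROOFS.
* `dat_kk`: `smg`: `g0_smooth`. `smk`: `x ↦ fderiv be (x, 0) (0, w x)`, `be_smooth` (`ContDiff.fderiv_right`, `clm_apply`).
  `inj`: `be_inj`. `off`: `be_axis`. `imm`: `g0_deriv`, `be_imm`, and `(1, 0)`, `(0, w x)` are independent. `base`:
  `be_fd_zero`, `(w 0).im = 0`. `tip`: `be_fd_one`: the vectors are `⟨-2, 0⟩` and `⟨0, - (w 1).im⟩`.
* `gd_kk`: `Gd_fam` with `g l = g0`, `k l = kk (w l)`.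
* `gd_smul`: from the definition of `Gd` (`nrm Φ x = c' • c • k x`).
-/

open scoped ContDiff Topology
open Set Filter
open Complex (I)
open Pool.Agent.CSG (stp)
open Pool.Agent.RSG (ex)
open Pool.Agent.KNT

namespace Pool.Agent.KNF

theorem kk_smooth {w : ℝ → ℝ → ℂ} (hs : ContDiff ℝ ∞ fun p : ℝ × ℝ => w p.1 p.2) :
    ContDiff ℝ ∞ fun p : ℝ × ℝ => kk (w p.1) p.2 := by
  have h1 : ContDiff ℝ ∞ (fderiv ℝ be) := be_smooth.fderiv_right (m := ∞) (by simp)
  have h2 : ContDiff ℝ ∞ fun p : ℝ × ℝ => fderiv ℝ be ((p.2, 0) : ℝ × ℂ) :=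
    h1.comp (contDiff_snd.prodMk contDiff_const)
  exact h2.clm_apply (contDiff_const.prodMk hs)

theorem kk_smooth1 {w : ℝ → ℂ} (hs : ContDiff ℝ ∞ w) : ContDiff ℝ ∞ (kk w) := by
  have h1 : ContDiff ℝ ∞ (fderiv ℝ be) := be_smooth.fderiv_right (m := ∞) (by simp)
  have h2 : ContDiff ℝ ∞ fun x : ℝ => fderiv ℝ be ((x, 0) : ℝ × ℂ) :=
    h1.comp (contDiff_id.prodMk contDiff_const)
  exact h2.clm_apply (contDiff_const.prodMk hs)

theorem dat_kk {Λ : Set (ℂ × ℝ)} {t : ℝ} {w : ℝ → ℂ} (ht : 0 < t) (h : Om t w)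
    (ha : ∀ x ∈ Icc 0 (1 + t), g0 x ∉ Λ) : Dat Λ t g0 (kk w) where
  pos := ht
  smg := g0_smooth
  smk := kk_smooth1 h.smooth
  inj := by
    intro x _ y _ hxy
    have h1 : ((x, 0) : ℝ × ℂ) = (y, 0) := be_inj hxy
    exact congrArg Prod.fst h1
  off := by
    intro x _
    have h1 := be_axis ((x, 0) : ℝ × ℂ)
    simpa [g0] using h1
  imm := by
    intro x hx
    rw [LinearIndependent.pair_iff]
    intro s r hsr
    rw [g0_deriv] at hsr
    have h1 : fderiv ℝ be (x, 0) ((s, (r : ℂ) * w x) : ℝ × ℂ) = fderiv ℝ be (x, 0) 0 := by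
      rw [map_zero, ← hsr, kk, ← map_smul, ← map_smul, ← map_add]
      congr 1
      simp
    have h2 := be_imm _ h1
    have h3 : s = 0 := congrArg Prod.fst h2
    have h4 : (r : ℂ) * w x = 0 := congrArg Prod.snd h2
    refine ⟨h3, ?_⟩
    rcases mul_eq_zero.1 h4 with h5 | h5
    · exact_mod_cast h5
    · exact absurd h5 (h.ne x hx)
  base := by
    rw [kk, be_fd_zero, h.foot]
    simp [Complex.ext_iff]
  tip := by
    rw [LinearIndependent.pair_iff]
    intro s r hsr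
    rw [g0_deriv, kk, be_fd_one, be_fd_one] at hsr
    have h1 := congrArg Complex.re hsr
    have h2 := congrArg Complex.im hsr
    simp at h1 h2
    exact ⟨h1, h2.resolve_right h.tip⟩
  avoid := ha

theorem gd_kk {L : SL} {t : ℝ} {w : ℝ → ℝ → ℂ} (ht : 0 < t)
    (hs : ContDiff ℝ ∞ fun p : ℝ × ℝ => w p.1 p.2) (h : ∀ l ∈ Icc (0 : ℝ) 1, Om t (w l))
    (h0 : ∀ l ∈ Icc (0 : ℝ) 1, w l 0 = w 0 0) (ha : ∀ x ∈ Icc 0 (1 + t), g0 x ∉ Sp L)
    (H : Gd L t g0 (kk (w 1))) : Gd L t g0 (kk (w 0)) := by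
  have h1 : DatFam (Sp L) t (fun _ => g0) (fun l => kk (w l)) :=
    { smg := g0_smooth.comp contDiff_snd
      smk := kk_smooth hs
      dat := fun l hl => dat_kk ht (h l hl) ha
      foot := fun l _ => rfl
      footk := by
        intro l hl
        simp only [kk]
        rw [h0 l hl] }
  exact Gd_fam h1 H

theorem gd_smul {L : SL} {t c : ℝ} {g k : ℝ → ℂ × ℝ} (hc : 0 < c) (H : Gd L t g k) :
    Gd L t g (fun x => c • k x) := by
  intro Φ c' hc' hconf hcore hn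
  refine H Φ (c' * c) (mul_pos hc' hc) hconf hcore ?_
  intro x hx
  rw [hn x hx, smul_smul]

end Pool.Agent.KNF
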