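import Pool.Agent.KNF.Defs
import Pool.Agent.ISO.Fam
import Pool.Agent.CSG.LDb

/-!
# KNF/Lev: level preserving isotopy of two strands

PROOF. `ISO.core_fam` with `Λ = ⊥` (`Lat ⊥` is clear), parameter space `F = ℝ`, `J = [-1, 1] ∪ [3, 5]`,
`J₁ = [-1/2, 1/2] ∪ [7/2, 9/2]`, `U = {y | y ≠ 2}`, `O = T '' {q | ‖q.1‖ < N ∧ |q.2| < 1}` (open: `T` is an open map, its
derivative is bijective, e.g. `CSG.ld_of_fderiv` or `HasStrictFDerivAt.map_nhds_eq_of_equiv`) and, for `l ∈ [0, 1]`,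
`B l y = (1 - l) b₀ y + l b₁ y`, `G l y = (1 - l) l₀ y + l l₁ y`,
`k l y = T (B l y + exp (G l y), y)` for `y < 2`, `T (B l (y - 4), y - 4)` for `y > 2` (`if y < 2 then .. else ..`).
* smooth near `y ≠ 2`: one formula holds near `y`.
* `hend`: for `1/2 < |s| ≤ 1` `b₀ = b₁`, `l₀ = l₁`.
* `hkO`: `‖B l‖ ≤ (1 - l) ‖b₀‖ + l ‖b₁‖`, `‖exp (G l)‖ = exp (Re) ≤ (1 - l) ‖exp l₀‖ + l ‖exp l₁‖` (convexity of `exp`).
* `himm`: the derivative of `k l` is `fderiv T (c', 1) ≠ 0`.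
* `hinj`: `T` is injective: the second coordinates agree; `exp ≠ 0`.
`CD` from `Move ⊥ O` (`x + 0 ∈ C`).
-/

open scoped ContDiff Topology
open Set Filter
open Complex (I)
open Pool.Agent.CSG (stp)
open Pool.Agent.RSG (ex)
open Pool.Agent.KNT

namespace Pool.Agent.KNF

/-- linear interpolation -/
noncomputable def Lev_B (f g : ℝ → ℂ) (q : ℝ × ℝ) : ℂ := ((1 - q.1 : ℝ) : ℂ) * f q.2 + (q.1 : ℂ) * g q.2

theorem Lev_B_smooth {f g : ℝ → ℂ} (hf : ContDiff ℝ ∞ f) (hg : ContDiff ℝ ∞ g) : ContDiff ℝ ∞ (Lev_B f g) := by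
  have h1 : ContDiff ℝ ∞ fun q : ℝ × ℝ => ((1 - q.1 : ℝ) : ℂ) :=
    Complex.ofRealCLM.contDiff.comp (contDiff_const.sub contDiff_fst)
  have h2 : ContDiff ℝ ∞ fun q : ℝ × ℝ => (q.1 : ℂ) := Complex.ofRealCLM.contDiff.comp contDiff_fst
  exact (h1.mul (hf.comp contDiff_snd)).add (h2.mul (hg.comp contDiff_snd))

theorem Lev_B_norm {f g : ℝ → ℂ} {l : ℝ} (hl : l ∈ Icc (0 : ℝ) 1) (s : ℝ) :
    ‖Lev_B f g (l, s)‖ ≤ (1 - l) * ‖f s‖ + l * ‖g s‖ := by
  unfold Lev_B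
  refine (norm_add_le _ _).trans ?_
  rw [norm_mul, norm_mul, Complex.norm_real, Complex.norm_real, Real.norm_of_nonneg hl.1,
    Real.norm_of_nonneg (sub_nonneg.2 hl.2)]

theorem Lev_exp_norm {f g : ℝ → ℂ} {l : ℝ} (hl : l ∈ Icc (0 : ℝ) 1) (s : ℝ) :
    ‖Complex.exp (Lev_B f g (l, s))‖ ≤ (1 - l) * ‖Complex.exp (f s)‖ + l * ‖Complex.exp (g s)‖ := by
  rw [Complex.norm_exp, Complex.norm_exp, Complex.norm_exp]
  have h1 : (Lev_B f g (l, s)).re = (1 - l) * (f s).re + l * (g s).re := by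
    unfold Lev_B
    simp only [Complex.add_re, Complex.re_ofReal_mul]
  rw [h1]
  have := convexOn_exp.2 (mem_univ (f s).re) (mem_univ (g s).re) (sub_nonneg.2 hl.2) hl.1 (by ring)
  simpa [smul_eq_mul] using this

theorem Lev_B_eq {f g : ℝ → ℂ} {s : ℝ} (h : f s = g s) (l : ℝ) : Lev_B f g (l, s) = f s := by
  unfold Lev_B
  simp only [← h]
  push_cast
  ring

theorem Lev_B_zero {f g : ℝ → ℂ} (s : ℝ) : Lev_B f g (0, s) = f s := by
  simp [Lev_B]

theorem Lev_B_one {f g : ℝ → ℂ} (s : ℝ) : Lev_B f g (1, s) = g s := by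
  simp [Lev_B]

theorem Lev_open {T : ℂ × ℝ → ℂ × ℝ} (hT : TCh T) {W : Set (ℂ × ℝ)} (hW : IsOpen W) : IsOpen (T '' W) := by
  rw [isOpen_iff_mem_nhds]
  rintro _ ⟨x, hx, rfl⟩
  have h1 := CSG.ld_of_fderiv (f := T) (x := x) (Filter.Eventually.of_forall fun y => hT.smooth.contDiffAt) rfl
    (fun v hv => hT.imm x (by rw [hv, map_zero]))
  exact CSG.ld_image_nhds h1 (hW.mem_nhds hx)

/-- the immersion condition -/
theorem Lev_imm {T : ℂ × ℝ → ℂ × ℝ} (hT : TCh T) {c : ℝ → ℂ} {a y v : ℝ} (hc : DifferentiableAt ℝ c y)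
    {k : ℝ → ℂ × ℝ} (hk : k =ᶠ[𝓝 y] fun y => T (c y, y - a)) (hv : fderiv ℝ k y v = 0) : v = 0 := by
  rw [hk.fderiv_eq] at hv
  have h1 : HasFDerivAt (fun y : ℝ => (c y, y - a)) ((fderiv ℝ c y).prod (ContinuousLinearMap.id ℝ ℝ)) y :=
    hc.hasFDerivAt.prodMk ((hasFDerivAt_id y).sub_const a)
  have h2 : HasFDerivAt T (fderiv ℝ T (c y, y - a)) (c y, y - a) :=
    (hT.smooth.differentiable (by simp) _).hasFDerivAt
  have h3 : HasFDerivAt (fun y => T (c y, y - a))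
      ((fderiv ℝ T (c y, y - a)).comp ((fderiv ℝ c y).prod (ContinuousLinearMap.id ℝ ℝ))) y := h2.comp y h1
  rw [h3.fderiv] at hv
  have h4 : fderiv ℝ T (c y, y - a) (fderiv ℝ c y v, v) = fderiv ℝ T (c y, y - a) 0 := by
    rw [map_zero]
    exact hv
  have h5 := hT.imm _ h4
  exact congrArg Prod.snd h5

theorem level {T : ℂ × ℝ → ℂ × ℝ} (hT : TCh T) {N : ℝ} {b₀ b₁ l₀ l₁ : ℝ → ℂ} (hb₀ : ContDiff ℝ ∞ b₀)
    (hb₁ : ContDiff ℝ ∞ b₁) (hl₀ : ContDiff ℝ ∞ l₀) (hl₁ : ContDiff ℝ ∞ l₁)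
    (hend : ∀ s : ℝ, 1 / 4 ≤ |s| → |s| ≤ 1 → b₀ s = b₁ s ∧ l₀ s = l₁ s)
    (hN₀ : ∀ s : ℝ, |s| ≤ 1 → ‖b₀ s‖ + ‖Complex.exp (l₀ s)‖ < N)
    (hN₁ : ∀ s : ℝ, |s| ≤ 1 → ‖b₁ s‖ + ‖Complex.exp (l₁ s)‖ < N) :
    ∃ F : Equiv.Perm (ℂ × ℝ), CD (T '' {q | ‖q.1‖ < N ∧ |q.2| < 1}) F ∧
      (∀ s : ℝ, |s| ≤ 1 → F (T (b₀ s + Complex.exp (l₀ s), s)) = T (b₁ s + Complex.exp (l₁ s), s)) ∧
      ∀ s : ℝ, |s| ≤ 1 → F (T (b₀ s, s)) = T (b₁ s, s) := by
  have hBs := Lev_B_smooth hb₀ hb₁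
  have hGs := Lev_B_smooth hl₀ hl₁
  have hc1 : ContDiff ℝ ∞ fun q : ℝ × ℝ => Lev_B b₀ b₁ q + Complex.exp (Lev_B l₀ l₁ q) :=
    hBs.add (Complex.contDiff_exp.comp hGs)
  let k : ℝ → ℝ → ℂ × ℝ := fun l y =>
    if y < 2 then T (Lev_B b₀ b₁ (l, y) + Complex.exp (Lev_B l₀ l₁ (l, y)), y)
    else T (Lev_B b₀ b₁ (l, y - 4), y - 4)
  have hk1 : ∀ l y, y < 2 → k l y = T (Lev_B b₀ b₁ (l, y) + Complex.exp (Lev_B l₀ l₁ (l, y)), y) :=
    fun l y h => if_pos h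
  have hk2 : ∀ l y, 2 < y → k l y = T (Lev_B b₀ b₁ (l, y - 4), y - 4) :=
    fun l y h => if_neg (by linarith)
  have hW : IsOpen {q : ℂ × ℝ | ‖q.1‖ < N ∧ |q.2| < 1} := by
    refine IsOpen.inter ?_ ?_
    · exact isOpen_lt (continuous_fst.norm) continuous_const
    · exact isOpen_lt (continuous_abs.comp continuous_snd) continuous_const
  have hLat : ISO.Lat (⊥ : AddSubgroup (ℂ × ℝ)) := by
    intro R
    refine (Set.finite_singleton (0 : ℂ × ℝ)).subset ?_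
    rintro m ⟨hm, -⟩
    exact (AddSubgroup.mem_bot.1 hm)
  have hNl : ∀ l ∈ Icc (0 : ℝ) 1, ∀ s, |s| ≤ 1 →
      ‖Lev_B b₀ b₁ (l, s)‖ + ‖Complex.exp (Lev_B l₀ l₁ (l, s))‖ < N := by
    intro l hl s hs
    have h1 := Lev_B_norm (f := b₀) (g := b₁) hl s
    have h2 := Lev_exp_norm (f := l₀) (g := l₁) hl s
    have h3 := hN₀ s hs
    have h4 := hN₁ s hs
    rcases hl.1.lt_or_eq with h5 | h5
    · have h6 : (1 - l) * (‖b₀ s‖ + ‖Complex.exp (l₀ s)‖) ≤ (1 - l) * N :=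
        mul_le_mul_of_nonneg_left h3.le (sub_nonneg.2 hl.2)
      have h7 : l * (‖b₁ s‖ + ‖Complex.exp (l₁ s)‖) < l * N := mul_lt_mul_of_pos_left h4 h5
      nlinarith
    · subst h5
      nlinarith
  have hJ1 : ∀ y ∈ Icc (-1 : ℝ) 1 ∪ Icc 3 5, y < 2 → |y| ≤ 1 := by
    rintro y (hy | hy) h
    · exact abs_le.2 hy
    · exact absurd hy.1 (by linarith)
  have hJ2 : ∀ y ∈ Icc (-1 : ℝ) 1 ∪ Icc 3 5, 2 < y → |y - 4| ≤ 1 := by
    rintro y (hy | hy) h
    · exact absurd hy.2 (by linarith)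
    · exact abs_le.2 ⟨by linarith [hy.1], by linarith [hy.2]⟩
  have hJne : ∀ y ∈ Icc (-1 : ℝ) 1 ∪ Icc 3 5, y < 2 ∨ 2 < y := by
    rintro y (hy | hy)
    · left; linarith [hy.2]
    · right; linarith [hy.1]
  obtain ⟨F, hF, hFk⟩ := ISO.core_fam (F := ℝ) hLat (O := T '' {q | ‖q.1‖ < N ∧ |q.2| < 1}) (Lev_open hT hW) (k := k)
    (U := {y : ℝ | y ≠ 2}) (J := Icc (-1) 1 ∪ Icc 3 5) (J₁ := Icc (-(1 / 2)) (1 / 2) ∪ Icc (7 / 2) (9 / 2))
    isOpen_ne (isCompact_Icc.union isCompact_Icc)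
    (by
      intro y hy
      rcases hJne y hy with h | h
      · exact h.ne
      · exact h.ne')
    (isCompact_Icc.union isCompact_Icc)
    (by
      refine union_subset_union (Icc_subset_Icc ?_ ?_) (Icc_subset_Icc ?_ ?_) <;> norm_num)
    (by
      intro s _ y hy
      rcases lt_or_gt_of_ne hy with h | h
      · have h1 : (fun q : ℝ × ℝ => k q.1 q.2) =ᶠ[𝓝 (s, y)]
            fun q => T (Lev_B b₀ b₁ q + Complex.exp (Lev_B l₀ l₁ q), q.2) := by
          have : ∀ᶠ q : ℝ × ℝ in 𝓝 (s, y), q.2 < 2 := (isOpen_lt continuous_snd continuous_const).mem_nhds h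
          filter_upwards [this] with q hq
          exact hk1 q.1 q.2 hq
        refine ContDiffAt.congr_of_eventuallyEq ?_ h1
        exact (hT.smooth.comp (hc1.prodMk contDiff_snd)).contDiffAt
      · have h1 : (fun q : ℝ × ℝ => k q.1 q.2) =ᶠ[𝓝 (s, y)]
            fun q => T (Lev_B b₀ b₁ (q.1, q.2 - 4), q.2 - 4) := by
          have : ∀ᶠ q : ℝ × ℝ in 𝓝 (s, y), 2 < q.2 := (isOpen_lt continuous_const continuous_snd).mem_nhds h
          filter_upwards [this] with q hq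
          exact hk2 q.1 q.2 hq
        refine ContDiffAt.congr_of_eventuallyEq ?_ h1
        have h2 : ContDiff ℝ ∞ fun q : ℝ × ℝ => (q.1, q.2 - 4) :=
          contDiff_fst.prodMk (contDiff_snd.sub contDiff_const)
        exact (hT.smooth.comp ((hBs.comp h2).prodMk (contDiff_snd.sub contDiff_const))).contDiffAt)
    (by
      intro s _ y hy hy1
      rcases hJne y hy with h | h
      · have h3 : 1 / 4 ≤ |y| := by
          by_contra h4
          push Not at h4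
          have := abs_lt.1 h4
          exact hy1 (Or.inl ⟨by linarith [this.1], by linarith [this.2]⟩)
        obtain ⟨e1, e2⟩ := hend y h3 (hJ1 y hy h)
        rw [hk1 s y h, hk1 0 y h, Lev_B_eq e1, Lev_B_eq e1, Lev_B_eq e2, Lev_B_eq e2]
      · have h3 : 1 / 4 ≤ |y - 4| := by
          by_contra h4
          push Not at h4
          have := abs_lt.1 h4
          exact hy1 (Or.inr ⟨by linarith [this.1], by linarith [this.2]⟩)
        obtain ⟨e1, e2⟩ := hend (y - 4) h3 (hJ2 y hy h)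
        rw [hk2 s y h, hk2 0 y h, Lev_B_eq e1, Lev_B_eq e1])
    (by
      intro s hs y hy
      rcases hy with hy | hy
      · have h : y < 2 := by linarith [hy.2]
        have h2 : |y| < 1 := abs_lt.2 ⟨by linarith [hy.1], by linarith [hy.2]⟩
        rw [hk1 s y h]
        exact ⟨_, ⟨(norm_add_le _ _).trans_lt (hNl s hs y h2.le), h2⟩, rfl⟩
      · have h : 2 < y := by linarith [hy.1]
        have h2 : |y - 4| < 1 := abs_lt.2 ⟨by linarith [hy.1], by linarith [hy.2]⟩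
        rw [hk2 s y h]
        refine ⟨_, ⟨?_, h2⟩, rfl⟩
        have := hNl s hs (y - 4) h2.le
        have h3 := norm_nonneg (Complex.exp (Lev_B l₀ l₁ (s, y - 4)))
        show ‖Lev_B b₀ b₁ (s, y - 4)‖ < N
        linarith)
    (by
      intro s _ y hy v hv
      have hsy : ContDiff ℝ ∞ fun y : ℝ => ((s, y) : ℝ × ℝ) := contDiff_const.prodMk contDiff_id
      have hsy4 : ContDiff ℝ ∞ fun y : ℝ => ((s, y - 4) : ℝ × ℝ) :=
        contDiff_const.prodMk (contDiff_id.sub contDiff_const)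
      rcases hJne y hy with h | h
      · refine Lev_imm hT (c := fun y => Lev_B b₀ b₁ (s, y) + Complex.exp (Lev_B l₀ l₁ (s, y))) (a := 0)
          ((hc1.comp hsy).differentiable (by simp) y) ?_ hv
        filter_upwards [Iio_mem_nhds h] with z hz
        rw [sub_zero]
        exact hk1 s z hz
      · refine Lev_imm hT (c := fun y => Lev_B b₀ b₁ (s, y - 4)) (a := 4)
          ((hBs.comp hsy4).differentiable (by simp) y) ?_ hv
        filter_upwards [Ioi_mem_nhds h] with z hz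
        exact hk2 s z hz)
    (by
      intro s _ y hy y' hy' m hm he
      rw [AddSubgroup.mem_bot.1 hm, add_zero] at he
      rcases hJne y hy with h | h <;> rcases hJne y' hy' with h' | h'
      · rw [hk1 s y h, hk1 s y' h'] at he
        exact congrArg Prod.snd (hT.inj he)
      · rw [hk1 s y h, hk2 s y' h'] at he
        have e1 := hT.inj he
        have e2 : y = y' - 4 := congrArg Prod.snd e1
        have e3 : Lev_B b₀ b₁ (s, y) + Complex.exp (Lev_B l₀ l₁ (s, y)) = Lev_B b₀ b₁ (s, y' - 4) :=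
          congrArg Prod.fst e1
        rw [← e2] at e3
        exact absurd (add_eq_left.1 e3) (Complex.exp_ne_zero _)
      · rw [hk2 s y h, hk1 s y' h'] at he
        have e1 := hT.inj he
        have e2 : y - 4 = y' := congrArg Prod.snd e1
        have e3 : Lev_B b₀ b₁ (s, y - 4) = Lev_B b₀ b₁ (s, y') + Complex.exp (Lev_B l₀ l₁ (s, y')) :=
          congrArg Prod.fst e1
        rw [e2] at e3
        exact absurd (add_eq_left.1 e3.symm) (Complex.exp_ne_zero _)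
      · rw [hk2 s y h, hk2 s y' h'] at he
        have e2 : y - 4 = y' - 4 := congrArg Prod.snd (hT.inj he)
        linarith)
  obtain ⟨C, hC1, hC2, hC3⟩ := hF.supp
  refine ⟨F, ⟨hF.smooth, hF.smooth_symm, C, hC1, hC2, fun x hx => hC3 x ?_⟩, ?_, ?_⟩
  · intro m hm
    rw [AddSubgroup.mem_bot.1 hm, add_zero]
    exact hx
  · intro s hs
    have hs' := abs_le.1 hs
    have h := hFk s (Or.inl hs')
    rw [hk1 0 s (by linarith [hs'.2]), hk1 1 s (by linarith [hs'.2]), Lev_B_zero, Lev_B_zero, Lev_B_one,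
      Lev_B_one] at h
    exact h
  · intro s hs
    have hs' := abs_le.1 hs
    have h := hFk (s + 4) (Or.inr ⟨by linarith [hs'.1], by linarith [hs'.2]⟩)
    rw [hk2 0 (s + 4) (by linarith [hs'.1]), hk2 1 (s + 4) (by linarith [hs'.1]), Lev_B_zero,
      Lev_B_one, add_sub_cancel_right] at h
    exact h

end Pool.Agent.KNF
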