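import Pool.Agent.KNF.FouA
import Pool.Agent.KNF.Lev

/-!
# KNF/Fou (`fou_set` is in FouA): one `four` move changes `om m 1` into `om m (-1)`

PROOF. Write `T = T d m e`, `w = ww d t` (`‖w y‖ ≤ B`), `Φ₊ = mo (om m 1) e`, `Φ₋ = mo (om m (-1)) e`,
`z₊ = w - 1`, `z₋ = conj w - 1`.  `O = T '' {q | ‖q.1‖ < N ∧ |q.2| < 1}`.
`Z = ((U \ Bs L) \ T '' {q | |q.2| < 1}) ∪ Fg L`.
* `fou_set`: `Kn ((t, Φ±) :: L) = Z ∪ T '' {(z± s, s), |s| < 1} ∪ T '' {(-1, s), |s| < 1}`: by `T_mo` (with `x = prf t y`)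
  the finger is `{T (z± y, y) : |y| ≤ 1}`; `U ∩ T '' {|s| < 1} = T {(1, s)} ∪ T {(-1, s)}` (`axis`); `T (1, s) = Φ± (0, s)`
  (`T_mo` with `x = 0`, `ka_zero`), so `bas Φ± = T {(1, s) : |s| < 1}`; `T (-1, s) ∉ Bs L ⊆ Sp L` (`havoid`; `Bs L ⊆ Sp L`
  because `(0, y) ∈ Rec`); the ends `s = ±1` of the finger are `T (1, ±1)`, in `U`, not in `T '' {|s| < 1}`, not in `Bs L`.
* `four` with `b (z, s) = T (w s / 2 - 1 + z (w s / 2), s)`: `b (1, s) = T (z₊ s, s)`, `b (-1, s) = T (-1, s)`. `BalC b`: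
  `(z, s) ↦ (w s / 2 - 1 + z (w s / 2), s)` is smooth, injective with injective derivative (`w ≠ 0`, `ww_log`).
  `Disjoint Z (b '' Dom)`: `b '' Dom ⊆ O` since `‖..‖ ≤ 5 B / 2 + 1 < N`; `O ∩ Z = ∅` (`havoid`, `Fg_sub`).
  So `Kn ((t, Φ₊) :: L)` is equivalent to `Z ∪ b '' Str2`, and
  `b '' Str2 = T {(b₀ s + ex (2 gs s) w s, s)} ∪ T {(b₀ s, s)}` with `b₀ s = w s / 2 - 1 - ex (2 gs s) (w s / 2)`.
* `level` with `b₀`, `l₀ s = lm s + 4π (gs s) I`, `b₁ = -1`, `l₁ s = conj (lm s)`, `lm` from `ww_log`. `hend`: for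
  `s ≤ -1/4` `gs s = 0`, `lm s` is real; for `s ≥ 1/4` `gs s = 1`, `lm s + 4π I = log 2 + 2π I = conj (lm s)`,
  `ex 2 = 1`. Bounds: `‖b₀‖ + ‖exp l₀‖ ≤ B + 1 + B`. `F` is the identity on `Z`, so `F '' (Z ∪ b '' Str2) = Kn ((t, Φ₋) :: L)`
  (`z₋ + 1 = conj w = exp (l₁)`). `LEq.diff` (`CD O F → CD univ F`).
-/

open scoped ContDiff Topology
open Set Filter
open Complex (I)
open Pool.Agent.CSG (stp)
open Pool.Agent.RSG (ex)
open Pool.Agent.KNT

namespace Pool.Agent.KNF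

/-- the affine coordinates -/
noncomputable def FouH (w : ℝ → ℂ) (q : ℂ × ℝ) : ℂ × ℝ := (w q.2 / 2 - 1 + q.1 * (w q.2 / 2), q.2)

theorem Fou_gs_lo {s : ℝ} (h : s ≤ -(1 / 8)) : gs s = 0 := CSG.stp_zero (by norm_num) h
theorem Fou_gs_hi {s : ℝ} (h : 1 / 16 ≤ s) : gs s = 1 := CSG.stp_one (by norm_num) h

theorem Fou_ex0 : ex (2 * 0) = 1 := by unfold ex; simp

theorem Fou_ex1 : ex (2 * 1) = 1 := by
  unfold ex
  have e : ((2 * Real.pi * (2 * 1) : ℝ) : ℂ) * I = ((2 : ℤ) : ℂ) * (2 * Real.pi * I) := by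
    push_cast; ring
  rw [e]
  exact Complex.exp_int_mul_two_pi_mul_I 2

theorem Fou_ex_norm (x : ℝ) : ‖ex x‖ = 1 := by
  unfold ex
  rw [Complex.norm_exp]
  simp

theorem Fou_ex_smooth : ContDiff ℝ ∞ ex := by
  unfold ex
  have h1 : ContDiff ℝ ∞ fun x : ℝ => ((2 * Real.pi * x : ℝ) : ℂ) :=
    Complex.ofRealCLM.contDiff.comp (contDiff_const.mul contDiff_id)
  exact (h1.mul contDiff_const).cexp

theorem Fou_gs_smooth : ContDiff ℝ ∞ gs := CSG.stp_smooth _ _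

theorem Fou_conj_smooth : ContDiff ℝ ∞ fun z : ℂ => (starRingEnd ℂ) z := Complex.conjCLE.contDiff

/-- left inverse of `FouH` -/
noncomputable def FouK (w lm : ℝ → ℂ) (q : ℂ × ℝ) : ℂ × ℝ :=
  ((q.1 + 1 - w q.2 / 2) * (2 * Complex.exp (-lm q.2)), q.2)

theorem Fou_left {w lm : ℝ → ℂ} (h : ∀ y, Complex.exp (lm y) = w y) (q : ℂ × ℝ) :
    FouK w lm (FouH w q) = q := by
  unfold FouK FouH
  refine Prod.ext ?_ rfl
  simp only
  have h1 : w q.2 * Complex.exp (-lm q.2) = 1 := by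
    rw [← h, ← Complex.exp_add, add_neg_cancel, Complex.exp_zero]
  calc (w q.2 / 2 - 1 + q.1 * (w q.2 / 2) + 1 - w q.2 / 2) * (2 * Complex.exp (-lm q.2))
      = q.1 * (w q.2 * Complex.exp (-lm q.2)) := by ring
    _ = q.1 := by rw [h1, mul_one]

theorem Fou_H_smooth {w : ℝ → ℂ} (hw : ContDiff ℝ ∞ w) : ContDiff ℝ ∞ (FouH w) := by
  unfold FouH
  have h1 : ContDiff ℝ ∞ fun q : ℂ × ℝ => w q.2 := hw.comp contDiff_snd
  exact (((h1.div_const 2).sub contDiff_const).add (contDiff_fst.mul (h1.div_const 2))).prodMk contDiff_snd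

theorem Fou_K_smooth {w lm : ℝ → ℂ} (hw : ContDiff ℝ ∞ w) (hl : ContDiff ℝ ∞ lm) :
    ContDiff ℝ ∞ (FouK w lm) := by
  unfold FouK
  have h1 : ContDiff ℝ ∞ fun q : ℂ × ℝ => w q.2 := hw.comp contDiff_snd
  have h2 : ContDiff ℝ ∞ fun q : ℂ × ℝ => lm q.2 := hl.comp contDiff_snd
  exact (((contDiff_fst.add contDiff_const).sub (h1.div_const 2)).mul
    (contDiff_const.mul h2.neg.cexp)).prodMk contDiff_snd

theorem Fou_H_imm {w lm : ℝ → ℂ} (hw : ContDiff ℝ ∞ w) (hl : ContDiff ℝ ∞ lm)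
    (h : ∀ y, Complex.exp (lm y) = w y) (q : ℂ × ℝ) : Function.Injective (fderiv ℝ (FouH w) q) := by
  have hn : (∞ : WithTop ℕ∞) ≠ 0 := by simp
  have h1 := ((Fou_K_smooth hw hl).differentiable hn (FouH w q)).hasFDerivAt
  have h2 := ((Fou_H_smooth hw).differentiable hn q).hasFDerivAt
  have h3 := h1.comp q h2
  have h4 : FouK w lm ∘ FouH w = id := by
    funext p
    exact Fou_left h p
  rw [h4] at h3
  have h5 := h3.unique (hasFDerivAt_id q)
  intro v v' hv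
  have h6 := congrArg (fun A : (ℂ × ℝ) →L[ℝ] (ℂ × ℝ) => A v) h5
  have h7 := congrArg (fun A : (ℂ × ℝ) →L[ℝ] (ℂ × ℝ) => A v') h5
  simp only [ContinuousLinearMap.comp_apply, ContinuousLinearMap.id_apply] at h6 h7
  rw [← h6, ← h7, hv]

theorem Fou_balC {T : ℂ × ℝ → ℂ × ℝ} (hT : TCh T) {w lm : ℝ → ℂ} (hw : ContDiff ℝ ∞ w)
    (hl : ContDiff ℝ ∞ lm) (h : ∀ y, Complex.exp (lm y) = w y) : BalC (fun q => T (FouH w q)) := by
  have hn : (∞ : WithTop ℕ∞) ≠ 0 := by simp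
  refine ⟨fun q _ => (hT.smooth.comp (Fou_H_smooth hw)).contDiffAt, ?_, ?_⟩
  · intro q _
    have h1 : fderiv ℝ (fun q => T (FouH w q)) q = (fderiv ℝ T (FouH w q)).comp (fderiv ℝ (FouH w) q) :=
      fderiv_comp q (hT.smooth.differentiable hn _) ((Fou_H_smooth hw).differentiable hn q)
    rw [h1]
    exact (hT.imm _).comp (Fou_H_imm hw hl h q)
  · intro q _ q' _ hq
    have h1 := hT.inj hq
    rw [← Fou_left h q, ← Fou_left h q', h1]

theorem four_step {L : SL} {t d e N B : ℝ} {m : ℤ} (ht : 0 < t) (hd : 1 + t < d) (he : 0 < e)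
    (hB : ∀ y, ‖ww d t y‖ ≤ B) (hN : 3 * B + 2 ≤ N)
    (havoid : ∀ q : ℂ × ℝ, ‖q.1‖ < N → |q.2| < 2 → T d m e q ∉ Sp L)
    (hC : Conf ((t, mo (om m 1) e) :: L)) (hC' : Conf ((t, mo (om m (-1)) e) :: L)) :
    LEq (Kn ((t, mo (om m 1) e) :: L)) (Kn ((t, mo (om m (-1)) e) :: L)) := by
  have hd1 : 1 < d := by linarith
  have hT := T_ch hd1 he m
  have hL : Conf L := (conf_cons.1 hC).2.1
  have hB0 : 0 ≤ B := (norm_nonneg _).trans (hB 0)
  obtain ⟨lm, hlm, hlm1, hlm2, hlm3⟩ := ww_log ht hd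
  have hw := ww_smooth ht hd
  set w := ww d t with hwdef
  set Z : Set (ℂ × ℝ) := ((U \ Bs L) \ (T d m e '' {q | |q.2| < 1})) ∪ Fg L with hZ
  -- the knots
  have k1 : Kn ((t, mo (om m 1) e) :: L) = Z ∪ (fun q => T d m e (FouH w q)) '' Str := by
    rw [fou_set (Or.inl rfl) ht hd he hB hN havoid hC]
    congr 1
    apply Subset.antisymm
    · rintro p (⟨s, hs, rfl⟩ | ⟨s, hs, rfl⟩)
      · refine ⟨(1, s), ⟨Or.inl rfl, abs_lt.2 hs⟩, ?_⟩
        show T d m e (w s / 2 - 1 + 1 * (w s / 2), s) = T d m e (⟨(w s).re - 1, 1 * (w s).im⟩, s)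
        congr 2
        apply Complex.ext
        · simp; ring
        · simp
      · refine ⟨(-1, s), ⟨Or.inr rfl, abs_lt.2 hs⟩, ?_⟩
        show T d m e (w s / 2 - 1 + (-1) * (w s / 2), s) = T d m e (-1, s)
        congr 2
        ring
    · rintro p ⟨⟨z, s⟩, ⟨hz, hs⟩, rfl⟩
      rcases hz with hz | hz
      · have hz' : z = 1 := hz
        subst hz'
        left
        refine ⟨s, abs_lt.1 hs, ?_⟩
        show T d m e (⟨(w s).re - 1, 1 * (w s).im⟩, s) = T d m e (w s / 2 - 1 + 1 * (w s / 2), s)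
        congr 2
        apply Complex.ext
        · simp; ring
        · simp
      · have hz' : z = -1 := hz
        subst hz'
        right
        refine ⟨s, abs_lt.1 hs, ?_⟩
        show T d m e (-1, s) = T d m e (w s / 2 - 1 + (-1) * (w s / 2), s)
        congr 2
        ring
  have k2 := fou_set (σ := -1) (Or.inr rfl) ht hd he hB hN havoid hC'
  -- disjointness
  have hdisj : ∀ p ∈ T d m e '' {q : ℂ × ℝ | ‖q.1‖ < N ∧ |q.2| < 1}, p ∉ Z := by
    rintro _ ⟨q, ⟨hq1, hq2⟩, rfl⟩ (hz | hz)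
    · exact hz.2 ⟨q, hq2, rfl⟩
    · exact havoid q hq1 (by linarith) (Fg_sub hL hz)
  have hsubO : (fun q => T d m e (FouH w q)) '' Dom ⊆ T d m e '' {q : ℂ × ℝ | ‖q.1‖ < N ∧ |q.2| < 1} := by
    rintro _ ⟨q, ⟨hq1, hq2⟩, rfl⟩
    refine ⟨FouH w q, ⟨?_, hq2⟩, rfl⟩
    show ‖w q.2 / 2 - 1 + q.1 * (w q.2 / 2)‖ < N
    have n1 : ‖w q.2 / 2‖ ≤ B / 2 := by
      rw [norm_div]
      have := hB q.2
      simp only [Complex.norm_ofNat]
      linarith
    have n2 : ‖w q.2 / 2 - 1 + q.1 * (w q.2 / 2)‖ ≤ ‖w q.2 / 2‖ + 1 + ‖q.1‖ * ‖w q.2 / 2‖ := by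
      calc ‖w q.2 / 2 - 1 + q.1 * (w q.2 / 2)‖ ≤ ‖w q.2 / 2 - 1‖ + ‖q.1 * (w q.2 / 2)‖ := norm_add_le _ _
        _ ≤ (‖w q.2 / 2‖ + ‖(1 : ℂ)‖) + ‖q.1‖ * ‖w q.2 / 2‖ := by
            gcongr
            · exact norm_sub_le _ _
            · exact norm_mul_le _ _
        _ = _ := by rw [norm_one]
    have n3 : ‖q.1‖ * ‖w q.2 / 2‖ ≤ 4 * (B / 2) :=
      mul_le_mul hq1.le n1 (norm_nonneg _) (by norm_num)
    linarith
  have hZb : Disjoint Z ((fun q => T d m e (FouH w q)) '' Dom) := by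
    rw [Set.disjoint_right]
    intro p hp
    exact hdisj p (hsubO hp)
  have A := LEq.four (Fou_balC hT hw hlm hlm1) hZb
  -- the isotopy
  have hlev := level hT (N := N) (b₀ := fun s => w s / 2 - 1 - ex (2 * gs s) * (w s / 2)) (b₁ := fun _ => -1)
    (l₀ := fun s => lm s + ((4 * Real.pi * gs s : ℝ) : ℂ) * I) (l₁ := fun s => (starRingEnd ℂ) (lm s))
    (((hw.div_const 2).sub contDiff_const).sub ((Fou_ex_smooth.comp (contDiff_const.mul Fou_gs_smooth)).mul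
      (hw.div_const 2))) contDiff_const
    (hlm.add ((Complex.ofRealCLM.contDiff.comp (contDiff_const.mul Fou_gs_smooth)).mul contDiff_const))
    (Fou_conj_smooth.comp hlm) ?_ ?_ ?_
  rotate_left
  · intro s hs1 hs2
    rcases le_abs'.1 hs1 with h | h
    · have h1 : gs s = 0 := Fou_gs_lo (by linarith)
      have h2 := hlm2 s (by linarith)
      constructor
      · rw [h1, Fou_ex0]; ring
      · rw [h1, h2]
        generalize Real.log 2 = c
        simp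
    · have h1 : gs s = 1 := Fou_gs_hi (by linarith)
      have h2 := hlm3 s (by linarith)
      constructor
      · rw [h1, Fou_ex1]; ring
      · rw [h1, h2]
        generalize Real.log 2 = c
        apply Complex.ext
        · simp
        · simp
          ring
  · intro s _
    have n1 : ‖w s / 2‖ ≤ B / 2 := by
      rw [norm_div]
      have := hB s
      simp only [Complex.norm_ofNat]
      linarith
    have n2 : ‖w s / 2 - 1 - ex (2 * gs s) * (w s / 2)‖ ≤ B + 1 := by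
      calc ‖w s / 2 - 1 - ex (2 * gs s) * (w s / 2)‖
          ≤ ‖w s / 2 - 1‖ + ‖ex (2 * gs s) * (w s / 2)‖ := norm_sub_le _ _
        _ ≤ (‖w s / 2‖ + ‖(1 : ℂ)‖) + ‖w s / 2‖ := by
            gcongr
            · exact norm_sub_le _ _
            · rw [norm_mul, Fou_ex_norm, one_mul]
        _ ≤ B + 1 := by rw [norm_one]; linarith
    have n3 : ‖Complex.exp (lm s + ((4 * Real.pi * gs s : ℝ) : ℂ) * I)‖ ≤ B := by
      rw [Complex.exp_add, norm_mul, hlm1, Complex.norm_exp_ofReal_mul_I, mul_one]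
      exact hB s
    linarith
  · intro s _
    have n3 : ‖Complex.exp ((starRingEnd ℂ) (lm s))‖ ≤ B := by
      rw [Complex.exp_conj, hlm1, Complex.norm_conj]
      exact hB s
    simp only [norm_neg, norm_one]
    linarith
  obtain ⟨F, hF, hF1, hF2⟩ := hlev
  have hF' : CD univ F := by
    obtain ⟨C, c1, c2, c3⟩ := hF.supp
    exact ⟨hF.smooth, hF.smooth_symm, C, c1, subset_univ _, c3⟩
  have hFZ : F '' Z = Z := by
    have hfix : ∀ p ∈ Z, F p = p := by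
      intro p hp
      obtain ⟨C, c1, c2, c3⟩ := hF.supp
      apply c3
      intro hpC
      exact hdisj p (c2 hpC) hp
    apply Subset.antisymm
    · rintro _ ⟨p, hp, rfl⟩
      rw [hfix p hp]; exact hp
    · intro p hp
      exact ⟨p, hp, hfix p hp⟩
  have hexp : ∀ s, Complex.exp (lm s + ((4 * Real.pi * gs s : ℝ) : ℂ) * I) = w s * ex (2 * gs s) := by
    intro s
    rw [Complex.exp_add, hlm1]
    unfold ex
    congr 3
    push_cast
    ring
  have e1 : ∀ s, T d m e (FouH w (ex (2 * gs s), s)) =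
      T d m e (w s / 2 - 1 - ex (2 * gs s) * (w s / 2) + Complex.exp (lm s + ((4 * Real.pi * gs s : ℝ) : ℂ) * I), s) := by
    intro s
    rw [hexp]
    unfold FouH
    congr 2
    simp only
    ring
  have e2 : ∀ s, T d m e (FouH w (-ex (2 * gs s), s)) =
      T d m e (w s / 2 - 1 - ex (2 * gs s) * (w s / 2), s) := by
    intro s
    unfold FouH
    congr 2
    simp only
    ring
  have e3 : ∀ s, T d m e (-1 + Complex.exp ((starRingEnd ℂ) (lm s)), s) =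
      T d m e (⟨(w s).re - 1, -1 * (w s).im⟩, s) := by
    intro s
    rw [Complex.exp_conj, hlm1]
    congr 2
    apply Complex.ext
    · simp; ring
    · simp
  have k3 : F '' (Z ∪ (fun q => T d m e (FouH w q)) '' Str2) = Kn ((t, mo (om m (-1)) e) :: L) := by
    rw [k2, image_union, hFZ]
    congr 1
    apply Subset.antisymm
    · rintro _ ⟨_, ⟨⟨z, s⟩, ⟨hz, hs⟩, rfl⟩, rfl⟩
      have hs' : |s| < 1 := hs
      rcases hz with hz | hz
      · have hz' : z = ex (2 * gs s) := hz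
        subst hz'
        left
        refine ⟨s, abs_lt.1 hs', ?_⟩
        show T d m e (⟨(w s).re - 1, -1 * (w s).im⟩, s) = F (T d m e (FouH w (ex (2 * gs s), s)))
        rw [e1, hF1 s hs'.le, e3]
      · have hz' : z = -ex (2 * gs s) := hz
        subst hz'
        right
        refine ⟨s, abs_lt.1 hs', ?_⟩
        show T d m e (-1, s) = F (T d m e (FouH w (-ex (2 * gs s), s)))
        rw [e2, hF2 s hs'.le]
    · rintro _ (⟨s, hs, rfl⟩ | ⟨s, hs, rfl⟩)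
      · have hs' : |s| < 1 := abs_lt.2 hs
        refine ⟨T d m e (FouH w (ex (2 * gs s), s)), ⟨(ex (2 * gs s), s), ⟨Or.inl rfl, hs'⟩, rfl⟩, ?_⟩
        rw [e1, hF1 s hs'.le, e3]
      · have hs' : |s| < 1 := abs_lt.2 hs
        refine ⟨T d m e (FouH w (-ex (2 * gs s), s)), ⟨(-ex (2 * gs s), s), ⟨Or.inr rfl, hs'⟩, rfl⟩, ?_⟩
        rw [e2, hF2 s hs'.le]
  rw [k1]
  have D := LEq.diff (Z ∪ (fun q => T d m e (FouH w q)) '' Str2) hF'
  rw [k3] at D
  exact A.trans D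

end Pool.Agent.KNF
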