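import Pool.Agent.KNF.RemA

/-!
# KNF/Rem: a finger of class 0 can be removed

`Φ = mo (om 0 1) e`, `om 0 1 x = 1 + i Sb x`, `Φ (x, y) = be (x, e y (1 + i Sb x)) = bs (⟨1 - 2 x, e y Sb x⟩, e y)`.

PROOF of `rem_zero`: `K₀ = (U \ bas Φ) ∪ gr Φ (prf t)`. `conf_mp` (with `conf_cons` for `Conf L`): `K₀ ∩ Sp L = U ∩ Sp L` and
`K₀ = U` near every point of `U ∩ Sp L`, because `bas Φ` and `gr Φ (prf t)` are contained in the compact set
`Φ '' Rec t`, disjoint from `Sp L`. So `Conf (mp F L)`, and `Kn_mp`: `Kn (mp F L) = F '' ((K₀ \ Bs L) ∪ Fg L)`, and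
`(K₀ \ Bs L) ∪ Fg L = Kn ((t, Φ) :: L)` (`gr Φ` is disjoint from `Bs L ⊆ Sp L`). `LEq.diff`, then the hypothesis `IH` for
`mp F L` (same length).
-/

open scoped ContDiff Topology
open Set Filter
open Complex (I)
open Pool.Agent.CSG (stp)
open Pool.Agent.RSG (ex)
open Pool.Agent.KNT

namespace Pool.Agent.KNF

theorem Rem_bas_sub {t : ℝ} {Φ : ℝ × ℝ → ℂ × ℝ} (ht : 0 < t) : bas Φ ⊆ Φ '' Rec t := by
  rintro q ⟨y, hy, rfl⟩
  exact ⟨(0, y), ⟨⟨le_rfl, by linarith⟩, ⟨hy.1.le, hy.2.le⟩⟩, rfl⟩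

theorem Rem_Bs_sub {L : SL} (h : Conf L) : Bs L ⊆ Sp L := by
  intro q hq
  unfold Bs at hq
  unfold Sp
  simp only [mem_iUnion] at hq ⊢
  obtain ⟨p, hp, hq⟩ := hq
  exact ⟨p, hp, Rem_bas_sub (h.1 p hp).pos hq⟩

theorem rem_zero {L : SL} {t e : ℝ} (he : 0 < e) (hC : Conf ((t, mo (om 0 1) e) :: L))
    (IH : ∀ L' : SL, L'.length = L.length → Conf L' → LEq (Kn L') U) :
    LEq (Kn ((t, mo (om 0 1) e) :: L)) U := by
  obtain ⟨hS, hL, hd⟩ := conf_cons.1 hC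
  obtain ⟨F, hF, hFU⟩ := rem_iso hS.pos he
  have hgr : gr (mo (om 0 1) e) (prf t) ⊆ mo (om 0 1) e '' Rec t := gr_sub hS (isPrf_prf hS.pos)
  have hbas : bas (mo (om 0 1) e) ⊆ mo (om 0 1) e '' Rec t := Rem_bas_sub hS.pos
  have hcl : IsClosed (mo (om 0 1) e '' Rec t) := hS.rec_compact.isClosed
  have key : ∀ x, x ∉ mo (om 0 1) e '' Rec t →
      (x ∈ (U \ bas (mo (om 0 1) e)) ∪ gr (mo (om 0 1) e) (prf t) ↔ x ∈ U) := by
    intro x hx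
    constructor
    · rintro (h | h)
      · exact h.1
      · exact absurd (hgr h) hx
    · intro h
      exact Or.inl ⟨h, fun h' => hx (hbas h')⟩
  have hnot : ∀ x, x ∈ Sp L → x ∉ mo (om 0 1) e '' Rec t := fun x hx => Set.disjoint_right.1 hd hx
  have hmeet : ((U \ bas (mo (om 0 1) e)) ∪ gr (mo (om 0 1) e) (prf t)) ∩ Sp L = U ∩ Sp L := by
    ext x
    constructor
    · rintro ⟨h1, h2⟩
      exact ⟨(key x (hnot x h2)).1 h1, h2⟩
    · rintro ⟨h1, h2⟩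
      exact ⟨(key x (hnot x h2)).2 h1, h2⟩
  have hnear : ∀ q ∈ U ∩ Sp L, ∀ᶠ x in 𝓝 q,
      x ∈ (U \ bas (mo (om 0 1) e)) ∪ gr (mo (om 0 1) e) (prf t) ↔ x ∈ U := by
    rintro q ⟨_, h2⟩
    filter_upwards [hcl.isOpen_compl.mem_nhds (hnot q h2)] with x hx
    exact key x hx
  have hC' := conf_mp hL hF hFU hmeet hnear
  have hIH := IH (mp F L) (by simp [mp]) hC'
  rw [Kn_mp hL hFU] at hIH
  have e1 : (((U \ bas (mo (om 0 1) e)) ∪ gr (mo (om 0 1) e) (prf t)) \ Bs L) ∪ Fg L =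
      Kn ((t, mo (om 0 1) e) :: L) := by
    have hK : Kn ((t, mo (om 0 1) e) :: L) =
        (U \ (bas (mo (om 0 1) e) ∪ Bs L)) ∪ (gr (mo (om 0 1) e) (prf t) ∪ Fg L) := by
      unfold Kn
      rw [Bs_cons, Fg_cons]
    rw [hK]
    ext x
    constructor
    · rintro (⟨⟨h1, h2⟩ | h1, h3⟩ | h1)
      · exact Or.inl ⟨h1, fun h => h.elim h2 h3⟩
      · exact Or.inr (Or.inl h1)
      · exact Or.inr (Or.inr h1)
    · rintro (⟨h1, h2⟩ | h1 | h1)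
      · exact Or.inl ⟨Or.inl ⟨h1, fun h => h2 (Or.inl h)⟩, fun h => h2 (Or.inr h)⟩
      · refine Or.inl ⟨Or.inr h1, fun h => ?_⟩
        exact hnot x (Rem_Bs_sub hL h) (hgr h1)
      · exact Or.inr h1
  rw [e1] at hIH
  exact (LEq.diff _ hF).trans hIH

end Pool.Agent.KNF
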