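import Pool.Agent.KNF.Aff
import Pool.Agent.KNF.Cls
import Pool.Agent.KNF.Fou
import Pool.Agent.KNF.Rem

/-!
# KNF/Fin: a finger along the semicircle can be removed
-/

open scoped ContDiff Topology
open Set Filter
open Complex (I)
open Pool.Agent.CSG (stp)
open Pool.Agent.RSG (ex)
open Pool.Agent.KNT

namespace Pool.Agent.KNF

theorem dat_congr {Λ : Set (ℂ × ℝ)} {t : ℝ} {g g' k : ℝ → ℂ × ℝ} (hD : Dat Λ t g' k)
    (hg : ContDiff ℝ ∞ g) (h : ∀ x ∈ Icc 0 (1 + t), g' x = g x) : Dat Λ t g k := by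
  have ht := hD.pos
  have hu : UniqueDiffOn ℝ (Icc 0 (1 + t)) := uniqueDiffOn_Icc (by linarith)
  have hd : ∀ x ∈ Icc 0 (1 + t), deriv g' x = deriv g x := by
    intro x hx
    have h1 : derivWithin g' (Icc 0 (1 + t)) x = derivWithin g (Icc 0 (1 + t)) x :=
      derivWithin_congr h (h x hx)
    rw [← (hD.smg.differentiable (by simp) x).derivWithin (hu x hx), h1,
      (hg.differentiable (by simp) x).derivWithin (hu x hx)]
  have h0 : (0 : ℝ) ∈ Icc 0 (1 + t) := ⟨le_rfl, by linarith⟩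
  have h1 : (1 : ℝ) ∈ Icc 0 (1 + t) := ⟨zero_le_one, by linarith⟩
  refine ⟨ht, hg, hD.smk, ?_, ?_, ?_, hD.base, ?_, ?_⟩
  · intro x hx y hy he
    exact hD.inj hx hy (by rw [h x hx, h y hy]; exact he)
  · intro x hx
    rw [← h x hx]
    exact hD.off x hx
  · intro x hx
    rw [← hd x hx]
    exact hD.imm x hx
  · rw [← hd 1 h1]
    exact hD.tip
  · intro x hx
    rw [← h x hx]
    exact hD.avoid x hx

theorem avoid_ext {Λ : Set (ℂ × ℝ)} (hΛ : IsClosed Λ) {t : ℝ} (ht : 0 < t)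
    (ha : ∀ x ∈ Icc 0 (1 + t), g0 x ∉ Λ) :
    ∃ d t' : ℝ, 0 < t' ∧ t' ≤ t ∧ 1 + 2 * t' ≤ d ∧ ∀ x, |1 - 2 * x| ≤ d → g0 x ∉ Λ := by
  have h1 : Λᶜ ∈ 𝓝 (g0 0) := hΛ.isOpen_compl.mem_nhds (ha 0 ⟨le_rfl, by linarith⟩)
  have h2 : ∀ᶠ x in 𝓝 (0 : ℝ), g0 x ∈ Λᶜ := g0_smooth.continuous.continuousAt.eventually_mem h1
  obtain ⟨η, hη, hη'⟩ := Metric.eventually_nhds_iff.1 h2
  obtain ⟨r, hr⟩ : ∃ r : ℝ, r = min (η / 2) (t / 2) := ⟨_, rfl⟩
  have hr1 : r ≤ η / 2 := hr ▸ min_le_left _ _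
  have hr2 : r ≤ t / 2 := hr ▸ min_le_right _ _
  have hr0 : 0 < r := by
    rw [hr]
    exact lt_min (by linarith) (by linarith)
  refine ⟨1 + 2 * r, r, hr0, by linarith, by linarith, ?_⟩
  intro x hx
  rw [abs_le] at hx
  rcases le_or_gt 0 x with h | h
  · exact ha x ⟨h, by linarith⟩
  · apply hη'
    rw [Real.dist_eq, sub_zero, abs_of_neg h]
    linarith

/-- one rung of the ladder, going up or down -/
theorem rung {L : SL} {t d : ℝ} (ht : 0 < t) (hd2 : 1 + 2 * t ≤ d) (hL : Conf L)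
    (ha : ∀ x, |1 - 2 * x| ≤ d → g0 x ∉ Sp L) (m : ℤ) :
    (Gd L t g0 (kk (om m 1)) ↔ Gd L t g0 (kk (om m (-1)))) := by
  have hd : 1 + t < d := by linarith
  have ha' : ∀ x ∈ Icc 0 (1 + t), g0 x ∉ Sp L := by
    intro x hx
    apply ha
    rw [abs_le]
    constructor <;> linarith [hx.1, hx.2]
  obtain ⟨B, hB⟩ := ww_bdd ht hd
  have hcl : IsClosed (Sp L) := (Sp_compact hL).isClosed
  obtain ⟨e₁, he₁, h1⟩ := T_avoid hcl (by linarith : 1 < d) ha (3 * B + 2) m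
  obtain ⟨e₂, he₂, h2⟩ := mo_conf ht (om_om m (Or.inl rfl) t) hL ha'
  obtain ⟨e₃, he₃, h3⟩ := mo_conf ht (om_om m (Or.inr rfl) t) hL ha'
  obtain ⟨e, he⟩ : ∃ e : ℝ, e = min e₁ (min e₂ e₃) := ⟨_, rfl⟩
  have he0 : 0 < e := by
    rw [he]
    exact lt_min he₁ (lt_min he₂ he₃)
  have k1 : e ≤ e₁ := he ▸ min_le_left _ _
  have k2 : e ≤ e₂ := he ▸ (min_le_right _ _).trans (min_le_left _ _)
  have k3 : e ≤ e₃ := he ▸ (min_le_right _ _).trans (min_le_right _ _)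
  have c2 := h2 e he0 k2
  have c3 := h3 e he0 k3
  have hF := four_step ht hd he0 hB le_rfl (h1 e he0 k1) c2 c3
  constructor
  · intro H
    refine gd_of_mo he0 c3 (hF.symm.trans ?_)
    exact H _ e he0 c2 (fun x _ => mo_core _ _ x) fun x _ => mo_nrm _ _ x
  · intro H
    refine gd_of_mo he0 c2 (hF.trans ?_)
    exact H _ e he0 c3 (fun x _ => mo_core _ _ x) fun x _ => mo_nrm _ _ x

theorem ladder {L : SL} {t d : ℝ} (ht : 0 < t) (hd2 : 1 + 2 * t ≤ d) (hL : Conf L)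
    (ha : ∀ x, |1 - 2 * x| ≤ d → g0 x ∉ Sp L)
    (IH : ∀ L' : SL, L'.length = L.length → Conf L' → LEq (Kn L') U) (m : ℤ) :
    Gd L t g0 (kk (om m 1)) := by
  have hd : 1 + t < d := by linarith
  have ha' : ∀ x ∈ Icc 0 (1 + t), g0 x ∉ Sp L := by
    intro x hx
    apply ha
    rw [abs_le]
    constructor <;> linarith [hx.1, hx.2]
  have step : ∀ m : ℤ, Gd L t g0 (kk (om m 1)) ↔ Gd L t g0 (kk (om (m - 1) 1)) := fun m =>
    ⟨fun H => gd_om' ht ha' m ((rung ht hd2 hL ha m).1 H),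
      fun H => (rung ht hd2 hL ha m).2 (gd_om ht ha' m H)⟩
  induction m using Int.induction_on with
  | zero =>
    obtain ⟨e, he, h⟩ := mo_conf ht (om_om 0 (Or.inl rfl) t) hL ha'
    have hC := h e he le_rfl
    exact gd_of_mo he hC (rem_zero he hC IH)
  | succ i ih =>
    rw [step]
    simpa using ih
  | pred i ih =>
    exact (step _).1 ih

theorem gd_all {L : SL} {t : ℝ} {k : ℝ → ℂ × ℝ} (hL : Conf L) (hD : Dat (Sp L) t g0 k)
    (IH : ∀ L' : SL, L'.length = L.length → Conf L' → LEq (Kn L') U) : Gd L t g0 k := by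
  refine cls hD fun m => ?_
  have hcl : IsClosed (Sp L) := (Sp_compact hL).isClosed
  obtain ⟨d, t', ht', htt, hd, ha⟩ := avoid_ext hcl hD.pos hD.avoid
  refine Gd_reparam (χ := fun x => x) contDiff_id rfl rfl ht' (fun x _ => ?_) (by simpa using htt)
    (ladder ht' hd hL ha IH m)
  rw [deriv_id'']
  exact one_pos

/-- **A finger along the semicircle can be removed.** -/
theorem Ffinal_HG {u : ℕ} (IH : ∀ L : SL, L.length = u → Conf L → LEq (Kn L) U) {c R t : ℝ} (θ₀ : ℝ)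
    (hR : R ≠ 0) (_ht : 0 < t) : HG u t (gsph c R θ₀) := by
  refine hg_gsph hR (HG_of_Gd fun L g' k hu hL hD hg => ?_)
  have hg' : ∀ x ∈ Icc 0 (1 + t), g' x = g0 x := fun x hx => by rw [hg x hx, g0_eq]
  have hD' := dat_congr hD g0_smooth hg'
  refine Gd_congr (g' := g0) (k' := k) (fun x hx => (hg' x hx).symm) (fun x _ => rfl) ?_
  exact gd_all hL hD' fun L' hL' => IH L' (hL'.trans hu)

end Pool.Agent.KNF
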