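import Pool.Agent.KNF.Tca
import Pool.Agent.KNT.LocI

/-!
# KNF/Tav: the thin twisted chart `T d m e`, second part

PROOFS. `f a = 1 - 2 xx d a`.
* `T_avoid`: the set `{(x, ξ) : ℝ × ℂ | be (x, ξ) ∉ Λ}` is open and contains `[(1 - d)/2, (1 + d)/2] × {0}`; `near_pos`
  gives `r`; `‖e e^{iμ} (s + i z.im)‖ ≤ e (2 + |N|) ≤ r` for small `e`, and `|1 - 2 xx d a| = |f a| ≤ d`.
* `T_mo`: with `x' = xx d (ka d x) = x`: `T = be (x, e e^{iπ m Sa x} (y + i σ Sb x y)) = be (x, e y om m σ x)`.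
-/

open scoped ContDiff Topology
open Set Filter
open Complex (I)
open Pool.Agent.CSG (stp)
open Pool.Agent.RSG (ex)
open Pool.Agent.KNT

namespace Pool.Agent.KNF

theorem T_avoid {Λ : Set (ℂ × ℝ)} (hΛ : IsClosed Λ) {d : ℝ} (hd : 1 < d)
    (ha : ∀ x, |1 - 2 * x| ≤ d → g0 x ∉ Λ) (N : ℝ) (m : ℤ) : ∃ e₀ : ℝ, 0 < e₀ ∧ ∀ e : ℝ, 0 < e → e ≤ e₀ →
      ∀ q : ℂ × ℝ, ‖q.1‖ < N → |q.2| < 2 → T d m e q ∉ Λ := by
  have hO : IsOpen {p : ℝ × ℂ | be p ∉ Λ} := hΛ.isOpen_compl.preimage be_smooth.continuous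
  have hK : IsCompact (Icc ((1 - d) / 2) ((1 + d) / 2)) := isCompact_Icc
  obtain ⟨r, hr, h⟩ := near_pos (X := ℝ) (V := ℂ) hK hO (by
    intro x hx
    change be (x, 0) ∉ Λ
    apply ha x
    rw [abs_le]
    constructor
    · linarith [hx.2]
    · linarith [hx.1])
  have hN : 0 < 2 + |N| := by positivity
  refine ⟨r / (2 + |N|), div_pos hr hN, ?_⟩
  intro e he he₀ q hq1 hq2
  have h1 := abs_lt.1 (xx_lt hd q.1.re)
  have h2 : xx d q.1.re ∈ Icc ((1 - d) / 2) ((1 + d) / 2) := ⟨by linarith, by linarith⟩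
  apply h _ h2
  rw [norm_mul, norm_mul, Complex.norm_exp_ofReal_mul_I, mul_one, Complex.norm_real, Real.norm_eq_abs,
    abs_of_pos he]
  have h3 : ‖(⟨q.2, q.1.im⟩ : ℂ)‖ ≤ 2 + |N| := by
    refine (Complex.norm_le_abs_re_add_abs_im _).trans ?_
    have h4 : |q.1.im| ≤ ‖q.1‖ := Complex.abs_im_le_norm _
    have h5 := le_abs_self N
    simp only
    linarith
  calc e * ‖(⟨q.2, q.1.im⟩ : ℂ)‖ ≤ e * (2 + |N|) := mul_le_mul_of_nonneg_left h3 he.le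
    _ ≤ r / (2 + |N|) * (2 + |N|) := mul_le_mul_of_nonneg_right he₀ hN.le
    _ = r := by field_simp

theorem T_mo {d e x y σ : ℝ} (m : ℤ) (hd : 1 < d) (hx : |1 - 2 * x| < d) :
    T d m e (⟨ka d x, σ * Sb x * y⟩, y) = mo (om m σ) e (x, y) := by
  unfold T mo om
  simp only
  rw [xx_ka hd hx]
  congr 2
  have h1 : (⟨y, σ * Sb x * y⟩ : ℂ) = (y : ℂ) * (1 + ((σ * Sb x : ℝ) : ℂ) * I) := by
    apply Complex.ext
    · simp
    · simp
      ring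
  rw [h1]
  push_cast
  ring

end Pool.Agent.KNF
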