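import Pool.Agent.KNF.Tca

/-!
# KNF/Tch: the thin twisted chart `T d m e`

PROOFS.
* `T_ch`: `T d m e = be ∘ A`, `A (z, s) = (xx d z.re, e e^{iμ} (s + i z.im))`, `μ = π m Sa (xx d z.re)`. Smooth. Injective:
  `xx d z.re` determines `z.re` (`ka_xx`), then `μ`, then `s + i z.im`. Derivative of `A` injective: `A` has the smooth left
  inverse `(x, ξ) ↦ (⟨ka d x, (e⁻¹ e^{-iμ(x)} ξ).im⟩, (e⁻¹ e^{-iμ(x)} ξ).re)`, `μ (x) = π m Sa x`, near the image (`ka` is
  smooth where `|1 - 2 x| < d`). Together with `be_J` this gives the left inverse of `T`, hence `inj` and `imm`.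
  `axis`: `be_axis`: `xx = 0` iff `z.re = 1`, and then `Sa 0 = 0`; `xx = 1` iff `z.re = -1`, and then `Sa 1 = 1`,
  `e^{iπ m} = ±1`; in both cases the imaginary part is `± e z.im`.
-/

open scoped ContDiff Topology
open Set Filter
open Complex (I)
open Pool.Agent.CSG (stp)
open Pool.Agent.RSG (ex)
open Pool.Agent.KNT

namespace Pool.Agent.KNF

/-- the rotation factor -/
noncomputable def Tch_r (m : ℤ) (x : ℝ) : ℂ := Complex.exp ((Real.pi * m * Sa x : ℝ) * I)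

theorem Tch_r_smooth (m : ℤ) : ContDiff ℝ ∞ (Tch_r m) := by
  have h1 : ContDiff ℝ ∞ Sa := Pool.Agent.CSG.stp_smooth _ _
  have h2 : ContDiff ℝ ∞ (fun x : ℝ => Real.pi * m * Sa x) := contDiff_const.mul h1
  have h3 : ContDiff ℝ ∞ (fun x : ℝ => ((Real.pi * m * Sa x : ℝ) : ℂ) * I) :=
    (Complex.ofRealCLM.contDiff.comp h2).mul contDiff_const
  exact h3.cexp

theorem Tch_r_ne (m : ℤ) (x : ℝ) : Tch_r m x ≠ 0 := Complex.exp_ne_zero _

/-- the inner part of the chart -/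
noncomputable def Tch_A (d : ℝ) (m : ℤ) (e : ℝ) (q : ℂ × ℝ) : ℝ × ℂ :=
  (xx d q.1.re, (e : ℂ) * Tch_r m (xx d q.1.re) * ⟨q.2, q.1.im⟩)

/-- the inverse of the inner part -/
noncomputable def Tch_G (d : ℝ) (m : ℤ) (e : ℝ) (p : ℝ × ℂ) : ℂ × ℝ :=
  (⟨ka d p.1, (((e : ℂ) * Tch_r m p.1)⁻¹ * p.2).im⟩, (((e : ℂ) * Tch_r m p.1)⁻¹ * p.2).re)

theorem Tch_mk {E : Type*} [NormedAddCommGroup E] [NormedSpace ℝ E] {f g : E → ℝ} {x : E}
    (hf : ContDiffAt ℝ ∞ f x) (hg : ContDiffAt ℝ ∞ g x) :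
    ContDiffAt ℝ ∞ (fun y => (⟨f y, g y⟩ : ℂ)) x := by
  have h1 : (fun y => (⟨f y, g y⟩ : ℂ)) = fun y => ((f y : ℝ) : ℂ) + ((g y : ℝ) : ℂ) * I := by
    funext y
    apply Complex.ext <;> simp
  rw [h1]
  have h2 : ContDiffAt ℝ ∞ (fun y => ((f y : ℝ) : ℂ)) x :=
    Complex.ofRealCLM.contDiff.contDiffAt.comp x hf
  have h3 : ContDiffAt ℝ ∞ (fun y => ((g y : ℝ) : ℂ)) x :=
    Complex.ofRealCLM.contDiff.contDiffAt.comp x hg
  exact h2.add (h3.mul contDiffAt_const)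

theorem Tch_A_smooth {d : ℝ} (hd : 1 < d) (m : ℤ) (e : ℝ) : ContDiff ℝ ∞ (Tch_A d m e) := by
  have h0 : ContDiff ℝ ∞ (fun q : ℂ × ℝ => q.1.re) := Complex.reCLM.contDiff.comp contDiff_fst
  have h0' : ContDiff ℝ ∞ (fun q : ℂ × ℝ => q.1.im) := Complex.imCLM.contDiff.comp contDiff_fst
  have h1 : ContDiff ℝ ∞ (fun q : ℂ × ℝ => xx d q.1.re) := (xx_smooth hd).comp h0
  have h2 : ContDiff ℝ ∞ (fun q : ℂ × ℝ => (e : ℂ) * Tch_r m (xx d q.1.re)) :=
    contDiff_const.mul ((Tch_r_smooth m).comp h1)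
  have h3 : ContDiff ℝ ∞ (fun q : ℂ × ℝ => (⟨q.2, q.1.im⟩ : ℂ)) := by
    rw [contDiff_iff_contDiffAt]
    intro x
    exact Tch_mk contDiffAt_snd h0'.contDiffAt
  exact h1.prodMk (h2.mul h3)

theorem Tch_G_smooth {d : ℝ} (hd : 1 < d) (m : ℤ) {e : ℝ} (he : 0 < e) (p : ℝ × ℂ)
    (hp : |1 - 2 * p.1| < d) : ContDiffAt ℝ ∞ (Tch_G d m e) p := by
  have hne : (e : ℂ) ≠ 0 := by
    have := he.ne'
    exact_mod_cast this
  have h1 : ContDiffAt ℝ ∞ (fun p : ℝ × ℂ => ka d p.1) p := (ka_smooth hd hp).comp p contDiffAt_fst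
  have h2 : ContDiffAt ℝ ∞ (fun p : ℝ × ℂ => (e : ℂ) * Tch_r m p.1) p :=
    contDiffAt_const.mul ((Tch_r_smooth m).contDiffAt.comp p contDiffAt_fst)
  have h3 : ContDiffAt ℝ ∞ (fun p : ℝ × ℂ => ((e : ℂ) * Tch_r m p.1)⁻¹) p :=
    h2.inv (mul_ne_zero hne (Tch_r_ne m _))
  have h4 : ContDiffAt ℝ ∞ (fun p : ℝ × ℂ => ((e : ℂ) * Tch_r m p.1)⁻¹ * p.2) p :=
    h3.mul contDiffAt_snd
  have h5 : ContDiffAt ℝ ∞ (fun p : ℝ × ℂ => (((e : ℂ) * Tch_r m p.1)⁻¹ * p.2).im) p :=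
    Complex.imCLM.contDiff.contDiffAt.comp p h4
  have h6 : ContDiffAt ℝ ∞ (fun p : ℝ × ℂ => (((e : ℂ) * Tch_r m p.1)⁻¹ * p.2).re) p :=
    Complex.reCLM.contDiff.contDiffAt.comp p h4
  exact (Tch_mk h1 h5).prodMk h6

theorem Tch_GA {d : ℝ} (hd : 1 < d) (m : ℤ) {e : ℝ} (he : 0 < e) (q : ℂ × ℝ) :
    Tch_G d m e (Tch_A d m e q) = q := by
  have hne : (e : ℂ) ≠ 0 := by
    have := he.ne'
    exact_mod_cast this
  have h1 : ((e : ℂ) * Tch_r m (xx d q.1.re))⁻¹ * ((e : ℂ) * Tch_r m (xx d q.1.re) * ⟨q.2, q.1.im⟩) =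
      (⟨q.2, q.1.im⟩ : ℂ) :=
    inv_mul_cancel_left₀ (mul_ne_zero hne (Tch_r_ne m _)) _
  unfold Tch_G Tch_A
  simp only
  rw [h1, ka_xx hd]

theorem T_ch {d e : ℝ} (hd : 1 < d) (he : 0 < e) (m : ℤ) : TCh (T d m e) := by
  obtain ⟨J, hJs, hJ⟩ := be_J
  have hT : T d m e = be ∘ Tch_A d m e := rfl
  have hsm : ContDiff ℝ ∞ (T d m e) := by
    rw [hT]
    exact be_smooth.comp (Tch_A_smooth hd m e)
  have hL : ∀ q, Tch_G d m e (J (T d m e q)) = q := by
    intro q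
    rw [hT]
    show Tch_G d m e (J (be (Tch_A d m e q))) = q
    rw [hJ, Tch_GA hd m he]
  refine ⟨hsm, ?_, ?_, ?_⟩
  · intro q q' h
    rw [← hL q, h, hL]
  · intro q
    have h1 : (fun p => Tch_G d m e (J p)) ∘ T d m e = id := funext hL
    have h2 : DifferentiableAt ℝ (fun p => Tch_G d m e (J p)) (T d m e q) := by
      have h3 : ContDiffAt ℝ ∞ J (T d m e q) := (hJs (Tch_A d m e q)).self_of_nhds
      have h4 : J (T d m e q) = Tch_A d m e q := hJ _
      have h5 : ContDiffAt ℝ ∞ (Tch_G d m e) (J (T d m e q)) := by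
        rw [h4]
        exact Tch_G_smooth hd m he _ (xx_lt hd _)
      exact (h5.comp (T d m e q) h3).differentiableAt (by simp)
    have h3 : fderiv ℝ ((fun p => Tch_G d m e (J p)) ∘ T d m e) q =
        (fderiv ℝ (fun p => Tch_G d m e (J p)) (T d m e q)).comp (fderiv ℝ (T d m e) q) :=
      fderiv_comp q h2 (hsm.differentiable (by simp) q)
    rw [h1, fderiv_id] at h3
    intro v w hvw
    have h4 : (ContinuousLinearMap.id ℝ (ℂ × ℝ)) v = (ContinuousLinearMap.id ℝ (ℂ × ℝ)) w := by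
      rw [h3]
      show fderiv ℝ (fun p => Tch_G d m e (J p)) (T d m e q) (fderiv ℝ (T d m e) q v) =
        fderiv ℝ (fun p => Tch_G d m e (J p)) (T d m e q) (fderiv ℝ (T d m e) q w)
      rw [hvw]
    exact h4
  · rintro ⟨z, s⟩
    have hk1 : ka d 1 = -1 := by
      have := ka_xx hd (-1)
      rwa [xx_neg_one hd] at this
    have hx0 : xx d z.re = 0 ↔ z.re = 1 := by
      constructor
      · intro h
        rw [← ka_xx hd z.re, h, ka_zero hd]
      · intro h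
        rw [h, xx_one hd]
    have hx1 : xx d z.re = 1 ↔ z.re = -1 := by
      constructor
      · intro h
        rw [← ka_xx hd z.re, h, hk1]
      · intro h
        rw [h, xx_neg_one hd]
    have hr0 : Tch_r m 0 = 1 := by
      unfold Tch_r
      have h1 : Sa 0 = 0 := Pool.Agent.CSG.stp_zero (by norm_num) (by norm_num)
      rw [h1]
      simp
    have him : ∀ x : ℝ, x = 0 ∨ x = 1 → (((e : ℂ) * Tch_r m x * ⟨s, z.im⟩).im = 0 ↔ z.im = 0) := by
      rintro x (rfl | rfl)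
      · rw [hr0, mul_one, Complex.im_ofReal_mul]
        show e * z.im = 0 ↔ z.im = 0
        rw [mul_eq_zero]
        exact ⟨fun h => h.resolve_left he.ne', fun h => Or.inr h⟩
      · have h1 : Sa 1 = 1 := Pool.Agent.CSG.stp_one (by norm_num) (by norm_num)
        have h2 : (Tch_r m 1).im = 0 := by
          unfold Tch_r
          rw [h1, mul_one, Complex.exp_ofReal_mul_I_im, mul_comm]
          exact Real.sin_int_mul_pi m
        have h3 : (Tch_r m 1).re ≠ 0 := by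
          intro h
          exact Tch_r_ne m 1 (Complex.ext h h2)
        have h4 : ((e : ℂ) * Tch_r m 1 * ⟨s, z.im⟩).im = e * ((Tch_r m 1).re * z.im) := by
          rw [mul_assoc, Complex.im_ofReal_mul, Complex.mul_im, h2, zero_mul, add_zero]
        rw [h4, mul_eq_zero, mul_eq_zero]
        exact ⟨fun h => (h.resolve_left he.ne').resolve_left h3, fun h => Or.inr (Or.inr h)⟩
    have hax : (T d m e (z, s)).1 = 0 ↔ (xx d z.re = 0 ∨ xx d z.re = 1) ∧
        ((e : ℂ) * Tch_r m (xx d z.re) * ⟨s, z.im⟩).im = 0 := be_axis _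
    rw [hax]
    show _ ↔ z = 1 ∨ z = -1
    constructor
    · rintro ⟨h1, h2⟩
      have h3 := (him _ h1).1 h2
      rcases h1 with h1 | h1
      · left
        exact Complex.ext (by rw [hx0.1 h1, Complex.one_re]) (by rw [h3, Complex.one_im])
      · right
        exact Complex.ext (by rw [hx1.1 h1, Complex.neg_re, Complex.one_re])
          (by rw [h3, Complex.neg_im, Complex.one_im, neg_zero])
    · rintro (rfl | rfl)
      · have h1 : xx d (1 : ℂ).re = 0 := by rw [Complex.one_re, xx_one hd]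
        refine ⟨Or.inl h1, (him _ (Or.inl h1)).2 Complex.one_im⟩
      · have h1 : xx d (-1 : ℂ).re = 1 := by
          rw [Complex.neg_re, Complex.one_re, xx_neg_one hd]
        refine ⟨Or.inr h1, (him _ (Or.inr h1)).2 ?_⟩
        rw [Complex.neg_im, Complex.one_im, neg_zero]

end Pool.Agent.KNF
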