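import Pool.Agent.KNF.Tca
import Pool.Agent.KNT.PrfL
import Pool.Agent.RSG.ExM

/-!
# KNF/Win: the winding of the finger around the axis

`ww d t y = z (y) + 1`, `z (y) = ka d (prf t y) + i Sb (prf t y) y`.

PROOFS. `bmp y = 1` for `|y| ≤ 1/16`, `0` for `|y| ≥ 1/8`, `0 ≤ bmp ≤ 1`; `0 ≤ prf t y ≤ 1 + t / 2`, and
`|1 - 2 x| < d` for `x = prf t y`.
* `ww_smooth`: `prf` is smooth, `ka_smooth`.
* `ww_bdd`: continuous, and `ww d t y = 2` for `1/8 ≤ |y|` (compact interval).
* `ww_slit`: for `1/16 ≤ |y|`: `ww d t y ∈ Complex.slitPlane`: if `Sb x ≠ 0` (`x = prf t y`) the imaginary part is `≠ 0`;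
  if `Sb x = 0` then `x ≤ 1/2` (`stp_pos`) and the real part is `≥ 1` (`ka_nonneg`).
* `ww_mid`: for `|y| ≤ 1/16`: `x = 1 + t/2`, `Sb x = 1`, so `ww = -a + i y`, `a = -(1 + ka d (1 + t/2)) > 0` (`ka_lt`).
* `ww_log`: let `g y = stp (-(1/16)) (1/16) y`. CLAIM: `ww d t y * ex (g y) ∈ slitPlane` for all `y`. For `1/16 ≤ |y|`
  `ex (g y) = 1`. For `|y| < 1/16` suppose that it is `-r`, `r ≥ 0` real; then `r > 0` and `-a + i y = -r e^{-iθ}`,
  `θ = 2π g y ∈ (0, 2π)`, so `cos θ = a / r > 0`, `sin θ = y / r`. If `y > 0` then `g y ≥ 1/2` (symmetry `FunBasic_symm` at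
  `0`: `g 0 = 1/2`, monotone), `θ ∈ [π, 2π)`, `sin θ ≤ 0`, contradiction; if `y < 0` then `θ ∈ (0, π]`, `sin θ ≥ 0`,
  contradiction; if `y = 0` then `sin θ = 0`, `cos θ > 0`, but `θ = π`, contradiction.
  `lm y = Complex.log (ww d t y * ex (g y)) - 2π g y I`, smooth, `exp (lm y) = ww d t y`. For `1/8 ≤ |y|`:
  `prf t y = 0`, `ww = 2` (`ka_zero`, `Sb 0 = 0`), `g y = 0` or `1`.
-/

open scoped ContDiff Topology
open Set Filter
open Complex (I)
open Pool.Agent.CSG (stp)
open Pool.Agent.RSG (ex)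
open Pool.Agent.KNT

namespace Pool.Agent.KNF

theorem Win_nonneg {t : ℝ} (ht : 0 < t) (y : ℝ) : 0 ≤ prf t y :=
  mul_nonneg (by linarith) (bmp_nonneg y)

theorem Win_le {t : ℝ} (ht : 0 < t) (y : ℝ) : prf t y ≤ 1 + t / 2 := by
  have h1 : (1 + t / 2) * bmp y ≤ (1 + t / 2) * 1 :=
    mul_le_mul_of_nonneg_left (bmp_le_one y) (by linarith)
  unfold prf
  linarith

theorem Win_dom {d t : ℝ} (ht : 0 < t) (hd : 1 + t < d) (y : ℝ) : |1 - 2 * prf t y| < d := by
  have h1 := Win_nonneg ht y
  have h2 := Win_le ht y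
  exact abs_lt.2 ⟨by linarith, by linarith⟩

theorem Win_prf_smooth (t : ℝ) : ContDiff ℝ ∞ (prf t) := contDiff_const.mul bmp_smooth

theorem Win_Sb_smooth : ContDiff ℝ ∞ Sb := CSG.stp_smooth _ _

theorem ww_smooth {d t : ℝ} (ht : 0 < t) (hd : 1 + t < d) : ContDiff ℝ ∞ (ww d t) := by
  have h1 : ContDiff ℝ ∞ fun y => ka d (prf t y) := by
    rw [contDiff_iff_contDiffAt]
    intro y
    exact (ka_smooth (by linarith) (Win_dom ht hd y)).comp y (Win_prf_smooth t).contDiffAt
  have h2 : ContDiff ℝ ∞ fun y => Sb (prf t y) * y :=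
    (Win_Sb_smooth.comp (Win_prf_smooth t)).mul contDiff_id
  have h3 : ww d t = fun y => ((1 + ka d (prf t y) : ℝ) : ℂ) + ((Sb (prf t y) * y : ℝ) : ℂ) * I := by
    funext y
    apply Complex.ext
    · simp [ww]
    · simp [ww]
  rw [h3]
  exact (Complex.ofRealCLM.contDiff.comp (contDiff_const.add h1)).add
    ((Complex.ofRealCLM.contDiff.comp h2).mul contDiff_const)

theorem Win_out {d t y : ℝ} (ht : 0 < t) (hd : 1 + t < d) (hy : 1 / 8 ≤ |y|) : ww d t y = 2 := by
  have h1 : prf t y = 0 := by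
    unfold prf
    rw [bmp_zero hy, mul_zero]
  have h2 : Sb 0 = 0 := CSG.stp_zero (by norm_num) (by norm_num)
  apply Complex.ext
  · simp only [ww, h1, ka_zero (by linarith : (1 : ℝ) < d)]
    norm_num
  · simp [ww, h1, h2]

theorem ww_bdd {d t : ℝ} (ht : 0 < t) (hd : 1 + t < d) : ∃ B : ℝ, ∀ y, ‖ww d t y‖ ≤ B := by
  obtain ⟨B, hB⟩ := (isCompact_Icc (a := -(1 / 8 : ℝ)) (b := 1 / 8)).exists_bound_of_continuousOn
    (ww_smooth ht hd).continuous.continuousOn
  refine ⟨max B 2, fun y => ?_⟩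
  by_cases hy : |y| ≤ 1 / 8
  · exact (hB y (abs_le.1 hy)).trans (le_max_left _ _)
  · rw [Win_out ht hd (le_of_lt (not_le.1 hy))]
    refine le_trans ?_ (le_max_right _ _)
    simp

/-- the angle -/
noncomputable def Win_g (y : ℝ) : ℝ := stp (-(1 / 16)) (1 / 16) y

theorem Win_g_lo {y : ℝ} (hy : y ≤ -(1 / 16)) : Win_g y = 0 := CSG.stp_zero (by norm_num) hy

theorem Win_g_hi {y : ℝ} (hy : 1 / 16 ≤ y) : Win_g y = 1 := CSG.stp_one (by norm_num) hy

theorem Win_g_half : Win_g 0 = 1 / 2 := by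
  have h := CSG.FunBasic_symm (a := -(1 / 16 : ℝ)) (b := 1 / 16) (by norm_num) 0
  have e : (-(1 / 16 : ℝ) + 1 / 16 - 0) = 0 := by norm_num
  rw [e] at h
  unfold Win_g
  linarith

theorem Win_g_mono : Monotone Win_g := CSG.stp_mono (by norm_num)

theorem Win_slit_out {d t y : ℝ} (ht : 0 < t) (hd : 1 + t < d) (hy : 1 / 16 ≤ |y|) :
    ww d t y ∈ Complex.slitPlane := by
  rw [Complex.mem_slitPlane_iff]
  have hy0 : y ≠ 0 := by
    intro h
    rw [h, abs_zero] at hy
    norm_num at hy
  by_cases hS : Sb (prf t y) = 0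
  · left
    have hx : prf t y ≤ 1 / 2 := by
      by_contra hc
      push Not at hc
      have h1 : 0 < Sb (prf t y) := CSG.stp_pos (by norm_num) hc
      linarith
    have h2 := ka_nonneg (by linarith : (1 : ℝ) < d) hx
    simp only [ww]
    linarith
  · right
    simp only [ww]
    exact mul_ne_zero hS hy0

theorem Win_slit {d t : ℝ} (ht : 0 < t) (hd : 1 + t < d) (y : ℝ) :
    ww d t y * ex (Win_g y) ∈ Complex.slitPlane := by
  by_cases hy : 1 / 16 ≤ |y|
  · have hex : ex (Win_g y) = 1 := by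
      rcases le_abs.1 hy with h | h
      · rw [Win_g_hi h]
        have := RSG.ex_int 1
        rwa [Int.cast_one] at this
      · rw [Win_g_lo (by linarith)]
        exact RSG.ex_zero
    rw [hex, mul_one]
    exact Win_slit_out ht hd hy
  · push Not at hy
    have hy' := abs_lt.1 hy
    have hp : prf t y = 1 + t / 2 := by
      unfold prf
      rw [bmp_one hy.le, mul_one]
    have hS : Sb (prf t y) = 1 := by
      rw [hp]
      exact CSG.stp_one (by norm_num) (by linarith)
    have hk : ka d (prf t y) < -1 := by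
      apply ka_lt (by linarith) (Win_dom ht hd y)
      rw [hp]
      linarith
    have hw : ww d t y = ⟨1 + ka d (prf t y), y⟩ := by
      simp only [ww, hS, one_mul]
    obtain ⟨a, ha⟩ : ∃ a : ℝ, a = -(1 + ka d (prf t y)) := ⟨_, rfl⟩
    have ha0 : 0 < a := by linarith
    have hg0 : 0 < Win_g y := CSG.stp_pos (by norm_num) hy'.1
    have hg1 : Win_g y < 1 := CSG.stp_lt_one (by norm_num) hy'.2
    have hcos := RSG.ex_re (Win_g y)
    have hsin := RSG.ex_im (Win_g y)
    set c := Real.cos (2 * Real.pi * Win_g y) with hc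
    set s := Real.sin (2 * Real.pi * Win_g y) with hs
    have hcs : s ^ 2 + c ^ 2 = 1 := Real.sin_sq_add_cos_sq _
    rw [Complex.mem_slitPlane_iff]
    by_contra hcon
    push Not at hcon
    obtain ⟨h1, h2⟩ := hcon
    rw [Complex.mul_re, hw, hcos, hsin] at h1
    rw [Complex.mul_im, hw, hcos, hsin] at h2
    simp only at h1 h2
    have e1 : 1 + ka d (prf t y) = -a := by linarith
    rw [e1] at h1 h2
    have h3 : y * c = a * s := by linarith
    have h4 : 0 ≤ c := by
      have h5 : 0 ≤ a * (a * c + y * s) := mul_nonneg ha0.le (by linarith)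
      have h6 : a * (a * c + y * s) = (a ^ 2 + y ^ 2) * c := by
        calc a * (a * c + y * s) = a ^ 2 * c + y * (a * s) := by ring
          _ = a ^ 2 * c + y * (y * c) := by rw [h3]
          _ = _ := by ring
      rw [h6] at h5
      by_contra hcc
      push Not at hcc
      have : (a ^ 2 + y ^ 2) * c < 0 := mul_neg_of_pos_of_neg (by positivity) hcc
      linarith
    have hpi := Real.pi_pos
    have h7 : s = 0 := by
      rcases lt_trichotomy y 0 with hneg | hz | hpos
      · have h8 : Win_g y ≤ 1 / 2 := by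
          rw [← Win_g_half]
          exact Win_g_mono hneg.le
        have h9 : 0 ≤ s := Real.sin_nonneg_of_nonneg_of_le_pi (by positivity) (by nlinarith)
        have h10 : y * c ≤ 0 := mul_nonpos_of_nonpos_of_nonneg hneg.le h4
        have h11 : a * s ≤ 0 := by linarith
        have h12 : s ≤ 0 := by
          by_contra hss
          push Not at hss
          have := mul_pos ha0 hss
          linarith
        linarith
      · rw [hz, zero_mul] at h3
        rcases mul_eq_zero.1 h3.symm with h | h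
        · exact absurd h ha0.ne'
        · exact h
      · have h8 : 1 / 2 ≤ Win_g y := by
          rw [← Win_g_half]
          exact Win_g_mono hpos.le
        have h9 : s ≤ 0 := by
          have h10 : Real.sin (2 * Real.pi * Win_g y - 2 * Real.pi) = s := Real.sin_sub_two_pi _
          rw [← h10]
          apply Real.sin_nonpos_of_nonpos_of_neg_pi_le
          · nlinarith
          · nlinarith
        have h10 : 0 ≤ y * c := mul_nonneg hpos.le h4
        have h12 : 0 ≤ s := by
          by_contra hss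
          push Not at hss
          have := mul_neg_of_pos_of_neg ha0 hss
          linarith
        linarith
    have h13 : c = 1 := by
      rw [h7] at hcs
      have : (c - 1) * (c + 1) = 0 := by linear_combination hcs
      rcases mul_eq_zero.1 this with h | h
      · linarith
      · exfalso
        linarith
    have h14 : ex (Win_g y) = ex 0 := by
      rw [RSG.ex_zero]
      apply Complex.ext
      · rw [hcos, h13, Complex.one_re]
      · rw [hsin, h7, Complex.one_im]
    obtain ⟨m, hm⟩ := RSG.ex_eq_iff.1 h14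
    have h15 : Win_g y = -(m : ℝ) := by linarith
    rw [h15] at hg0 hg1
    have h16 : m < 0 := by
      have : (m : ℝ) < 0 := by linarith
      exact_mod_cast this
    have h17 : -1 < m := by
      have : (-1 : ℝ) < m := by linarith
      exact_mod_cast this
    omega

theorem ww_log {d t : ℝ} (ht : 0 < t) (hd : 1 + t < d) : ∃ lm : ℝ → ℂ, ContDiff ℝ ∞ lm ∧
    (∀ y, Complex.exp (lm y) = ww d t y) ∧ (∀ y, y ≤ -(1 / 8) → lm y = Real.log 2) ∧
    ∀ y, 1 / 8 ≤ y → lm y = Real.log 2 - 2 * Real.pi * I := by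
  have hgs : ContDiff ℝ ∞ Win_g := CSG.stp_smooth _ _
  have hlog2 : Complex.log 2 = ((Real.log 2 : ℝ) : ℂ) := by
    rw [Complex.ofReal_log (by norm_num)]
    norm_num
  refine ⟨fun y => Complex.log (ww d t y * ex (Win_g y)) - ((2 * Real.pi * Win_g y : ℝ) : ℂ) * I,
    ?_, ?_, ?_, ?_⟩
  · refine ContDiff.sub ?_ ((Complex.ofRealCLM.contDiff.comp (contDiff_const.mul hgs)).mul
      contDiff_const)
    rw [contDiff_iff_contDiffAt]
    intro y
    have h1 : ContDiffAt ℝ ∞ Complex.log (ww d t y * ex (Win_g y)) :=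
      (Complex.contDiffAt_log (n := ∞) (Win_slit ht hd y)).restrict_scalars ℝ
    have h2 : ContDiff ℝ ∞ fun y => ww d t y * ex (Win_g y) :=
      (ww_smooth ht hd).mul (RSG.ex_smooth.comp hgs)
    exact h1.comp y h2.contDiffAt
  · intro y
    have h1 : ww d t y * ex (Win_g y) ≠ 0 := Complex.slitPlane_ne_zero (Win_slit ht hd y)
    rw [Complex.exp_sub, Complex.exp_log h1]
    change ww d t y * ex (Win_g y) / ex (Win_g y) = _
    rw [mul_div_assoc, div_self (RSG.ex_ne _), mul_one]
  · intro y hy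
    have h1 : 1 / 8 ≤ |y| := le_abs.2 (Or.inr (by linarith))
    simp only [Win_out ht hd h1, Win_g_lo (by linarith : y ≤ -(1 / 16)), RSG.ex_zero, mul_one,
      mul_zero, Complex.ofReal_zero, zero_mul, sub_zero]
    exact hlog2
  · intro y hy
    have h1 : 1 / 8 ≤ |y| := le_abs.2 (Or.inl hy)
    have h2 : ex 1 = 1 := by
      have := RSG.ex_int 1
      rwa [Int.cast_one] at this
    simp only [Win_out ht hd h1, Win_g_hi (by linarith : 1 / 16 ≤ y), h2, mul_one, hlog2]
    push_cast
    ring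

end Pool.Agent.KNF
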