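import Pool.Agent.KNF.Mod
import Pool.Agent.KNF.Win
import Pool.Agent.KNF.Tch
import Pool.Agent.KNF.Tav

/-!
# KNF/FouA (only `fou_set`; the module Fou uses it): one `four` move changes `om m 1` into `om m (-1)`

PROOF. Write `T = T d m e`, `w = ww d t` (`‖w y‖ ≤ B`), `Φ₊ = mo (om m 1) e`, `Φ₋ = mo (om m (-1)) e`,
`z₊ = w - 1`, `z₋ = conj w - 1`.  `O = T '' {q | ‖q.1‖ < N ∧ |q.2| < 1}`.
`Z = ((U \ Bs L) \ T '' {q | |q.2| < 1}) ∪ Fg L`.
* `fou_set`: `Kn ((t, Φ±) :: L) = Z ∪ T '' {(z± s, s), |s| < 1} ∪ T '' {(-1, s), |s| < 1}`: by `T_mo` (with `x = prf t y`)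
  the finger is `{T (z± y, y) : |y| ≤ 1}`; `U ∩ T '' {|s| < 1} = T {(1, s)} ∪ T {(-1, s)}` (`axis`); `T (1, s) = Φ± (0, s)`
  (`T_mo` with `x = 0`, `ka_zero`), so `bas Φ± = T {(1, s) : |s| < 1}`; `T (-1, s) ∉ Bs L ⊆ Sp L` (`havoid`; `Bs L ⊆ Sp L`
  because `(0, y) ∈ Rec`); the ends `s = ±1` of the finger are `T (1, ±1)`, in `U`, not in `T '' {|s| < 1}`, not in `Bs L`.
* `four` with `b (z, s) = T (w s / 2 - 1 + z (w s / 2), s)`: `b (1, s) = T (z₊ s, s)`, `b (-1, s) = T (-1, s)`. `BalC b`: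
  `(z, s) ↦ (w s / 2 - 1 + z (w s / 2), s)` is smooth, injective with injective derivative (`w ≠ 0`, `ww_log`).
  `Disjoint Z (b '' Dom)`: `b '' Dom ⊆ O` since `‖..‖ ≤ 5 B / 2 + 1 < N`; `O ∩ Z = ∅` (`havoid`, `Fg_sub`).
  So `Kn ((t, Φ₊) :: L)` is equivalent to `Z ∪ b '' Str2`, and
  `b '' Str2 = T {(b₀ s + ex (2 gs s) w s, s)} ∪ T {(b₀ s, s)}` with `b₀ s = w s / 2 - 1 - ex (2 gs s) (w s / 2)`.
* `level` with `b₀`, `l₀ s = lm s + 4π (gs s) I`, `b₁ = -1`, `l₁ s = conj (lm s)`, `lm` from `ww_log`. `hend`: for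
  `s ≤ -1/4` `gs s = 0`, `lm s` is real; for `s ≥ 1/4` `gs s = 1`, `lm s + 4π I = log 2 + 2π I = conj (lm s)`,
  `ex 2 = 1`. Bounds: `‖b₀‖ + ‖exp l₀‖ ≤ B + 1 + B`. `F` is the identity on `Z`, so `F '' (Z ∪ b '' Str2) = Kn ((t, Φ₋) :: L)`
  (`z₋ + 1 = conj w = exp (l₁)`). `LEq.diff` (`CD O F → CD univ F`).
-/

open scoped ContDiff Topology
open Set Filter
open Complex (I)
open Pool.Agent.CSG (stp)
open Pool.Agent.RSG (ex)
open Pool.Agent.KNT

namespace Pool.Agent.KNF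

theorem FouA_prf {t d : ℝ} (ht : 0 < t) (hd : 1 + t < d) (y : ℝ) : |1 - 2 * prf t y| < d := by
  have h1 := bmp_nonneg y
  have h2 := bmp_le_one y
  have h3 : 0 ≤ prf t y := by unfold prf; positivity
  have h4 : prf t y ≤ 1 + t / 2 := by
    unfold prf
    exact mul_le_of_le_one_right (by positivity) h2
  rw [abs_lt]
  constructor <;> linarith

theorem FouA_Sb0 : Sb 0 = 0 := CSG.stp_zero (by norm_num) (by norm_num)

theorem FouA_fin {t d e σ : ℝ} {m : ℤ} (ht : 0 < t) (hd : 1 + t < d) (y : ℝ) :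
    T d m e (⟨(ww d t y).re - 1, σ * (ww d t y).im⟩, y) = mo (om m σ) e (prf t y, y) := by
  rw [← T_mo m (by linarith) (FouA_prf ht hd y)]
  unfold ww
  simp only
  congr 3
  · ring
  · ring

theorem FouA_foot {t d e σ : ℝ} {m : ℤ} (ht : 0 < t) (hd : 1 + t < d) (y : ℝ) :
    mo (om m σ) e (0, y) = T d m e (1, y) := by
  rw [← T_mo m (by linarith : (1 : ℝ) < d) (by simp; linarith), ka_zero (by linarith), FouA_Sb0]
  congr 2
  apply Complex.ext <;> simp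

theorem FouA_Bs {L : SL} (h : Conf L) : Bs L ⊆ Sp L := by
  intro p hp
  unfold Bs at hp
  simp only [mem_iUnion, exists_prop] at hp
  obtain ⟨q, hq, y, hy, rfl⟩ := hp
  unfold Sp
  simp only [mem_iUnion, exists_prop]
  refine ⟨q, hq, (0, y), ⟨⟨le_rfl, ?_⟩, hy.1.le, hy.2.le⟩, rfl⟩
  have := (h.1 q hq).pos
  show (0 : ℝ) ≤ 1 + q.1
  linarith

theorem fou_set {L : SL} {t d e N B σ : ℝ} {m : ℤ} (hσ : σ = 1 ∨ σ = -1) (ht : 0 < t) (hd : 1 + t < d) (he : 0 < e)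
    (hB : ∀ y, ‖ww d t y‖ ≤ B) (hN : 3 * B + 2 ≤ N)
    (havoid : ∀ q : ℂ × ℝ, ‖q.1‖ < N → |q.2| < 2 → T d m e q ∉ Sp L)
    (hC : Conf ((t, mo (om m σ) e) :: L)) :
    Kn ((t, mo (om m σ) e) :: L) = (((U \ Bs L) \ (T d m e '' {q | |q.2| < 1})) ∪ Fg L) ∪
      ((fun s : ℝ => T d m e (⟨(ww d t s).re - 1, σ * (ww d t s).im⟩, s)) '' Ioo (-1) 1 ∪
        (fun s : ℝ => T d m e (-1, s)) '' Ioo (-1) 1) := by
  have hd1 : 1 < d := by linarith
  have hT := T_ch hd1 he m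
  have hL : Conf L := (conf_cons.1 hC).2.1
  have hB0 : 0 ≤ B := (norm_nonneg _).trans (hB 0)
  have hU : ∀ q : ℂ × ℝ, T d m e q ∈ U ↔ q.1 = 1 ∨ q.1 = -1 := fun q => hT.axis q
  have hBs1 : ∀ z : ℂ, ‖z‖ = 1 → ∀ s : ℝ, |s| ≤ 1 → T d m e (z, s) ∉ Bs L := by
    intro z hz s hs hmem
    refine havoid (z, s) ?_ ?_ (FouA_Bs hL hmem)
    · show ‖z‖ < N
      rw [hz]; linarith
    · show |s| < 2
      linarith
  have hend : ∀ y : ℝ, |y| = 1 → prf t y = 0 := fun y hy => prf_zero (by rw [hy]; norm_num)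
  rw [Kn_cons]
  unfold Zr
  apply Subset.antisymm
  · rintro p ((⟨hpU, hpn⟩ | hp) | ⟨y, hy, rfl⟩)
    · rw [mem_union, not_or] at hpn
      by_cases hpT : p ∈ T d m e '' {q | |q.2| < 1}
      · obtain ⟨⟨z, s⟩, hs, rfl⟩ := hpT
        have hs' : |s| < 1 := hs
        rcases (hU (z, s)).1 hpU with h | h
        · exfalso
          apply hpn.1
          have hz : z = 1 := h
          subst hz
          exact ⟨s, abs_lt.1 hs', FouA_foot ht hd s⟩
        · right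
          right
          have hz : z = -1 := h
          subst hz
          exact ⟨s, abs_lt.1 hs', rfl⟩
      · left
        left
        exact ⟨⟨hpU, hpn.2⟩, hpT⟩
    · left
      right
      exact hp
    · have hy' : |y| ≤ 1 := abs_le.2 hy
      rcases lt_or_eq_of_le hy' with h | h
      · right
        left
        exact ⟨y, abs_lt.1 h, FouA_fin ht hd y⟩
      · left
        left
        have e1 : mo (om m σ) e (prf t y, y) = T d m e (1, y) := by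
          rw [hend y h]
          exact FouA_foot ht hd y
        show mo (om m σ) e (prf t y, y) ∈ _
        rw [e1]
        refine ⟨⟨(hU _).2 (Or.inl rfl), hBs1 1 (by simp) y hy'⟩, ?_⟩
        rintro ⟨q, hq, hqe⟩
        have hqe' := hT.inj hqe
        have hq' : |q.2| < 1 := hq
        rw [hqe'] at hq'
        exact absurd h (ne_of_lt hq')
  · rintro p ((⟨⟨hpU, hpB⟩, hpT⟩ | hp) | (⟨s, hs, rfl⟩ | ⟨s, hs, rfl⟩))
    · left
      left
      refine ⟨hpU, ?_⟩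
      rw [mem_union, not_or]
      refine ⟨?_, hpB⟩
      rintro ⟨y, hy, rfl⟩
      apply hpT
      have hy' : |y| < 1 := abs_lt.2 hy
      exact ⟨(1, y), hy', (FouA_foot ht hd y).symm⟩
    · left
      right
      exact hp
    · right
      exact ⟨s, ⟨hs.1.le, hs.2.le⟩, (FouA_fin ht hd s).symm⟩
    · left
      left
      have hs' : |s| < 1 := abs_lt.2 hs
      refine ⟨(hU _).2 (Or.inr rfl), ?_⟩
      rw [mem_union, not_or]
      refine ⟨?_, hBs1 (-1) (by simp) s hs'.le⟩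
      rintro ⟨y, hy, hye⟩
      have h1 : T d m e (1, y) = T d m e (-1, s) := (FouA_foot ht hd y).symm.trans hye
      have h2 := congrArg Prod.fst (hT.inj h1)
      have h3 : (1 : ℂ) = -1 := h2
      have h4 := congrArg Complex.re h3
      norm_num at h4

end Pool.Agent.KNF
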