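import Pool.Agent.KNF.Be
import Pool.Agent.KNT.LinA
import Pool.Agent.KNT.LocI

/-!
# KNF/Mod: the model strips

PROOFS. `mo w e = be ∘ A`, `A (x, y) = (x, (e y) w x)`.
* `mo_strip`: `smooth`, `inj`: clear (`be_inj`, `w x ≠ 0`, `e ≠ 0`). `imm`: the derivative of `A` at `(x, y)` is
  `(u, v) ↦ (u, e v w x + e y u w' x)`, injective since `w x ≠ 0`; then `be_imm`. `foot`: `be_axis`, `w 0` is real.
  `tip`: `be_axis`. `off`: `be_axis` gives `x = 0`, or `x = 1` and `e y (w 1).im = 0`, so `y = 0`. `trv`: by `be_fd_one` the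
  derivative at `(1, 0)` is `(u, v) ↦ ⟨-2 u, - e v (w 1).im⟩`.
* `mo_conf`: `conf_cons`; `Sp L` is closed (`Sp_compact`); the set `{(x, v) : ℝ × ℝ | ∀ y, |y| ≤ 1 → ...}`; easier: the set
  `{(x, ξ) : ℝ × ℂ | be (x, ξ) ∉ Sp L}` is open and contains `[0, 1 + t] × {0}`, `near_pos` gives `r`, and
  `‖e y w x‖ ≤ e max ‖w‖ ≤ r` for small `e`.
* `mo_nrm`: chain rule, `nrm (mo w e) x = d/dy be (x, e y w x) = fderiv be (x, 0) (0, e w x) = e • kk w x`.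
* `gd_of_mo`: unfold `Gd`; `nrm Φ x = c • kk w x = (c / e) • nrm (mo w e) x`; `kn_jet` (KNT/LinA) with `Φ := mo w e`,
  `Ψ := Φ`, `dat_of_conf`, then `LEq.symm`, `LEq.trans`.
-/

open scoped ContDiff Topology
open Set Filter
open Complex (I)
open Pool.Agent.CSG (stp)
open Pool.Agent.RSG (ex)
open Pool.Agent.KNT

namespace Pool.Agent.KNF

/-- the inner map of `mo` -/
noncomputable def Mod_A (w : ℝ → ℂ) (e : ℝ) (q : ℝ × ℝ) : ℝ × ℂ := (q.1, ((e * q.2 : ℝ) : ℂ) * w q.1)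

theorem Mod_A_fd {w : ℝ → ℂ} (hw : ContDiff ℝ ∞ w) (e : ℝ) (q : ℝ × ℝ) :
    ∃ D : ℝ × ℝ →L[ℝ] ℝ × ℂ, HasFDerivAt (Mod_A w e) D q ∧ ∀ u v : ℝ,
      D (u, v) = (u, ((e * q.2 : ℝ) : ℂ) * fderiv ℝ w q.1 u + w q.1 * ((e * v : ℝ) : ℂ)) := by
  have h0 : HasFDerivAt (fun q : ℝ × ℝ => e * q.2) (e • ContinuousLinearMap.snd ℝ ℝ ℝ) q :=
    hasFDerivAt_snd.const_mul e
  have h1 : HasFDerivAt (fun q : ℝ × ℝ => ((e * q.2 : ℝ) : ℂ))
      (Complex.ofRealCLM.comp (e • ContinuousLinearMap.snd ℝ ℝ ℝ)) q :=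
    Complex.ofRealCLM.hasFDerivAt.comp q h0
  have h2 : HasFDerivAt (fun q : ℝ × ℝ => w q.1)
      ((fderiv ℝ w q.1).comp (ContinuousLinearMap.fst ℝ ℝ ℝ)) q :=
    ((hw.differentiable (by simp)) q.1).hasFDerivAt.comp q hasFDerivAt_fst
  refine ⟨_, hasFDerivAt_fst.prodMk (h1.mul h2), ?_⟩
  intro u v
  simp [smul_eq_mul]

theorem Mod_A_inj {w : ℝ → ℂ} {e : ℝ} (he : e ≠ 0) {q : ℝ × ℝ} (hq : w q.1 ≠ 0)
    {D : ℝ × ℝ →L[ℝ] ℝ × ℂ} (hD : ∀ u v : ℝ,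
      D (u, v) = (u, ((e * q.2 : ℝ) : ℂ) * fderiv ℝ w q.1 u + w q.1 * ((e * v : ℝ) : ℂ))) :
    Function.Injective D := by
  rw [injective_iff_map_eq_zero]
  rintro ⟨u, v⟩ h
  rw [hD] at h
  have h1 : u = 0 := congrArg Prod.fst h
  have h2 : ((e * q.2 : ℝ) : ℂ) * fderiv ℝ w q.1 u + w q.1 * ((e * v : ℝ) : ℂ) = 0 := congrArg Prod.snd h
  rw [h1, map_zero, mul_zero, zero_add] at h2
  rcases mul_eq_zero.1 h2 with h3 | h3
  · exact absurd h3 hq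
  · rw [Complex.ofReal_eq_zero] at h3
    rcases mul_eq_zero.1 h3 with h4 | h4
    · exact absurd h4 he
    · rw [h1, h4]
      rfl

theorem mo_core (w : ℝ → ℂ) (e x : ℝ) : mo w e (x, 0) = g0 x := by
  unfold mo g0
  simp

theorem mo_nrm (w : ℝ → ℂ) (e x : ℝ) : nrm (mo w e) x = e • kk w x := by
  have h1 : HasDerivAt (fun y : ℝ => ((e * y : ℝ) : ℂ) * w x) ((e : ℂ) * w x) 0 := by
    have h2 : HasDerivAt (fun y : ℝ => e * y) (e * 1) 0 := (hasDerivAt_id (0 : ℝ)).const_mul e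
    have h3 := h2.ofReal_comp
    rw [mul_one] at h3
    exact h3.mul_const (w x)
  have h2 : HasDerivAt (fun y : ℝ => (x, ((e * y : ℝ) : ℂ) * w x)) ((0 : ℝ), (e : ℂ) * w x) 0 :=
    (hasDerivAt_const (0 : ℝ) x).prodMk h1
  have h3 : HasFDerivAt be (fderiv ℝ be (x, 0)) (x, ((e * 0 : ℝ) : ℂ) * w x) := by
    have e1 : (x, ((e * 0 : ℝ) : ℂ) * w x) = ((x, 0) : ℝ × ℂ) := by simp
    rw [e1]
    exact ((be_smooth.differentiable (by simp)) _).hasFDerivAt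
  have h4 := h3.comp_hasDerivAt (0 : ℝ) h2
  have h5 : nrm (mo w e) x = fderiv ℝ be (x, 0) ((0 : ℝ), (e : ℂ) * w x) := h4.deriv
  rw [h5]
  unfold kk
  rw [← map_smul]
  congr 1
  simp

theorem mo_strip {t e : ℝ} {w : ℝ → ℂ} (ht : 0 < t) (h : Om t w) (he : 0 < e) : Strip t (mo w e) := by
  have hbd : Differentiable ℝ be := be_smooth.differentiable (by simp)
  have hre : ∀ (r : ℝ) (z : ℂ), ((r : ℂ) * z).im = r * z.im := fun r z => Complex.im_ofReal_mul r z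
  refine ⟨ht, ?_, ?_, ?_, ?_, ?_, ?_, ?_⟩
  · have h1 : ContDiff ℝ ∞ fun q : ℝ × ℝ => ((e * q.2 : ℝ) : ℂ) :=
      Complex.ofRealCLM.contDiff.comp (contDiff_const.mul contDiff_snd)
    exact be_smooth.comp (contDiff_fst.prodMk (h1.mul (h.smooth.comp contDiff_fst)))
  · rintro ⟨x, y⟩ ⟨hx, hy⟩ ⟨x', y'⟩ - heq
    have h1 := be_inj heq
    have h2 : x = x' := congrArg Prod.fst h1
    have h3 : ((e * y : ℝ) : ℂ) * w x = ((e * y' : ℝ) : ℂ) * w x' := congrArg Prod.snd h1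
    rw [← h2] at h3
    have h4 := Complex.ofReal_injective (mul_right_cancel₀ (h.ne x hx) h3)
    rw [h2, mul_left_cancel₀ he.ne' h4]
  · rintro ⟨x, y⟩ ⟨hx, hy⟩
    obtain ⟨D, hD, hD'⟩ := Mod_A_fd h.smooth e (x, y)
    have h1 : HasFDerivAt (mo w e) ((fderiv ℝ be (Mod_A w e (x, y))).comp D) (x, y) :=
      (hbd (Mod_A w e (x, y))).hasFDerivAt.comp (x, y) hD
    rw [h1.fderiv]
    exact (be_imm _).comp (Mod_A_inj he.ne' (h.ne x hx) hD')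
  · intro y _
    refine (be_axis _).2 ⟨Or.inl rfl, ?_⟩
    show (((e * y : ℝ) : ℂ) * w 0).im = 0
    rw [hre, h.foot, mul_zero]
  · rw [mo_core]
    exact (be_axis _).2 ⟨Or.inr rfl, rfl⟩
  · rintro ⟨x, y⟩ ⟨hx, hy⟩ h0
    obtain ⟨h1, h2⟩ := (be_axis _).1 h0
    have h1' : x = 0 ∨ x = 1 := h1
    have h2' : (((e * y : ℝ) : ℂ) * w x).im = 0 := h2
    rcases h1' with h1 | h1
    · exact Or.inl h1
    · right
      rw [h1, hre] at h2'
      rcases mul_eq_zero.1 h2' with h3 | h3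
      · rcases mul_eq_zero.1 h3 with h4 | h4
        · exact absurd h4 he.ne'
        · rw [h1, h4]
      · exact absurd h3 h.tip
  · obtain ⟨D, hD, hD'⟩ := Mod_A_fd h.smooth e ((1 : ℝ), (0 : ℝ))
    have h1 : HasFDerivAt (mo w e) ((fderiv ℝ be (Mod_A w e (1, 0))).comp D) ((1 : ℝ), (0 : ℝ)) :=
      (hbd (Mod_A w e (1, 0))).hasFDerivAt.comp ((1 : ℝ), (0 : ℝ)) hD
    have h2 : HasFDerivAt (fun q : ℝ × ℝ => (mo w e q).1)
        ((ContinuousLinearMap.fst ℝ ℂ ℝ).comp ((fderiv ℝ be (Mod_A w e (1, 0))).comp D)) ((1 : ℝ), (0 : ℝ)) :=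
      hasFDerivAt_fst.comp ((1 : ℝ), (0 : ℝ)) h1
    rw [h2.fderiv, injective_iff_map_eq_zero]
    rintro ⟨u, v⟩ h3
    have e1 : Mod_A w e (1, 0) = (1, 0) := by
      unfold Mod_A
      simp
    have h4 : (fderiv ℝ be (Mod_A w e (1, 0)) (D (u, v))).1 = 0 := h3
    rw [e1, hD', be_fd_one] at h4
    have h5 := congrArg Complex.re h4
    have h6 := congrArg Complex.im h4
    simp only [Complex.zero_re, Complex.zero_im] at h5 h6
    have h7 : u = 0 := by linarith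
    have h8 : (((e * v : ℝ) : ℂ) * w 1).im = 0 := by
      have h9 : (((e * (0 : ℝ) : ℝ) : ℂ) * fderiv ℝ w 1 u + w 1 * ((e * v : ℝ) : ℂ)).im = 0 := by linarith
      rw [mul_zero, Complex.ofReal_zero, zero_mul, zero_add, mul_comm] at h9
      exact h9
    rw [hre] at h8
    rcases mul_eq_zero.1 h8 with h9 | h9
    · rcases mul_eq_zero.1 h9 with h10 | h10
      · exact absurd h10 he.ne'
      · rw [h7, h10]
        rfl
    · exact absurd h9 h.tip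

theorem mo_conf {L : SL} {t : ℝ} {w : ℝ → ℂ} (ht : 0 < t) (h : Om t w) (hL : Conf L)
    (ha : ∀ x ∈ Icc 0 (1 + t), g0 x ∉ Sp L) :
    ∃ e₀ : ℝ, 0 < e₀ ∧ ∀ e : ℝ, 0 < e → e ≤ e₀ → Conf ((t, mo w e) :: L) := by
  have hO : IsOpen {p : ℝ × ℂ | be p ∉ Sp L} :=
    (Sp_compact hL).isClosed.isOpen_compl.preimage be_smooth.continuous
  obtain ⟨r, hr, h1⟩ := near_pos (isCompact_Icc : IsCompact (Icc (0 : ℝ) (1 + t))) hO ha
  obtain ⟨M, hM⟩ := (isCompact_Icc : IsCompact (Icc (0 : ℝ) (1 + t))).exists_bound_of_continuousOn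
    h.smooth.continuous.continuousOn
  have hM0 : 0 ≤ M := (norm_nonneg _).trans (hM 0 ⟨le_rfl, by linarith⟩)
  refine ⟨r / (M + 1), by positivity, ?_⟩
  intro e he hle
  refine conf_cons.2 ⟨mo_strip ht h he, hL, ?_⟩
  rw [Set.disjoint_left]
  rintro _ ⟨⟨x, y⟩, ⟨hx, hy⟩, rfl⟩ h2
  refine h1 x hx (((e * y : ℝ) : ℂ) * w x) ?_ h2
  rw [norm_mul, Complex.norm_real, Real.norm_eq_abs, abs_mul, abs_of_pos he]
  have h3 : |y| ≤ 1 := abs_le.2 hy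
  have h4 := hM x hx
  have h5 : e * |y| * ‖w x‖ ≤ e * 1 * M := by gcongr
  have h6 : e * (M + 1) ≤ r := by
    rw [le_div_iff₀ (by positivity)] at hle
    exact hle
  nlinarith

theorem gd_of_mo {L : SL} {t e : ℝ} {w : ℝ → ℂ} (he : 0 < e) (hC : Conf ((t, mo w e) :: L))
    (H : LEq (Kn ((t, mo w e) :: L)) U) : Gd L t g0 (kk w) := by
  intro Φ c hc hΦ hg hn
  have h1 := kn_jet (c := c / e) (div_pos hc he) hC hΦ
    (fun x hx => by rw [hg x hx, mo_core]) (fun x hx => by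
      rw [hn x hx, mo_nrm, smul_smul, div_mul_cancel₀ _ he.ne']) (dat_of_conf hC)
  exact h1.symm.trans H

end Pool.Agent.KNF
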