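import Pool.Agent.KNF.Mod
import Pool.Agent.KNT.ArcI
import Pool.Agent.KNT.PrfL

/-!
# KNF/RemA: a finger of class 0 can be removed

`Φ = mo (om 0 1) e`, `om 0 1 x = 1 + i Sb x`, `Φ (x, y) = be (x, e y (1 + i Sb x)) = bs (⟨1 - 2 x, e y Sb x⟩, e y)`.

PROOF of `rem_iso` (removal without the other fingers). Let `x = prf t y` (smooth in `y ∈ ℝ`),
`z (y) = ⟨1 - 2 x, e y Sb x⟩ ∈ ℂ`. `z (y) ≠ -1` for all `y`: otherwise `x = 1`, `Sb x = 1`, so `y = 0`, but
`prf t 0 = 1 + t / 2`. `ζ (y) = (1 - z) / (1 + z)`, smooth. Let `st (ζ) = (2 ζ / (1 + |ζ|²), (|ζ|² - 1) / (|ζ|² + 1)) ∈ ℂ × ℝ`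
(stereographic projection); `bs (z, s) = e^s • st ((1 - z) / (1 + z))` for `z ≠ -1`. The isotopy is
`k l y = e^{e y} • st ((1 - l) ζ (y))`; `k 0 y = Φ (prf t y, y)`, `k 1 y = (0, -e^{e y}) = Φ (0, y)`.
`ISO.core_arc` with `Λ = ⊥`, `a₀ = -2, a = -1, a' = -1/2, b' = 1/2, b = 1, b₀ = 2`, `O = (U \ bas Φ)ᶜ` (open:
`bas Φ = {(0, -e^{e y}) : |y| < 1}`, `U \ bas Φ = {q | q.1 = 0 ∧ q.2 ∉ Ioo (-exp e) (-exp (-e))}` is closed):
* `hend`: for `1/8 ≤ |y|` `x = 0`, `Sb 0 = 0`, `z = 1`, `ζ = 0`.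
* `hkO`: if `k l y ∈ U` then `(1 - l) ζ = 0` and `k l y = (0, -e^{e y}) ∈ bas Φ` (`|y| ≤ 1/2 < 1`).
* `himm`, `hinj`: `re² + im² + h²` of `k l y` is `e^{2 e y}`, strictly monotone with derivative `≠ 0`.
The result is `F` with `CD univ F` (from `Move`), `F = id` on `U \ bas Φ`, `F (Φ (prf t y, y)) = Φ (0, y)` for `|y| ≤ 1`. So
`F '' ((U \ bas Φ) ∪ gr Φ (prf t)) = (U \ bas Φ) ∪ Φ '' ({0} × [-1, 1]) = U`.

-/

open scoped ContDiff Topology
open Set Filter
open Complex (I)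
open Pool.Agent.CSG (stp stp_smooth stp_zero stp_one)
open Pool.Agent.RSG (ex)
open Pool.Agent.KNT

namespace Pool.Agent.KNF

/-- scaled stereographic projection: `E • st (a + i b)` -/
noncomputable def RemA_st (E a b : ℝ) : ℂ × ℝ :=
  (⟨E * (2 * a / (1 + (a ^ 2 + b ^ 2))), E * (2 * b / (1 + (a ^ 2 + b ^ 2)))⟩,
    E * ((a ^ 2 + b ^ 2 - 1) / (1 + (a ^ 2 + b ^ 2))))

theorem RemA_st_sq (E a b : ℝ) : (RemA_st E a b).1.re ^ 2 + (RemA_st E a b).1.im ^ 2 + (RemA_st E a b).2 ^ 2 =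
    E ^ 2 := by
  have h : 0 < 1 + (a ^ 2 + b ^ 2) := by positivity
  unfold RemA_st
  field_simp
  ring

theorem RemA_st_axis {E a b : ℝ} (hE : 0 < E) (h : (RemA_st E a b).1 = 0) : a = 0 ∧ b = 0 := by
  have h1 : 0 < 1 + (a ^ 2 + b ^ 2) := by positivity
  have hr : E * (2 * a / (1 + (a ^ 2 + b ^ 2))) = 0 := congrArg Complex.re h
  have hi : E * (2 * b / (1 + (a ^ 2 + b ^ 2))) = 0 := congrArg Complex.im h
  have hr' := (mul_eq_zero.1 hr).resolve_left hE.ne'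
  have hi' := (mul_eq_zero.1 hi).resolve_left hE.ne'
  rw [div_eq_zero_iff] at hr' hi'
  constructor
  · rcases hr' with h2 | h2
    · linarith
    · exact absurd h2 h1.ne'
  · rcases hi' with h2 | h2
    · linarith
    · exact absurd h2 h1.ne'

theorem RemA_st_zero (E : ℝ) : RemA_st E 0 0 = (0, -E) := by
  unfold RemA_st
  refine Prod.ext (Complex.ext ?_ ?_) ?_ <;> simp

/-- `bs` in terms of `st` -/
theorem RemA_bs {p v s : ℝ} (hD : 0 < (1 + p) ^ 2 + v ^ 2) :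
    bs (⟨p, v⟩, s) = RemA_st (Real.exp s) ((1 - p ^ 2 - v ^ 2) / ((1 + p) ^ 2 + v ^ 2))
      (-2 * v / ((1 + p) ^ 2 + v ^ 2)) := by
  have h1 : 0 < 1 + (p ^ 2 + v ^ 2) := by positivity
  have hn : ((1 - p ^ 2 - v ^ 2) / ((1 + p) ^ 2 + v ^ 2)) ^ 2 + (-2 * v / ((1 + p) ^ 2 + v ^ 2)) ^ 2 =
      ((1 - p) ^ 2 + v ^ 2) / ((1 + p) ^ 2 + v ^ 2) := by
    field_simp
    ring
  have hn1 : 1 + ((1 - p) ^ 2 + v ^ 2) / ((1 + p) ^ 2 + v ^ 2) =
      2 * (1 + (p ^ 2 + v ^ 2)) / ((1 + p) ^ 2 + v ^ 2) := by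
    field_simp
    ring
  unfold RemA_st bs
  rw [hn, hn1]
  refine Prod.ext (Complex.ext ?_ ?_) ?_
  · show Real.exp s * ((1 - (p ^ 2 + v ^ 2)) / (1 + (p ^ 2 + v ^ 2))) = _
    congr 1
    field_simp
    ring
  · show Real.exp s * (-2 * v / (1 + (p ^ 2 + v ^ 2))) = _
    congr 1
    field_simp
  · show Real.exp s * (-2 * p / (1 + (p ^ 2 + v ^ 2))) = _
    congr 1
    field_simp
    ring

theorem RemA_Sb_smooth : ContDiff ℝ ∞ Sb := stp_smooth _ _

theorem RemA_om (x : ℝ) : om 0 1 x = ⟨1, Sb x⟩ := by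
  unfold om
  apply Complex.ext
  · simp
  · simp

theorem RemA_mo (e x y : ℝ) : mo (om 0 1) e (x, y) = bs (⟨1 - 2 * x, e * y * Sb x⟩, e * y) := by
  unfold mo be
  rw [RemA_om]
  have h : (((e * y : ℝ) : ℂ) * ⟨1, Sb x⟩ : ℂ) = ⟨e * y, e * y * Sb x⟩ := by
    apply Complex.ext
    · simp
    · simp
  show bs (⟨1 - 2 * x, (((e * y : ℝ) : ℂ) * ⟨1, Sb x⟩ : ℂ).im⟩, (((e * y : ℝ) : ℂ) * ⟨1, Sb x⟩ : ℂ).re) = _
  rw [h]

/-- the denominator -/
noncomputable def RemA_D (t e y : ℝ) : ℝ := (1 + (1 - 2 * prf t y)) ^ 2 + (e * y * Sb (prf t y)) ^ 2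

theorem RemA_D_pos {t e : ℝ} (ht : 0 < t) (he : 0 < e) (y : ℝ) : 0 < RemA_D t e y := by
  have h0 : 0 ≤ RemA_D t e y := by
    unfold RemA_D
    positivity
  refine lt_of_le_of_ne h0 (Ne.symm ?_)
  intro h
  unfold RemA_D at h
  have h1 : (1 + (1 - 2 * prf t y)) ^ 2 = 0 := by nlinarith [sq_nonneg (1 + (1 - 2 * prf t y)), sq_nonneg (e * y * Sb (prf t y))]
  have h2 : (e * y * Sb (prf t y)) ^ 2 = 0 := by nlinarith [sq_nonneg (1 + (1 - 2 * prf t y)), sq_nonneg (e * y * Sb (prf t y))]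
  have h3 : prf t y = 1 := by
    have := pow_eq_zero_iff (two_ne_zero) |>.1 h1
    linarith
  have h4 : Sb (prf t y) = 1 := by
    rw [h3]
    exact stp_one (by norm_num) (by norm_num)
  have h5 : e * y * Sb (prf t y) = 0 := pow_eq_zero_iff (two_ne_zero) |>.1 h2
  rw [h4, mul_one] at h5
  have h6 : y = 0 := (mul_eq_zero.1 h5).resolve_left he.ne'
  rw [h6, prf_at_zero] at h3
  linarith

/-- the coordinates of `ζ` -/
noncomputable def RemA_a (t e y : ℝ) : ℝ :=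
  (1 - (1 - 2 * prf t y) ^ 2 - (e * y * Sb (prf t y)) ^ 2) / RemA_D t e y
noncomputable def RemA_b (t e y : ℝ) : ℝ := -2 * (e * y * Sb (prf t y)) / RemA_D t e y

theorem RemA_v_smooth (t e : ℝ) : ContDiff ℝ ∞ fun y : ℝ => e * y * Sb (prf t y) :=
  (contDiff_const.mul contDiff_id).mul (RemA_Sb_smooth.comp (prf_smooth t))

theorem RemA_D_smooth (t e : ℝ) : ContDiff ℝ ∞ (RemA_D t e) :=
  ((contDiff_const.add (contDiff_const.sub (contDiff_const.mul (prf_smooth t)))).pow 2).add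
    ((RemA_v_smooth t e).pow 2)

theorem RemA_a_smooth {t e : ℝ} (ht : 0 < t) (he : 0 < e) : ContDiff ℝ ∞ (RemA_a t e) :=
  ((contDiff_const.sub ((contDiff_const.sub (contDiff_const.mul (prf_smooth t))).pow 2)).sub
    ((RemA_v_smooth t e).pow 2)).div (RemA_D_smooth t e) fun y => (RemA_D_pos ht he y).ne'

theorem RemA_b_smooth {t e : ℝ} (ht : 0 < t) (he : 0 < e) : ContDiff ℝ ∞ (RemA_b t e) :=
  (contDiff_const.mul (RemA_v_smooth t e)).div (RemA_D_smooth t e) fun y => (RemA_D_pos ht he y).ne'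

/-- the isotopy -/
noncomputable def RemA_k (t e l y : ℝ) : ℂ × ℝ :=
  RemA_st (Real.exp (e * y)) ((1 - l) * RemA_a t e y) ((1 - l) * RemA_b t e y)

theorem RemA_k_smooth {t e : ℝ} (ht : 0 < t) (he : 0 < e) :
    ContDiff ℝ ∞ fun p : ℝ × ℝ => RemA_k t e p.1 p.2 := by
  have hE : ContDiff ℝ ∞ fun p : ℝ × ℝ => Real.exp (e * p.2) :=
    Real.contDiff_exp.comp (contDiff_const.mul contDiff_snd)
  have ha : ContDiff ℝ ∞ fun p : ℝ × ℝ => (1 - p.1) * RemA_a t e p.2 :=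
    (contDiff_const.sub contDiff_fst).mul ((RemA_a_smooth ht he).comp contDiff_snd)
  have hb : ContDiff ℝ ∞ fun p : ℝ × ℝ => (1 - p.1) * RemA_b t e p.2 :=
    (contDiff_const.sub contDiff_fst).mul ((RemA_b_smooth ht he).comp contDiff_snd)
  have hn : ContDiff ℝ ∞ fun p : ℝ × ℝ => ((1 - p.1) * RemA_a t e p.2) ^ 2 +
      ((1 - p.1) * RemA_b t e p.2) ^ 2 := (ha.pow 2).add (hb.pow 2)
  have hn1 : ContDiff ℝ ∞ fun p : ℝ × ℝ => 1 + (((1 - p.1) * RemA_a t e p.2) ^ 2 +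
      ((1 - p.1) * RemA_b t e p.2) ^ 2) := contDiff_const.add hn
  have hne : ∀ p : ℝ × ℝ, 1 + (((1 - p.1) * RemA_a t e p.2) ^ 2 +
      ((1 - p.1) * RemA_b t e p.2) ^ 2) ≠ 0 := fun p => by positivity
  have e1 := hE.mul ((contDiff_const (c := (2 : ℝ)).mul ha).div hn1 hne)
  have e2 := hE.mul ((contDiff_const (c := (2 : ℝ)).mul hb).div hn1 hne)
  have e3 := hE.mul ((hn.sub (contDiff_const (c := (1 : ℝ)))).div hn1 hne)
  have e4 := Complex.equivRealProdCLM.symm.contDiff.comp (e1.prodMk e2)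
  exact e4.prodMk e3

theorem RemA_k0 {t e : ℝ} (ht : 0 < t) (he : 0 < e) (y : ℝ) :
    RemA_k t e 0 y = mo (om 0 1) e (prf t y, y) := by
  rw [RemA_mo, RemA_bs (RemA_D_pos ht he y)]
  unfold RemA_k
  rw [sub_zero, one_mul, one_mul]
  rfl

theorem RemA_k1 (t e y : ℝ) : RemA_k t e 1 y = (0, -Real.exp (e * y)) := by
  unfold RemA_k
  rw [sub_self, zero_mul, zero_mul, RemA_st_zero]

theorem RemA_Sb0 : Sb 0 = 0 := stp_zero (by norm_num) (by norm_num)

theorem RemA_base (e y : ℝ) : mo (om 0 1) e (0, y) = (0, -Real.exp (e * y)) := by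
  rw [RemA_mo, RemA_Sb0, mul_zero, mul_zero, sub_zero]
  exact bs_one _

theorem RemA_zero {t e y : ℝ} (h : 1 / 8 ≤ |y|) : RemA_a t e y = 0 ∧ RemA_b t e y = 0 := by
  unfold RemA_a RemA_b
  rw [prf_zero h, RemA_Sb0]
  constructor <;> simp

/-- the fixed part is closed -/
theorem RemA_closed {e : ℝ} (he : 0 < e) : IsClosed (U \ bas (mo (om 0 1) e)) := by
  have h : U \ bas (mo (om 0 1) e) = {q : ℂ × ℝ | q.1 = 0} ∩
      ({q : ℂ × ℝ | q.2 ≤ -Real.exp e} ∪ {q : ℂ × ℝ | -Real.exp (-e) ≤ q.2}) := by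
    ext q
    constructor
    · rintro ⟨h1, h2⟩
      refine ⟨h1, ?_⟩
      by_contra h3
      have h4 : ¬ (q.2 ≤ -Real.exp e) := fun h => h3 (Or.inl h)
      have h5 : ¬ (-Real.exp (-e) ≤ q.2) := fun h => h3 (Or.inr h)
      push Not at h4 h5
      apply h2
      have hpos : 0 < -q.2 := by
        have := Real.exp_pos (-e)
        linarith
      refine ⟨Real.log (-q.2) / e, ⟨?_, ?_⟩, ?_⟩
      · rw [lt_div_iff₀ he]
        have : -e < Real.log (-q.2) := (Real.lt_log_iff_exp_lt hpos).2 (by linarith)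
        linarith
      · rw [div_lt_iff₀ he]
        have : Real.log (-q.2) < e := (Real.log_lt_iff_lt_exp hpos).2 (by linarith)
        linarith
      · show mo (om 0 1) e (0, Real.log (-q.2) / e) = q
        rw [RemA_base, mul_div_cancel₀ _ he.ne', Real.exp_log hpos, neg_neg]
        exact Prod.ext h1.symm rfl
    · rintro ⟨h1, h2⟩
      refine ⟨h1, ?_⟩
      rintro ⟨y, hy, hyq⟩
      have h3 : mo (om 0 1) e (0, y) = q := hyq
      rw [RemA_base] at h3
      have h4 : -Real.exp (e * y) = q.2 := congrArg Prod.snd h3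
      have h5 : Real.exp (e * y) < Real.exp e := by
        apply Real.exp_lt_exp.2
        nlinarith [hy.2]
      have h6 : Real.exp (-e) < Real.exp (e * y) := by
        apply Real.exp_lt_exp.2
        nlinarith [hy.1]
      rcases h2 with h2 | h2
      · have h7 : q.2 ≤ -Real.exp e := h2
        linarith
      · have h7 : -Real.exp (-e) ≤ q.2 := h2
        linarith
  rw [h]
  refine IsClosed.inter (isClosed_eq continuous_fst continuous_const) (IsClosed.union ?_ ?_)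
  · exact isClosed_le continuous_snd continuous_const
  · exact isClosed_le continuous_const continuous_snd

theorem rem_iso {t e : ℝ} (ht : 0 < t) (he : 0 < e) : ∃ F : Equiv.Perm (ℂ × ℝ), CD univ F ∧
    F '' ((U \ bas (mo (om 0 1) e)) ∪ gr (mo (om 0 1) e) (prf t)) = U := by
  have hsq : ∀ l y : ℝ, (RemA_k t e l y).1.re ^ 2 + (RemA_k t e l y).1.im ^ 2 + (RemA_k t e l y).2 ^ 2 =
      Real.exp (e * y) ^ 2 := fun l y => RemA_st_sq _ _ _
  obtain ⟨F, hF, hF'⟩ := arc_iso (RemA_closed he) (k := RemA_k t e) (r := 1 / 2) (by norm_num) (by norm_num)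
    (RemA_k_smooth ht he)
    (by
      intro s _ y _ hy
      obtain ⟨h1, h2⟩ := RemA_zero (t := t) (e := e) (y := y) (by linarith)
      unfold RemA_k
      rw [h1, h2, mul_zero, mul_zero])
    (by
      rintro s _ y hy ⟨h1, h2⟩
      obtain ⟨h3, h4⟩ := RemA_st_axis (Real.exp_pos _) h1
      apply h2
      refine ⟨y, ?_, ?_⟩
      · have := abs_le.1 hy
        exact ⟨by linarith [this.1], by linarith [this.2]⟩
      · show mo (om 0 1) e (0, y) = RemA_k t e s y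
        rw [RemA_base]
        unfold RemA_k
        rw [h3, h4, RemA_st_zero])
    (by
      intro s _ y _ h0
      have hk : ContDiff ℝ ∞ (RemA_k t e s) :=
        (RemA_k_smooth ht he).comp (contDiff_const.prodMk contDiff_id)
      have hd := ((hk.differentiable (by simp)) y).hasDerivAt
      rw [h0] at hd
      have d1 : HasDerivAt (fun y => (RemA_k t e s y).1.re) 0 y :=
        (Complex.reCLM.comp (ContinuousLinearMap.fst ℝ ℂ ℝ)).hasFDerivAt.comp_hasDerivAt y hd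
      have d2 : HasDerivAt (fun y => (RemA_k t e s y).1.im) 0 y :=
        (Complex.imCLM.comp (ContinuousLinearMap.fst ℝ ℂ ℝ)).hasFDerivAt.comp_hasDerivAt y hd
      have d3 : HasDerivAt (fun y => (RemA_k t e s y).2) 0 y :=
        (ContinuousLinearMap.snd ℝ ℂ ℝ).hasFDerivAt.comp_hasDerivAt y hd
      have d4 := ((d1.pow 2).add (d2.pow 2)).add (d3.pow 2)
      have d5 : HasDerivAt (fun y : ℝ => Real.exp (e * y) ^ 2)
          (((2 : ℕ) : ℝ) * Real.exp (e * y) ^ (2 - 1) * (Real.exp (e * y) * (e * 1))) y :=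
        (((hasDerivAt_id y).const_mul e).exp).pow 2
      have d6 : (fun y => (RemA_k t e s y).1.re ^ 2 + (RemA_k t e s y).1.im ^ 2 + (RemA_k t e s y).2 ^ 2) =
          fun y : ℝ => Real.exp (e * y) ^ 2 := funext fun y => hsq s y
      have d7 : HasDerivAt (fun y => (RemA_k t e s y).1.re ^ 2 + (RemA_k t e s y).1.im ^ 2 +
        (RemA_k t e s y).2 ^ 2) _ y := d4
      rw [d6] at d7
      have d8 := d7.unique d5
      have hE := Real.exp_pos (e * y)
      have d9 : 0 < ((2 : ℕ) : ℝ) * Real.exp (e * y) ^ (2 - 1) * (Real.exp (e * y) * (e * 1)) := by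
        positivity
      rw [← d8] at d9
      simp at d9)
    (by
      intro s _ y _ y' _ h0
      have h0' : RemA_k t e s y = RemA_k t e s y' := h0
      have h1 := hsq s y
      rw [h0', hsq s y'] at h1
      have h2 : Real.exp (e * y') = Real.exp (e * y) :=
        (pow_left_inj₀ (Real.exp_pos _).le (Real.exp_pos _).le two_ne_zero).1 h1
      have h3 : e * y' = e * y := Real.exp_injective h2
      exact (mul_left_cancel₀ he.ne' h3).symm)
  refine ⟨F, hF.mono (subset_univ _), ?_⟩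
  have hgr : gr (mo (om 0 1) e) (prf t) = RemA_k t e 0 '' Icc (-1) 1 := by
    unfold gr
    apply image_congr
    intro y _
    exact (RemA_k0 ht he y).symm
  have hfix : F '' (U \ bas (mo (om 0 1) e)) = U \ bas (mo (om 0 1) e) :=
    hF.image_disj disjoint_compl_right
  have himg : F '' (RemA_k t e 0 '' Icc (-1) 1) = RemA_k t e 1 '' Icc (-1) 1 := by
    rw [← image_comp]
    apply image_congr
    intro y hy
    exact hF' y hy
  rw [image_union, hgr, hfix, himg]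
  ext q
  constructor
  · rintro (⟨h1, -⟩ | ⟨y, -, rfl⟩)
    · exact h1
    · rw [RemA_k1]
      exact rfl
  · intro hq
    by_cases hb : q ∈ bas (mo (om 0 1) e)
    · right
      obtain ⟨y, hy, hyq⟩ := hb
      refine ⟨y, ⟨hy.1.le, hy.2.le⟩, ?_⟩
      have h3 : mo (om 0 1) e (0, y) = q := hyq
      rw [RemA_k1, ← h3, RemA_base]
    · exact Or.inl ⟨hq, hb⟩

end Pool.Agent.KNF
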