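import Pool.Agent.KNF.BeA

/-!
# KNF/Tca: the functions `xx` and `ka`

PROOFS. `d > 1`. `f a = d a / √(a² + d² - 1)` is smooth and strictly increasing (`f' = d (d² - 1) / (a² + d² - 1)^{3/2}`;
injectivity also follows from `ka_xx`), `|f a| < d`, `f 1 = 1`, `f (-1) = -1`; `xx d a = (1 - f a) / 2`.
* `ka_xx`: `1 - 2 xx d a = f a`, `d² - f² = d² (d² - 1) / (a² + d² - 1)`, so `ka = a`.
* `xx_ka`: with `b = 1 - 2 x`, `|b| < d`, `a = ka d x = b √(d² - 1) / √(d² - b²)`, `a² + d² - 1 = d² (d² - 1) / (d² - b²)`, so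
  `f a = b`.
* `ka_one_iff` etc.: `ka d x = -1 ↔ x = 1` by `xx_ka` / `ka_xx` and `xx d (-1) = 1`; `ka` is strictly decreasing:
  if `ka d x ≥ -1` and `x > 1` then `f (ka d x) ≥ f (-1) = -1`, but it is `1 - 2 x < -1`.
-/

open scoped ContDiff Topology
open Set Filter
open Complex (I)
open Pool.Agent.CSG (stp)
open Pool.Agent.RSG (ex)
open Pool.Agent.KNT

namespace Pool.Agent.KNF

theorem Tca_D {d : ℝ} (hd : 1 < d) : 0 < d ^ 2 - 1 := by nlinarith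

theorem Tca_R {d : ℝ} (hd : 1 < d) (a : ℝ) : 0 < a ^ 2 + (d ^ 2 - 1) := by
  have := Tca_D hd
  positivity

theorem Tca_S {d x : ℝ} (hx : |1 - 2 * x| < d) : 0 < d ^ 2 - (1 - 2 * x) ^ 2 := by
  have h1 := abs_lt.1 hx
  nlinarith

theorem xx_smooth {d : ℝ} (hd : 1 < d) : ContDiff ℝ ∞ (xx d) := by
  unfold xx
  have h1 : ContDiff ℝ ∞ (fun a : ℝ => Real.sqrt (a ^ 2 + (d ^ 2 - 1))) := by
    apply ContDiff.sqrt
    · fun_prop
    · intro a
      exact (Tca_R hd a).ne'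
  have h2 : ContDiff ℝ ∞ (fun a : ℝ => d * a / Real.sqrt (a ^ 2 + (d ^ 2 - 1))) := by
    apply ContDiff.div
    · fun_prop
    · exact h1
    · intro a
      exact (Real.sqrt_pos.2 (Tca_R hd a)).ne'
  exact (contDiff_const.sub h2).div_const 2

theorem Tca_f (d a : ℝ) : 1 - 2 * xx d a = d * a / Real.sqrt (a ^ 2 + (d ^ 2 - 1)) := by
  unfold xx
  ring

theorem xx_lt {d : ℝ} (hd : 1 < d) (a : ℝ) : |1 - 2 * xx d a| < d := by
  rw [Tca_f]
  have h1 := Real.sqrt_pos.2 (Tca_R hd a)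
  rw [abs_div, abs_of_pos h1, div_lt_iff₀ h1, abs_mul, abs_of_pos (by linarith : 0 < d)]
  have h2 : |a| < Real.sqrt (a ^ 2 + (d ^ 2 - 1)) := by
    apply Real.lt_sqrt_of_sq_lt
    rw [sq_abs]
    have := Tca_D hd
    linarith
  exact mul_lt_mul_of_pos_left h2 (by linarith)

theorem xx_one {d : ℝ} (hd : 1 < d) : xx d 1 = 0 := by
  unfold xx
  have h1 : (1 : ℝ) ^ 2 + (d ^ 2 - 1) = d ^ 2 := by ring
  rw [h1, Real.sqrt_sq (by linarith), mul_one, div_self (by linarith : d ≠ 0)]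
  norm_num

theorem xx_neg_one {d : ℝ} (hd : 1 < d) : xx d (-1) = 1 := by
  unfold xx
  have h1 : (-1 : ℝ) ^ 2 + (d ^ 2 - 1) = d ^ 2 := by ring
  rw [h1, Real.sqrt_sq (by linarith), mul_neg, mul_one, neg_div, div_self (by linarith : d ≠ 0)]
  norm_num

theorem ka_xx {d : ℝ} (hd : 1 < d) (a : ℝ) : ka d (xx d a) = a := by
  unfold ka
  rw [Tca_f]
  have hD := Tca_D hd
  have hR := Tca_R hd a
  have hR' := Real.sqrt_pos.2 hR
  have hD' := Real.sqrt_pos.2 hD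
  have hR2 := Real.sq_sqrt hR.le
  have hd0 : 0 < d := by linarith
  have h1 : d ^ 2 - (d * a / Real.sqrt (a ^ 2 + (d ^ 2 - 1))) ^ 2 =
      (d * Real.sqrt (d ^ 2 - 1) / Real.sqrt (a ^ 2 + (d ^ 2 - 1))) ^ 2 := by
    rw [div_pow, div_pow, mul_pow, mul_pow, Real.sq_sqrt hD.le, hR2]
    field_simp
    ring
  rw [h1, Real.sqrt_sq (by positivity)]
  field_simp

theorem xx_ka {d x : ℝ} (hd : 1 < d) (hx : |1 - 2 * x| < d) : xx d (ka d x) = x := by
  have hD := Tca_D hd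
  have hS := Tca_S hx
  have hD' := Real.sqrt_pos.2 hD
  have hS' := Real.sqrt_pos.2 hS
  have hd0 : 0 < d := by linarith
  have h1 : (ka d x) ^ 2 + (d ^ 2 - 1) =
      (d * Real.sqrt (d ^ 2 - 1) / Real.sqrt (d ^ 2 - (1 - 2 * x) ^ 2)) ^ 2 := by
    unfold ka
    rw [div_pow, div_pow, mul_pow, mul_pow, Real.sq_sqrt hD.le, Real.sq_sqrt hS.le]
    field_simp
    ring
  have h2 : 1 - 2 * xx d (ka d x) = 1 - 2 * x := by
    rw [Tca_f, h1, Real.sqrt_sq (by positivity)]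
    unfold ka
    field_simp
  linarith

theorem ka_smooth {d x : ℝ} (hd : 1 < d) (hx : |1 - 2 * x| < d) : ContDiffAt ℝ ∞ (ka d) x := by
  have hS := Tca_S hx
  unfold ka
  have h1 : ContDiffAt ℝ ∞ (fun x : ℝ => Real.sqrt (d ^ 2 - (1 - 2 * x) ^ 2)) x := by
    apply ContDiffAt.sqrt
    · fun_prop
    · exact hS.ne'
  apply ContDiffAt.div
  · fun_prop
  · exact h1
  · exact (Real.sqrt_pos.2 hS).ne'

theorem ka_zero {d : ℝ} (hd : 1 < d) : ka d 0 = 1 := by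
  unfold ka
  have h1 : (1 : ℝ) - 2 * 0 = 1 := by norm_num
  rw [h1, one_pow, one_mul, div_self (Real.sqrt_pos.2 (Tca_D hd)).ne']

theorem ka_nonneg {d x : ℝ} (hd : 1 < d) (hx : x ≤ 1 / 2) : 0 ≤ ka d x := by
  unfold ka
  exact div_nonneg (mul_nonneg (by linarith) (Real.sqrt_nonneg _)) (Real.sqrt_nonneg _)

theorem ka_lt {d x : ℝ} (hd : 1 < d) (hx : |1 - 2 * x| < d) (h1 : 1 < x) : ka d x < -1 := by
  have hD := Tca_D hd
  have hS := Tca_S hx
  have hD' := Real.sqrt_pos.2 hD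
  have hS' := Real.sqrt_pos.2 hS
  unfold ka
  rw [div_lt_iff₀ hS']
  have h2 : Real.sqrt (d ^ 2 - (1 - 2 * x) ^ 2) < (2 * x - 1) * Real.sqrt (d ^ 2 - 1) := by
    have h3 : (2 * x - 1) * Real.sqrt (d ^ 2 - 1) =
        Real.sqrt ((2 * x - 1) ^ 2 * (d ^ 2 - 1)) := by
      rw [Real.sqrt_mul (sq_nonneg _), Real.sqrt_sq (by linarith)]
    rw [h3]
    apply Real.sqrt_lt_sqrt hS.le
    nlinarith [mul_pos (by linarith : (0 : ℝ) < x - 1) (by linarith : (0 : ℝ) < x),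
      mul_pos (mul_pos (by linarith : (0 : ℝ) < x - 1) (by linarith : (0 : ℝ) < x))
        (by positivity : (0 : ℝ) < d ^ 2)]
  nlinarith

theorem ka_eq {d x : ℝ} (hd : 1 < d) (hx : |1 - 2 * x| < d) (h : ka d x = -1) : x = 1 := by
  have h1 := xx_ka hd hx
  rw [h, xx_neg_one hd] at h1
  exact h1.symm

end Pool.Agent.KNF
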